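import Pool.Agent.U831.AF.Rank
import Pool.Agent.U831.ZP.Main

/-!
# From near relations to distribution on long ranges of scales
-/

set_option autoImplicit false

namespace Pool.Agent.U831.AF

open Filter Pool.Agent.U831.JE

section

variable {ι : Type} [Fintype ι]

/-- a linear form without constant term -/
noncomputable def form (u : ι → ℝ) (v : ι → ℤ) : ℝ := ∑ i, (v i : ℝ) * u i

/-- the vectors which are bad at some scale between `X` and `X ^ M` -/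
def bad (κ M : ℝ) (u : ι → ℝ) (X : ℝ) : Set (ι → ℤ) :=
  {v | ∃ N : ℕ, X ≤ N ∧ (N : ℝ) ≤ X ^ M ∧ (∀ i, |(v i : ℝ)| ≤ (N : ℝ) ^ κ) ∧
    ¬ DiscLe (form u v) N ((N : ℝ) ^ (-κ))}

/-- the vector `(-p; q v)` -/
def lift (p : ℤ) (q : ℕ) (v : ι → ℤ) : Option ι → ℤ
  | none => -p
  | some i => q * v i

/-- the numbers `(1; u)` -/
def one_u (u : ι → ℝ) : Option ι → ℝ
  | none => 1
  | some i => u i

lemma exists_near (B : ℝ) (hB : 0 ≤ B) (κ₀ : ℕ) (M : ℝ) (hM : 1 ≤ M) (X₀ : ℝ) :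
    ∃ κ : ℝ, 0 < κ ∧ ∃ X₁ : ℝ, ∀ u : ι → ℝ, (∀ i, |u i| ≤ B) → ∀ X : ℝ, X₁ ≤ X →
      ∃ Y : ℝ, X₀ ≤ Y ∧ ∀ v ∈ bad κ M u X, ∃ (q : ℕ) (p : ℤ), 1 ≤ q ∧
        lift p q v ∈ nearSet (one_u u) κ₀ Y := by
  set κ : ℝ := 1 / (4 * (M * κ₀ + 1)) with hκdef
  have hk0 : (0 : ℝ) ≤ κ₀ := by positivity
  have hMk : 0 ≤ M * κ₀ := by positivity
  have hκ : 0 < κ := by positivity
  have hκ4 : κ ≤ 1 / 4 := by
    rw [hκdef]
    apply one_div_le_one_div_of_le (by norm_num)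
    linarith
  have hexp : κ + 2 * κ * M * κ₀ ≤ 1 / 2 := by
    have h1 : κ * (4 * (M * κ₀ + 1)) = 1 := by
      rw [hκdef]; field_simp
    nlinarith
  obtain ⟨n, hn⟩ : ∃ n : ℝ, n = (Fintype.card ι : ℝ) := ⟨_, rfl⟩
  have hn0 : 0 ≤ n := by rw [hn]; positivity
  set K : ℝ := 20 * (n * B + 3) with hK
  have hnB : 0 ≤ n * B := by positivity
  have hK60 : 60 ≤ K := by rw [hK]; linarith
  have hK0 : 0 < K := by linarith
  set b : ℝ := 1 / (20 * K ^ κ₀) with hb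
  have hb0 : 0 < b := by positivity
  have hlim : ∀ᶠ X : ℝ in atTop, X ^ (-(1 / 2) : ℝ) < b := by
    have := tendsto_rpow_neg_atTop (show (0 : ℝ) < 1 / 2 by norm_num)
    exact this.eventually_lt_const hb0
  have hlim2 : ∀ᶠ X : ℝ in atTop, X₀ ≤ X ^ (2 * κ * M) :=
    (tendsto_rpow_atTop (show (0 : ℝ) < 2 * κ * M by positivity)).eventually_ge_atTop X₀
  obtain ⟨X₁, hX₁⟩ := eventually_atTop.1 (hlim.and hlim2)
  refine ⟨κ, hκ, max X₁ (42 ^ 4), ?_⟩
  intro u hu X hX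
  have hX1 : X₁ ≤ X := (le_max_left _ _).trans hX
  have hX4 : (42 : ℝ) ^ 4 ≤ X := (le_max_right _ _).trans hX
  have hX0 : 1 ≤ X := le_trans (by norm_num) hX4
  have hXp : 0 < X := by linarith
  obtain ⟨hsm, hbig⟩ := hX₁ X hX1
  have hX2 : 1 ≤ X ^ (2 * κ * M) := Real.one_le_rpow hX0 (by positivity)
  refine ⟨K * X ^ (2 * κ * M), ?_, ?_⟩
  · nlinarith
  rintro v ⟨N, hXN, hNX, h1, hbad⟩
  have hN1 : 1 ≤ (N : ℝ) := hX0.trans hXN
  have hN1' : 1 ≤ N := by exact_mod_cast hN1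
  have hNp : 0 < (N : ℝ) := by linarith
  have h42 : 42 * Real.sqrt N ≤ (N : ℝ) ^ (1 - κ) := by
    have e1 : (42 : ℝ) ≤ (N : ℝ) ^ ((1 : ℝ) / 4) := by
      have e2 : (42 : ℝ) = ((42 : ℝ) ^ 4) ^ ((1 : ℝ) / 4) := by
        rw [← Real.rpow_natCast (42 : ℝ) 4, ← Real.rpow_mul (by norm_num)]
        norm_num
      rw [e2]
      exact Real.rpow_le_rpow (by norm_num) (hX4.trans hXN) (by norm_num)
    calc 42 * Real.sqrt N ≤ (N : ℝ) ^ ((1 : ℝ) / 4) * (N : ℝ) ^ ((1 : ℝ) / 2) := by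
          rw [Real.sqrt_eq_rpow]
          exact mul_le_mul_of_nonneg_right e1 (by positivity)
      _ = (N : ℝ) ^ ((3 : ℝ) / 4) := by
          rw [← Real.rpow_add hNp]; norm_num
      _ ≤ (N : ℝ) ^ (1 - κ) := Real.rpow_le_rpow_of_exponent_le hN1 (by linarith)
  obtain ⟨q, p, hq1, hqN, hp⟩ := Pool.Agent.U831.HY.near (form u v) N κ hN1' h42 hbad
  have hq0 : (0 : ℝ) < q := by exact_mod_cast hq1
  have hsize : (N : ℝ) ^ (2 * κ) ≤ X ^ (2 * κ * M) := by
    calc (N : ℝ) ^ (2 * κ) ≤ (X ^ M) ^ (2 * κ) := Real.rpow_le_rpow hNp.le hNX (by positivity)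
      _ = X ^ (2 * κ * M) := by
          rw [← Real.rpow_mul hXp.le]; ring_nf
  set T := (N : ℝ) ^ κ with hT
  have hT1 : 1 ≤ T := Real.one_le_rpow hN1 hκ.le
  have hTT : (N : ℝ) ^ (2 * κ) = T * T := by
    rw [two_mul, Real.rpow_add hNp]
  rw [hTT] at hsize
  have hform : |form u v| ≤ n * B * T := by
    unfold form
    calc |∑ i, (v i : ℝ) * u i| ≤ ∑ i, |(v i : ℝ) * u i| := Finset.abs_sum_le_sum_abs _ _
      _ ≤ ∑ _i : ι, T * B := by
          refine Finset.sum_le_sum fun i _ => ?_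
          rw [abs_mul]
          exact mul_le_mul (h1 i) (hu i) (abs_nonneg _) (by linarith)
      _ = n * B * T := by
          rw [Finset.sum_const, Finset.card_univ, nsmul_eq_mul, hn]
          ring
  have hTN : 20 * T / N ≤ 20 * (T * T) := by
    rw [div_le_iff₀ hNp]
    have h3 : 20 * T ≤ 20 * T * T := by nlinarith
    have h4 : 20 * (T * T) ≤ 20 * (T * T) * N := by
      have : 0 ≤ 20 * (T * T) := by positivity
      nlinarith
    linarith
  refine ⟨q, p, hq1, ?_, ?_⟩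
  · intro i
    rcases i with _ | i
    · change |((-p : ℤ) : ℝ)| ≤ K * X ^ (2 * κ * M)
      push_cast
      rw [abs_neg]
      have h3 : |(p : ℝ)| ≤ |(q : ℝ) * form u v| + |(q : ℝ) * form u v - p| := by
        have := abs_sub_abs_le_abs_sub (p : ℝ) ((q : ℝ) * form u v)
        rw [abs_sub_comm (p : ℝ)] at this
        linarith
      have h4 : |(q : ℝ) * form u v| ≤ 20 * T * (n * B * T) := by
        rw [abs_mul, abs_of_pos hq0]
        exact mul_le_mul hqN hform (abs_nonneg _) (by positivity)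
      have h5 : |(p : ℝ)| ≤ K * (T * T) := by
        rw [hK]
        have : 0 ≤ T * T := by positivity
        nlinarith
      exact h5.trans (mul_le_mul_of_nonneg_left hsize hK0.le)
    · change |(((q : ℤ) * v i : ℤ) : ℝ)| ≤ K * X ^ (2 * κ * M)
      push_cast
      rw [abs_mul, abs_of_pos hq0]
      have h4 : (q : ℝ) * |(v i : ℝ)| ≤ 20 * T * T :=
        mul_le_mul hqN (h1 i) (abs_nonneg _) (by positivity)
      have h5 : (q : ℝ) * |(v i : ℝ)| ≤ K * (T * T) := by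
        have : 0 ≤ T * T := by positivity
        nlinarith
      exact h5.trans (mul_le_mul_of_nonneg_left hsize hK0.le)
  · have hval : ∑ i, (lift p q v i : ℝ) * one_u u i = (q : ℝ) * form u v - p := by
      rw [Fintype.sum_option]
      change ((-p : ℤ) : ℝ) * 1 + ∑ i, (((q : ℤ) * v i : ℤ) : ℝ) * u i = _
      unfold form
      rw [Finset.mul_sum]
      have e : ∀ i, (((q : ℤ) * v i : ℤ) : ℝ) * u i = (q : ℝ) * ((v i : ℝ) * u i) := by
        intro i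
        push_cast
        ring
      simp only [e]
      push_cast
      ring
    rw [hval]
    have hsmall : 20 * T / N ≤ 20 * X ^ (κ - 1) := by
      have e1 : 20 * T / N = 20 * (N : ℝ) ^ (κ - 1) := by
        rw [Real.rpow_sub hNp, Real.rpow_one, hT]
        ring
      rw [e1]
      exact mul_le_mul_of_nonneg_left (Real.rpow_le_rpow_of_nonpos hXp hXN (by linarith)) (by norm_num)
    have e2 : (K * X ^ (2 * κ * M)) ^ κ₀ = K ^ κ₀ * X ^ (2 * κ * M * κ₀) := by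
      rw [mul_pow, ← Real.rpow_natCast (X ^ (2 * κ * M)) κ₀, ← Real.rpow_mul hXp.le]
    rw [e2]
    have e3 : X ^ (κ - 1) * X ^ (2 * κ * M * κ₀) ≤ X ^ (-(1 / 2) : ℝ) := by
      rw [← Real.rpow_add hXp]
      exact Real.rpow_le_rpow_of_exponent_le hX0 (by linarith)
    calc |(q : ℝ) * form u v - p| * (K ^ κ₀ * X ^ (2 * κ * M * κ₀))
        ≤ (20 * X ^ (κ - 1)) * (K ^ κ₀ * X ^ (2 * κ * M * κ₀)) :=
          mul_le_mul_of_nonneg_right (hp.trans hsmall) (by positivity)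
      _ = 20 * K ^ κ₀ * (X ^ (κ - 1) * X ^ (2 * κ * M * κ₀)) := by ring
      _ ≤ 20 * K ^ κ₀ * X ^ (-(1 / 2) : ℝ) := mul_le_mul_of_nonneg_left e3 (by positivity)
      _ ≤ 20 * K ^ κ₀ * b := mul_le_mul_of_nonneg_left hsm.le (by positivity)
      _ = 1 := by
          rw [hb]; field_simp

lemma finrank_bad (S : Set (ι → ℤ)) (T : Set (Option ι → ℤ))
    (h : ∀ v ∈ S, ∃ (q : ℕ) (p : ℤ), 1 ≤ q ∧ lift p q v ∈ T) :
    Module.finrank ℚ (Submodule.span ℚ (toQ '' S)) ≤ Module.finrank ℚ (Submodule.span ℚ (toQ '' T)) := by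
  let π : (Option ι → ℚ) →ₗ[ℚ] (ι → ℚ) := LinearMap.funLeft ℚ ℚ some
  have hle : Submodule.span ℚ (toQ '' S) ≤ (Submodule.span ℚ (toQ '' T)).map π := by
    rw [Submodule.span_le]
    rintro _ ⟨v, hv, rfl⟩
    obtain ⟨q, p, hq, hT⟩ := h v hv
    have hq0 : (q : ℚ) ≠ 0 := by
      have : (1 : ℚ) ≤ q := by exact_mod_cast hq
      linarith
    refine ⟨(q : ℚ)⁻¹ • toQ (lift p q v), Submodule.smul_mem _ _ (Submodule.subset_span ⟨_, hT, rfl⟩), ?_⟩
    funext i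
    change (q : ℚ)⁻¹ • (((q : ℤ) * v i : ℤ) : ℚ) = (v i : ℚ)
    rw [smul_eq_mul]
    push_cast
    field_simp
  exact (Submodule.finrank_mono hle).trans (Submodule.finrank_map_le _ _)

end

/-- **Distribution.** -/
theorem dist {f : ℕ} (r w : ℕ) (t : Fin f → ℝ)
    (ht : ∀ a b : ℕ, 2 * b + 3 * a ≤ w →
      (Real.pi ^ 2) ^ b * Pool.Agent.V11210.ZZ.zeta 3 ^ a ∈ Submodule.span ℚ (insert 1 (Set.range t)))
    (M : ℝ) (hM : 1 ≤ M) :
    ∃ κ : ℝ, 0 < κ ∧ ∃ X₁ : ℝ, ∀ z : Fin r → ℝ, ∀ X : ℝ, X₁ ≤ X →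
      Module.finrank ℚ (Submodule.span ℚ (toQ '' bad κ M (Sum.elim t z) X)) + 2 * w / 3 ≤ f + r := by
  obtain ⟨κ₀, X₀, h⟩ := near_fam r w t ht
  have hs : 0 ≤ ∑ i, |t i| := Finset.sum_nonneg fun i _ => abs_nonneg _
  obtain ⟨κ, hκ, X₁, h1⟩ := exists_near (ι := Fin f ⊕ Fin r) (1 + ∑ i, |t i|) (by linarith) κ₀ M hM X₀
  refine ⟨κ, hκ, X₁, fun z X hX => ?_⟩
  have hform : ∀ v : Fin f ⊕ Fin r → ℤ, form (Sum.elim t fun j => Int.fract (z j)) v =
      form (Sum.elim t z) v - ((∑ j, v (Sum.inr j) * ⌊z j⌋ : ℤ) : ℝ) := by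
    intro v
    unfold form
    rw [Fintype.sum_sum_type, Fintype.sum_sum_type]
    simp only [Sum.elim_inl, Sum.elim_inr]
    push_cast
    rw [add_sub_assoc, ← Finset.sum_sub_distrib]
    congr 1
    refine Finset.sum_congr rfl fun j _ => ?_
    rw [← Int.self_sub_floor]
    ring
  have hbad : bad κ M (Sum.elim t z) X = bad κ M (Sum.elim t fun j => Int.fract (z j)) X := by
    unfold bad
    ext v
    simp only [Set.mem_ofPred_eq]
    simp only [hform v, Pool.Agent.U831.ZP.discLe_sub_int]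
  rw [hbad]
  have hu : ∀ i, |(Sum.elim t fun j => Int.fract (z j)) i| ≤ 1 + ∑ i, |t i| := by
    rintro (i | j)
    · have := Finset.single_le_sum (f := fun i => |t i|) (fun j _ => abs_nonneg _) (Finset.mem_univ i)
      have h2 : |t i| ≤ ∑ i, |t i| := this
      simp only [Sum.elim_inl]
      linarith
    · simp only [Sum.elim_inr]
      rw [abs_of_nonneg (Int.fract_nonneg _)]
      have := (Int.fract_lt_one (z j)).le
      linarith
  obtain ⟨Y, hY, h2⟩ := h1 _ hu X hX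
  have h3 := h (one_u (Sum.elim t fun j => Int.fract (z j)))
    ⟨rfl, fun i => rfl, fun j => ⟨Int.fract_nonneg _, (Int.fract_lt_one _).le⟩⟩ Y hY
  have h4 := finrank_bad _ _ h2
  omega

end Pool.Agent.U831.AF
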