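import Pool.Agent.U831.AF.Dich

/-!
# The dichotomy at every scale
-/

set_option autoImplicit false

namespace Pool.Agent.U831.AF

open Filter Polynomial Pool.Agent.H447R2.MZ

/-- near relations between the `t j` of height at most `Y` split into their weight parts -/
def SplitsAt {f : ℕ} (t : Fin f → ℝ) (wt : Fin f → ℕ) (κ κ' : ℕ) (Y : ℝ) : Prop :=
  ∀ a : Fin f → ℤ, (∀ j, |(a j : ℝ)| ≤ Y) → |∑ j, (a j : ℝ) * t j| * Y ^ κ ≤ 1 →
    ∀ p, |∑ j with wt j = p, (a j : ℝ) * t j| * Y ^ κ' ≤ 1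

theorem dichotomy (w w' : ℕ) {f : ℕ} (t : Fin f → ℝ) (wt : Fin f → ℕ) (ht : ∀ j, t j ∈ Zs (wt j))
    (hwt : ∀ j, wt j ≤ w) (g : ℕ → ℕ) (u : ∀ n, Fin (g n) → ℝ)
    (hu : ∀ n ≤ w', Zs n ≤ Submodule.span ℚ (Set.range (u n))) (κ' : ℕ) (M : ℝ) :
    ∃ (κ : ℕ) (X₀ : ℝ), ∀ X : ℝ, X₀ ≤ X →
      (∀ Y, X ≤ Y → Y ≤ X ^ M → SplitsAt t wt κ κ' Y) ∨
      (∀ n, 2 ≤ n → n ≤ w' → ∀ Y, X ≤ Y → Y ≤ X ^ M →
        Module.finrank ℚ (Submodule.span ℚ (toQ '' nearSet (u n) κ Y)) +
          ((n - 3 * (n % 2)) / (2 * w) + 1) ≤ g n) := by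
  classical
  by_contra hcon
  push Not at hcon
  choose X hX hD hG using fun n : ℕ => hcon n (n + 2)
  choose Y hXY hYX hY using hD
  unfold SplitsAt at hY
  push Not at hY
  choose a ha hsm p hp using hY
  choose n' h2 hw' Y' hXY' hYX' hlt using hG
  -- the scale
  have hX2 : ∀ n, 2 ≤ X n := fun n => by
    have := hX n
    have h0 : (0 : ℝ) ≤ n := by positivity
    linarith
  have hX1 : ∀ n, 1 ≤ X n := fun n => by have := hX2 n; linarith
  have htend : Tendsto X ((hyperfilter ℕ : Ultrafilter ℕ) : Filter ℕ) atTop := by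
    have h1 : Tendsto X atTop atTop := by
      refine tendsto_atTop_mono (fun n => ?_) (tendsto_natCast_atTop_atTop (R := ℝ))
      have := hX n
      linarith
    exact h1.mono_left (by
      rw [← Nat.cofinite_eq_atTop]
      exact hyperfilter_le_cofinite)
  let S : Scale := ⟨hyperfilter ℕ, X, hX2, htend⟩
  have hlarge : ∀ m' : ℕ, ∀ᶠ n in (S.F : Filter ℕ), m' ≤ n := by
    intro m'
    have h1 : ∀ᶠ n in (atTop : Filter ℕ), m' ≤ n := eventually_ge_atTop m'
    rw [← Nat.cofinite_eq_atTop] at h1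
    exact hyperfilter_le_cofinite h1
  obtain ⟨Mn, hMn⟩ : ∃ Mn : ℕ, Mn = ⌈M⌉₊ := ⟨_, rfl⟩
  have hpow : ∀ (n : ℕ) (y : ℝ), y ≤ X n ^ M → y ≤ X n ^ Mn := by
    intro n y hy
    refine hy.trans ?_
    rw [← Real.rpow_natCast, hMn]
    exact Real.rpow_le_rpow_of_exponent_le (hX1 n) (Nat.le_ceil M)
  obtain ⟨K, hK, cl, hcl⟩ := S.exists_cl
  have haA : ∀ j, (fun n => ((a n j : ℤ) : ℝ)) ∈ S.A := by
    intro j
    refine ⟨Mn, Eventually.of_forall fun n => ?_⟩
    exact (ha n j).trans (hpow n _ (hYX n))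
  letI := FractionRing.liftAlgebra (Scale.D cl) K
  haveI := FractionRing.isScalarTower_liftAlgebra (Scale.D cl) K
  -- the weight parts
  obtain ⟨v, hvdef⟩ : ∃ v : ℕ → K, v = fun q => ∑ j with wt j = q, cl ((⟨_, haA j⟩ : S.A) * S.const (t j)) :=
    ⟨_, rfl⟩
  have hval : ∀ (s : Finset (Fin f)) (n : ℕ), (∑ j ∈ s, (⟨_, haA j⟩ : S.A) * S.const (t j)).1 n =
      ∑ j ∈ s, (a n j : ℝ) * t j := by
    intro s n
    have : ((∑ j ∈ s, (⟨_, haA j⟩ : S.A) * S.const (t j) : S.A) : ℕ → ℝ) =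
        ∑ j ∈ s, (fun n => (a n j : ℝ)) * (fun _ => t j) := by
      rw [AddSubmonoidClass.coe_finsetSum]
      rfl
    rw [this, Finset.sum_apply]
    rfl
  have hvmem : ∀ q ≤ w, v q ∈ Submodule.span (FractionRing (Scale.D cl))
      ((fun t => cl (S.const t)) '' (Zs q : Set ℝ)) := by
    intro q _
    rw [hvdef]
    refine Submodule.sum_mem _ fun j hj => ?_
    rw [Finset.mem_filter] at hj
    have e : cl ((⟨_, haA j⟩ : S.A) * S.const (t j)) =
        algebraMap (Scale.D cl) (FractionRing (Scale.D cl)) (clD cl (fun n => a n j) (haA j)) •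
          cl (S.const (t j)) := by
      rw [algebraMap_smul, map_mul]
      rfl
    rw [e]
    refine Submodule.smul_mem _ _ (Submodule.subset_span ⟨t j, ?_, rfl⟩)
    rw [← hj.2]
    exact ht j
  have h0 : ∑ q ∈ Finset.range (w + 1), v q = 0 := by
    rw [hvdef]
    rw [Finset.sum_fiberwise_of_maps_to (s := Finset.univ) (t := Finset.range (w + 1)) (g := wt)
      (fun j _ => Finset.mem_range.2 (by have := hwt j; omega)), ← map_sum, hcl]
    intro m'
    filter_upwards [hlarge m'] with n hn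
    rw [hval]
    refine le_trans ?_ (hsm n)
    apply mul_le_mul_of_nonneg_left _ (abs_nonneg _)
    calc S.T n ^ m' ≤ X n ^ n := pow_le_pow_right₀ (hX1 n) hn
      _ ≤ Y n ^ n := pow_le_pow_left₀ (by have := hX1 n; linarith) (hXY n) _
  obtain ⟨p₀, hp₀, hne⟩ : ∃ p₀ ≤ w, v p₀ ≠ 0 := by
    by_contra hall
    push Not at hall
    have h1 : ∀ q ∈ Finset.range (w + 1), ∀ᶠ n in (S.F : Filter ℕ),
        |∑ j with wt j = q, (a n j : ℝ) * t j| * X n ^ (Mn * κ' + 1) ≤ 1 := by
      intro q hq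
      have h3 := hall q (by have := Finset.mem_range.1 hq; omega)
      rw [hvdef] at h3
      change ∑ j with wt j = q, cl ((⟨_, haA j⟩ : S.A) * S.const (t j)) = 0 at h3
      rw [← map_sum, hcl] at h3
      filter_upwards [h3 (Mn * κ' + 1)] with n hn
      rw [hval] at hn
      exact hn
    rw [← Finset.eventually_all] at h1
    obtain ⟨n, hn⟩ := h1.exists
    by_cases hpw : p n ≤ w
    · have h3 := hn (p n) (Finset.mem_range.2 (by omega))
      have h4 := hp n
      have h5 : Y n ^ κ' ≤ X n ^ (Mn * κ') := by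
        rw [pow_mul]
        exact pow_le_pow_left₀ (by have := hX1 n; have := hXY n; linarith) (hpow n _ (hYX n)) _
      have h6 : |∑ j with wt j = p n, (a n j : ℝ) * t j| * Y n ^ κ' ≤
          |∑ j with wt j = p n, (a n j : ℝ) * t j| * X n ^ (Mn * κ') :=
        mul_le_mul_of_nonneg_left h5 (abs_nonneg _)
      rw [pow_succ, ← mul_assoc] at h3
      have h7 := hX2 n
      nlinarith
    · have h4 := hp n
      have h5 : (Finset.univ.filter fun j => wt j = p n) = ∅ := by
        rw [Finset.filter_eq_empty_iff]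
        intro j _ h
        have := hwt j
        omega
      rw [h5] at h4
      simp at h4
      linarith
  obtain ⟨q, hq, t', ht', htr⟩ := exists_transc cl hcl w v hvmem h0 p₀ hp₀ hne
  have hq1 : 1 ≤ q := by
    by_contra h
    have hq0 : q = 0 := by omega
    subst hq0
    obtain ⟨r, rfl⟩ := Zs_zero ht'
    apply htr
    have e1 : cl (S.const ((r : ℚ) : ℝ)) = algebraMap (FractionRing (Scale.D cl)) K (r : FractionRing (Scale.D cl)) := by
      have h1 : (cl.comp S.const) ((r : ℚ) : ℝ) = (r : K) := map_ratCast _ r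
      rw [map_ratCast (algebraMap (FractionRing (Scale.D cl)) K) r]
      exact h1
    rw [pow_zero, div_one, e1]
    exact isAlgebraic_algebraMap _
  -- one weight
  obtain ⟨N, hN, hNe⟩ : ∃ N, N ≤ w' ∧ ∀ᶠ n in (S.F : Filter ℕ), n' n = N := by
    have h1 : (⋃ N ∈ Set.Iic w', {n | n' n = N}) ∈ S.F := by
      have : (⋃ N ∈ Set.Iic w', {n | n' n = N}) = Set.univ := by
        ext n
        simp [hw' n]
      rw [this]
      exact Filter.univ_mem
    rw [Ultrafilter.finite_biUnion_mem_iff (Set.finite_Iic w')] at h1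
    obtain ⟨N, hN, h⟩ := h1
    exact ⟨N, hN, h⟩
  have hN2 : 2 ≤ N := by
    obtain ⟨n, hn⟩ := hNe.exists
    rw [← hn]
    exact h2 n
  set R : ℕ := (N - 3 * (N % 2)) / (2 * w) + 1 with hR
  obtain ⟨m, hm⟩ : ∃ m : ℕ, m = g N + 1 - R := ⟨_, rfl⟩
  have hex : ∀ n, ∃ vv : Fin m → Fin (g N) → ℤ, n' n = N →
      (∀ j, vv j ∈ nearSet (u N) n (Y' n)) ∧ LinearIndependent ℚ (fun j => toQ (vv j)) := by
    intro n
    by_cases h : n' n = N
    · have h1 := hlt n
      rw [h] at h1
      obtain ⟨vv, h3, h4⟩ := exists_indep (nearSet (u N) n (Y' n)) m (by omega)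
      exact ⟨vv, fun _ => ⟨h3, h4⟩⟩
    · exact ⟨0, fun h1 => absurd h1 h⟩
  choose vv hvv using hex
  have h5 := rank_add_le cl hcl (u N) m vv
    (fun j i => by
      refine ⟨Mn, ?_⟩
      filter_upwards [hNe] with n hn
      exact (((hvv n hn).1 j).1 i).trans (hpow n _ (hYX' n)))
    (by
      filter_upwards [hNe] with n hn
      exact (hvv n hn).2)
    (fun j m' => by
      filter_upwards [hNe, hlarge m'] with n hn hnm
      refine le_trans ?_ ((hvv n hn).1 j).2
      apply mul_le_mul_of_nonneg_left _ (abs_nonneg _)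
      calc S.T n ^ m' ≤ X n ^ n := pow_le_pow_right₀ (hX1 n) hnm
        _ ≤ Y' n ^ n := pow_le_pow_left₀ (by have := hX1 n; linarith) (hXY' n) _)
  rw [Fintype.card_fin] at h5
  have h6 := growth_cl cl q t' ht' htr N hN2 (Submodule.span (FractionRing (Scale.D cl))
      (Set.range fun i => cl (S.const (u N i)))) (fun r hr => by
    refine span_class cl (Set.range (u N)) _ ?_ r (hu N hN hr)
    rintro s ⟨i, rfl⟩
    exact Submodule.subset_span ⟨i, rfl⟩)
  haveI : FiniteDimensional (FractionRing (Scale.D cl)) (Submodule.span (FractionRing (Scale.D cl))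
      (Set.range fun i => cl (S.const (u N i)))) :=
    FiniteDimensional.span_of_finite _ (Set.finite_range _)
  rw [← Module.finrank_eq_rank] at h6
  have h7 : (N - 3 * (N % 2)) / (2 * q) + 1 ≤ Module.finrank (FractionRing (Scale.D cl))
      (Submodule.span (FractionRing (Scale.D cl)) (Set.range fun i => cl (S.const (u N i)))) := by
    exact_mod_cast h6
  have h8 : (N - 3 * (N % 2)) / (2 * w) ≤ (N - 3 * (N % 2)) / (2 * q) :=
    Nat.div_le_div_left (by omega) (by omega)
  omega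

end Pool.Agent.U831.AF
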