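import Pool.Agent.U831.AF.TDD

/-!
# One value: polynomials in a nonzero value of positive weight
-/

set_option autoImplicit false

namespace Pool.Agent.U831.AF

open Filter Pool.Agent.U831.JE Pool.Agent.H447R2.MZ

section

variable {f D : ℕ} (j : Fin f)

/-- the exponent vector of `t j ^ i` -/
def ej (i : Fin (D + 1)) : Fin f → Fin (D + 1) := fun l => if l = j then i else 0

lemma ej_self (i : Fin (D + 1)) : ej j i j = i := by
  unfold ej
  rw [if_pos rfl]

lemma ej_inj {i i' : Fin (D + 1)} (h : ej j i = ej j i') : i = i' := by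
  have := congrFun h j
  rwa [ej_self, ej_self] at this

lemma mon_ej (t : Fin f → ℝ) (i : Fin (D + 1)) : mon t (ej j i) = t j ^ (i : ℕ) := by
  unfold mon
  rw [Finset.prod_eq_single j]
  · rw [ej_self]
  · intro l _ hl
    unfold ej
    rw [if_neg hl]
    simp
  · intro h
    exact absurd (Finset.mem_univ j) h

lemma wmon_ej (wt : Fin f → ℕ) (i : Fin (D + 1)) : wmon wt (ej j i) = (i : ℕ) * wt j := by
  unfold wmon
  rw [Finset.sum_eq_single j]
  · rw [ej_self]
  · intro l _ hl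
    unfold ej
    rw [if_neg hl]
    simp
  · intro h
    exact absurd (Finset.mem_univ j) h

/-- the coefficient vector of a polynomial in `t j` -/
def vj (c : ℕ → ℤ) (α : Fin f → Fin (D + 1)) : ℤ := ∑ i : Fin (D + 1), if α = ej j i then c i else 0

lemma vj_le (c : ℕ → ℤ) (H : ℝ) (hH : 0 ≤ H) (hc : ∀ i, |(c i : ℝ)| ≤ H) (α : Fin f → Fin (D + 1)) :
    |((vj j c α : ℤ) : ℝ)| ≤ H := by
  unfold vj
  by_cases h : ∃ i, α = ej j i
  · obtain ⟨i, rfl⟩ := h
    rw [Finset.sum_eq_single i]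
    · rw [if_pos rfl]
      exact hc i
    · intro i' _ hi'
      rw [if_neg fun h => hi' (ej_inj j h).symm]
    · intro h
      exact absurd (Finset.mem_univ i) h
  · push Not at h
    rw [Finset.sum_eq_zero fun i _ => if_neg (h i)]
    simpa using hH

lemma sum_vj (c : ℕ → ℤ) (h : (Fin f → Fin (D + 1)) → ℝ) :
    ∑ α, (vj j c α : ℝ) * h α = ∑ i : Fin (D + 1), (c i : ℝ) * h (ej j i) := by
  unfold vj
  have e : ∀ α : Fin f → Fin (D + 1), ((∑ i : Fin (D + 1), if α = ej j i then c i else 0 : ℤ) : ℝ) * h α =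
      ∑ i : Fin (D + 1), if α = ej j i then (c i : ℝ) * h (ej j i) else 0 := by
    intro α
    push_cast
    rw [Finset.sum_mul]
    refine Finset.sum_congr rfl fun i _ => ?_
    split_ifs with h1
    · rw [h1]
    · rw [zero_mul]
  simp only [e]
  rw [Finset.sum_comm]
  refine Finset.sum_congr rfl fun i _ => ?_
  rw [Finset.sum_ite_eq']
  simp

end

open Polynomial in
theorem one_value {f D : ℕ} (t : Fin f → ℝ) (wt : Fin f → ℕ) (κ' : ℕ) (κ : ℝ) (hκ : 0 < κ) :
    ∃ X₀ : ℝ, 1 ≤ X₀ ∧ ∀ N : ℕ, X₀ ≤ N →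
      (∀ v : (Fin f → Fin (D + 1)) → ℤ, (∀ α, |(v α : ℝ)| ≤ (N : ℝ) ^ κ) →
          DiscLe (form (mon t) v) N ((N : ℝ) ^ (-κ)) ∨
          ∀ P, 1 ≤ P → |∑ α with wmon wt α = P, (v α : ℝ) * mon t α| * ((N : ℝ) ^ κ) ^ (κ' + 1) ≤ 1) →
      ∀ j, t j ≠ 0 → 1 ≤ wt j → ∀ F : ℤ[X], 1 ≤ F.natDegree → F.natDegree ≤ D →
        (∀ i, |(F.coeff i : ℝ)| ≤ (N : ℝ) ^ κ) → DiscLe (aeval (t j) F) N ((N : ℝ) ^ (-κ)) := by
  classical
  obtain ⟨B, hB⟩ : ∃ B : ℝ, B = ∑ j, ∑ i ∈ Finset.range (D + 1), (|t j| ^ i)⁻¹ := ⟨_, rfl⟩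
  obtain ⟨X₁, hX₁⟩ := eventually_atTop.1 ((tendsto_rpow_atTop hκ).eventually_gt_atTop B)
  refine ⟨max 1 X₁, le_max_left _ _, fun N hN hT j hj hwj F hF1 hFD hFc => ?_⟩
  have hN1 : (1 : ℝ) ≤ N := (le_max_left _ _).trans hN
  have hNB : B < (N : ℝ) ^ κ := hX₁ _ ((le_max_right _ _).trans hN)
  have hNκ : 1 ≤ (N : ℝ) ^ κ := Real.one_le_rpow hN1 hκ.le
  have hval : form (mon t) (vj (D := D) j F.coeff) = aeval (t j) F := by
    unfold form
    rw [sum_vj j F.coeff (fun α => mon t α), aeval_eq_sum_range' (n := D + 1) (by omega),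
      Finset.sum_range]
    refine Finset.sum_congr rfl fun i _ => ?_
    rw [mon_ej, zsmul_eq_mul]
  rcases hT (vj j F.coeff) (vj_le j _ _ (by linarith) hFc) with h | h
  · rw [hval] at h
    exact h
  · exfalso
    have h1 := h (F.natDegree * wt j) (by nlinarith)
    have e : ∑ α with wmon wt α = F.natDegree * wt j, (vj (D := D) j F.coeff α : ℝ) * mon t α =
        F.coeff F.natDegree * t j ^ F.natDegree := by
      rw [Finset.sum_filter]
      have e1 : ∀ α : Fin f → Fin (D + 1),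
          (if wmon wt α = F.natDegree * wt j then (vj (D := D) j F.coeff α : ℝ) * mon t α else 0) =
            (vj (D := D) j F.coeff α : ℝ) * (if wmon wt α = F.natDegree * wt j then mon t α else 0) := by
        intro α
        split_ifs
        · rfl
        · rw [mul_zero]
      simp only [e1]
      rw [sum_vj j F.coeff (fun α => if wmon wt α = F.natDegree * wt j then mon t α else 0)]
      rw [Finset.sum_eq_single (⟨F.natDegree, by omega⟩ : Fin (D + 1))]
      · rw [wmon_ej, if_pos rfl, mon_ej]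
      · intro i _ hi
        rw [wmon_ej, if_neg, mul_zero]
        intro h2
        apply hi
        apply Fin.ext
        exact Nat.eq_of_mul_eq_mul_right (by omega) h2
      · intro h
        exact absurd (Finset.mem_univ _) h
    rw [e] at h1
    have hF0 : F ≠ 0 := by
      rintro rfl
      simp at hF1
    have hc : (1 : ℝ) ≤ |((F.coeff F.natDegree : ℤ) : ℝ)| := by
      have : F.coeff F.natDegree ≠ 0 := by
        rw [coeff_natDegree]
        exact leadingCoeff_ne_zero.2 hF0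
      rw [← Int.cast_abs]
      exact_mod_cast Int.one_le_abs this
    have ht0 : 0 < |t j| ^ F.natDegree := pow_pos (abs_pos.2 hj) _
    have hinv : (|t j| ^ F.natDegree)⁻¹ ≤ B := by
      rw [hB]
      have h3 := Finset.single_le_sum (f := fun j => ∑ i ∈ Finset.range (D + 1), (|t j| ^ i)⁻¹)
        (fun l _ => Finset.sum_nonneg fun i _ => by positivity) (Finset.mem_univ j)
      have h4 := Finset.single_le_sum (f := fun i => (|t j| ^ i)⁻¹)
        (fun l _ => by positivity) (Finset.mem_range.2 (by omega : F.natDegree < D + 1))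
      exact le_trans h4 h3
    have h5 : 1 < |t j| ^ F.natDegree * (N : ℝ) ^ κ := by
      have h6 : (|t j| ^ F.natDegree)⁻¹ < (N : ℝ) ^ κ := lt_of_le_of_lt hinv hNB
      rw [inv_lt_iff_one_lt_mul₀ ht0, mul_comm] at h6
      exact h6
    have h7 : (N : ℝ) ^ κ ≤ ((N : ℝ) ^ κ) ^ (κ' + 1) := le_self_pow₀ hNκ (by omega)
    have h8 : |((F.coeff F.natDegree : ℤ) : ℝ) * t j ^ F.natDegree| =
        |((F.coeff F.natDegree : ℤ) : ℝ)| * |t j| ^ F.natDegree := by
      rw [abs_mul, abs_pow]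
    rw [h8] at h1
    have h9 : |t j| ^ F.natDegree * (N : ℝ) ^ κ ≤ 1 := by
      calc |t j| ^ F.natDegree * (N : ℝ) ^ κ ≤ |t j| ^ F.natDegree * ((N : ℝ) ^ κ) ^ (κ' + 1) :=
            mul_le_mul_of_nonneg_left h7 ht0.le
        _ = 1 * |t j| ^ F.natDegree * ((N : ℝ) ^ κ) ^ (κ' + 1) := by rw [one_mul]
        _ ≤ |((F.coeff F.natDegree : ℤ) : ℝ)| * |t j| ^ F.natDegree * ((N : ℝ) ^ κ) ^ (κ' + 1) :=
            mul_le_mul_of_nonneg_right (mul_le_mul_of_nonneg_right hc ht0.le) (by positivity)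
        _ ≤ 1 := h1
    linarith

end Pool.Agent.U831.AF
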