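import Pool.Agent.U831.AF.Dist
import Pool.Agent.TH456.TM.E

/-!
# One curve at every scale (distribution)
-/

set_option autoImplicit false

namespace Pool.Agent.U831.AF

open Filter Polynomial Pool.Agent.U831.JE

lemma hasMeas_of_measT (x : ℝ) (hx : Pool.Agent.TH456.TM.MeasT (x : ℂ)) (d : ℕ) :
    ∃ c : ℝ, 0 < c ∧ ∃ κ : ℕ, ∀ (H : ℝ) (a : Fin (d + 1) → ℤ),
      1 ≤ H → a ≠ 0 → (∀ i, |(a i : ℝ)| ≤ H) → c ≤ H ^ κ * |∑ i, (a i : ℝ) * x ^ (i : ℕ)| := by
  obtain ⟨κ, c, hκ, hc, h⟩ := hx d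
  refine ⟨c, hc, ⌈κ⌉₊, fun H a hH ha hb => ?_⟩
  obtain ⟨P, hP⟩ : ∃ P : ℤ[X], P = ∑ i : Fin (d + 1), C (a i) * X ^ (i : ℕ) := ⟨_, rfl⟩
  have hcoef : ∀ j, P.coeff j = if h : j < d + 1 then a ⟨j, h⟩ else 0 := by
    intro j
    rw [hP, finsetSum_coeff]
    simp only [coeff_C_mul, coeff_X_pow]
    split_ifs with h
    · rw [Finset.sum_eq_single ⟨j, h⟩]
      · simp
      · intro b _ hb
        have : j ≠ (b : ℕ) := fun e => hb (Fin.ext e.symm)
        simp [this]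
      · simp
    · apply Finset.sum_eq_zero
      intro b _
      have : j ≠ (b : ℕ) := fun e => h (e ▸ b.2)
      simp [this]
  have hP0 : P ≠ 0 := by
    intro h0
    apply ha
    funext i
    have h1 := hcoef i
    rw [h0, dif_pos i.2] at h1
    simpa using h1.symm
  have hdeg : P.natDegree ≤ d := by
    rw [natDegree_le_iff_coeff_eq_zero]
    intro j hj
    rw [hcoef, dif_neg (by omega)]
  have hbd : ∀ j, |(P.coeff j : ℝ)| ≤ H := by
    intro j
    rw [hcoef]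
    split_ifs with hj
    · exact hb _
    · simp
      linarith
  have h1 := h P hP0 hdeg H hH hbd
  have h2 : ‖aeval (x : ℂ) P‖ = |∑ i, (a i : ℝ) * x ^ (i : ℕ)| := by
    have e1 : aeval (x : ℂ) P = ((∑ i, (a i : ℝ) * x ^ (i : ℕ) : ℝ) : ℂ) := by
      rw [hP, map_sum]
      push_cast
      refine Finset.sum_congr rfl fun i _ => ?_
      rw [map_mul, aeval_C, map_pow, aeval_X]
      simp only [algebraMap_int_eq, eq_intCast]
    rw [e1, Complex.norm_real, Real.norm_eq_abs]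
  rw [h2] at h1
  exact h1.trans (mul_le_mul_of_nonneg_right (Pool.Agent.V11210.ZZ.rpow_le_npow hH (Nat.le_ceil κ)) (abs_nonneg _))

/-- bad vectors give near relations at one explicit scale, with the rational number -/
lemma near_at2 (E : ℝ) (hE : 0 ≤ E) (κ₀ : ℕ) (M : ℝ) (hM : 1 ≤ M) (κ : ℝ)
    (hκdef : κ = 1 / (6 * (M * κ₀ + 1))) :
    ∃ X₁ : ℝ, 1 ≤ X₁ ∧ ∀ (ι : Type) [Fintype ι] (u : ι → ℝ), ∑ i, |u i| ≤ E → ∀ X : ℝ, X₁ ≤ X →
      ∀ (N : ℕ), X ≤ N → (N : ℝ) ≤ X ^ M → ∀ v : ι → ℤ, (∀ i, |(v i : ℝ)| ≤ (N : ℝ) ^ κ) →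
        ¬ DiscLe (form u v) N ((N : ℝ) ^ (-κ)) → ∃ (q : ℕ) (p : ℤ), 1 ≤ q ∧ (q : ℝ) ≤ 20 * (N : ℝ) ^ κ ∧
        lift p q v ∈ nearSet (one_u u) κ₀ (X ^ (3 * κ * M)) ∧
        |(q : ℝ) * form u v - p| ≤ 20 * (N : ℝ) ^ (κ - 1) := by
  have hk0 : (0 : ℝ) ≤ κ₀ := by positivity
  have hMk : 0 ≤ M * κ₀ := by positivity
  have hκ : 0 < κ := by rw [hκdef]; positivity
  have hκ4 : κ ≤ 1 / 6 := by
    rw [hκdef]
    apply one_div_le_one_div_of_le (by norm_num)
    linarith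
  have hexp : κ + 3 * κ * M * κ₀ ≤ 1 / 2 := by
    have h1 : κ * (6 * (M * κ₀ + 1)) = 1 := by
      rw [hκdef]; field_simp
    nlinarith
  obtain ⟨L, hL⟩ : ∃ L : ℝ, L = 20 * (E + 3) := ⟨_, rfl⟩
  have hL60 : 60 ≤ L := by rw [hL]; linarith
  have hlim : ∀ᶠ X : ℝ in atTop, X ^ (-(1 / 2) : ℝ) < 1 / 20 := by
    have := tendsto_rpow_neg_atTop (show (0 : ℝ) < 1 / 2 by norm_num)
    exact this.eventually_lt_const (by norm_num)
  have hlim2 : ∀ᶠ X : ℝ in atTop, L ≤ X ^ (κ * M) :=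
    (tendsto_rpow_atTop (show (0 : ℝ) < κ * M by positivity)).eventually_ge_atTop L
  obtain ⟨X₁, hX₁⟩ := eventually_atTop.1 (hlim.and hlim2)
  refine ⟨max X₁ (42 ^ 4), le_trans (by norm_num) (le_max_right _ _), ?_⟩
  intro ι _ u hu X hX N hXN hNX v h1 hbad
  have hX1 : X₁ ≤ X := (le_max_left _ _).trans hX
  have hX4 : (42 : ℝ) ^ 4 ≤ X := (le_max_right _ _).trans hX
  have hX0 : 1 ≤ X := le_trans (by norm_num) hX4
  have hXp : 0 < X := by linarith
  obtain ⟨hsm, hbig⟩ := hX₁ X hX1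
  have hN1 : 1 ≤ (N : ℝ) := hX0.trans hXN
  have hN1' : 1 ≤ N := by exact_mod_cast hN1
  have hNp : 0 < (N : ℝ) := by linarith
  have h42 : 42 * Real.sqrt N ≤ (N : ℝ) ^ (1 - κ) := by
    have e1 : (42 : ℝ) ≤ (N : ℝ) ^ ((1 : ℝ) / 4) := by
      have e2 : (42 : ℝ) = ((42 : ℝ) ^ 4) ^ ((1 : ℝ) / 4) := by
        rw [← Real.rpow_natCast (42 : ℝ) 4, ← Real.rpow_mul (by norm_num)]
        norm_num
      rw [e2]
      exact Real.rpow_le_rpow (by norm_num) (hX4.trans hXN) (by norm_num)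
    calc 42 * Real.sqrt N ≤ (N : ℝ) ^ ((1 : ℝ) / 4) * (N : ℝ) ^ ((1 : ℝ) / 2) := by
          rw [Real.sqrt_eq_rpow]
          exact mul_le_mul_of_nonneg_right e1 (by positivity)
      _ = (N : ℝ) ^ ((3 : ℝ) / 4) := by
          rw [← Real.rpow_add hNp]; norm_num
      _ ≤ (N : ℝ) ^ (1 - κ) := Real.rpow_le_rpow_of_exponent_le hN1 (by linarith)
  obtain ⟨q, p, hq1, hqN, hp⟩ := Pool.Agent.U831.HY.near (form u v) N κ hN1' h42 hbad
  have hq0 : (0 : ℝ) < q := by exact_mod_cast hq1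
  have hsize : (N : ℝ) ^ (2 * κ) ≤ X ^ (2 * κ * M) := by
    calc (N : ℝ) ^ (2 * κ) ≤ (X ^ M) ^ (2 * κ) := Real.rpow_le_rpow hNp.le hNX (by positivity)
      _ = X ^ (2 * κ * M) := by
          rw [← Real.rpow_mul hXp.le]; ring_nf
  set T := (N : ℝ) ^ κ with hT
  have hT1 : 1 ≤ T := Real.one_le_rpow hN1 hκ.le
  have hTT : (N : ℝ) ^ (2 * κ) = T * T := by
    rw [two_mul, Real.rpow_add hNp]
  rw [hTT] at hsize
  have hY : L * (T * T) ≤ X ^ (3 * κ * M) := by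
    have e : X ^ (3 * κ * M) = X ^ (κ * M) * X ^ (2 * κ * M) := by
      rw [← Real.rpow_add hXp]; ring_nf
    rw [e]
    exact mul_le_mul hbig hsize (by positivity) (by positivity)
  have hform : |form u v| ≤ E * T := by
    unfold form
    calc |∑ i, (v i : ℝ) * u i| ≤ ∑ i, |(v i : ℝ) * u i| := Finset.abs_sum_le_sum_abs _ _
      _ ≤ ∑ i, T * |u i| := by
          refine Finset.sum_le_sum fun i _ => ?_
          rw [abs_mul]
          exact mul_le_mul_of_nonneg_right (h1 i) (abs_nonneg _)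
      _ = T * ∑ i, |u i| := by rw [Finset.mul_sum]
      _ ≤ T * E := mul_le_mul_of_nonneg_left hu (by linarith)
      _ = E * T := mul_comm _ _
  have hTN : 20 * T / N ≤ 20 * (T * T) := by
    rw [div_le_iff₀ hNp]
    have h3 : 20 * T ≤ 20 * T * T := by nlinarith
    have h4 : 20 * (T * T) ≤ 20 * (T * T) * N := by
      have : 0 ≤ 20 * (T * T) := by positivity
      nlinarith
    linarith
  have e1 : 20 * T / N = 20 * (N : ℝ) ^ (κ - 1) := by
    rw [Real.rpow_sub hNp, Real.rpow_one, hT]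
    ring
  refine ⟨q, p, hq1, hqN, ⟨?_, ?_⟩, e1 ▸ hp⟩
  · intro i
    rcases i with _ | i
    · change |((-p : ℤ) : ℝ)| ≤ X ^ (3 * κ * M)
      push_cast
      rw [abs_neg]
      have h3 : |(p : ℝ)| ≤ |(q : ℝ) * form u v| + |(q : ℝ) * form u v - p| := by
        have := abs_sub_abs_le_abs_sub (p : ℝ) ((q : ℝ) * form u v)
        rw [abs_sub_comm (p : ℝ)] at this
        linarith
      have h4 : |(q : ℝ) * form u v| ≤ 20 * T * (E * T) := by
        rw [abs_mul, abs_of_pos hq0]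
        exact mul_le_mul hqN hform (abs_nonneg _) (by positivity)
      have h5 : |(p : ℝ)| ≤ L * (T * T) := by
        rw [hL]
        have : 0 ≤ T * T := by positivity
        nlinarith
      exact h5.trans hY
    · change |(((q : ℤ) * v i : ℤ) : ℝ)| ≤ X ^ (3 * κ * M)
      push_cast
      rw [abs_mul, abs_of_pos hq0]
      have h4 : (q : ℝ) * |(v i : ℝ)| ≤ 20 * T * T :=
        mul_le_mul hqN (h1 i) (abs_nonneg _) (by positivity)
      have h5 : (q : ℝ) * |(v i : ℝ)| ≤ L * (T * T) := by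
        have : 0 ≤ T * T := by positivity
        nlinarith
      exact h5.trans hY
  · have hval : ∑ i, (lift p q v i : ℝ) * one_u u i = (q : ℝ) * form u v - p := by
      rw [Fintype.sum_option]
      change ((-p : ℤ) : ℝ) * 1 + ∑ i, (((q : ℤ) * v i : ℤ) : ℝ) * u i = _
      unfold form
      rw [Finset.mul_sum]
      have e : ∀ i, (((q : ℤ) * v i : ℤ) : ℝ) * u i = (q : ℝ) * ((v i : ℝ) * u i) := by
        intro i
        push_cast
        ring
      simp only [e]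
      push_cast
      ring
    rw [hval]
    have hsmall : 20 * T / N ≤ 20 * X ^ (κ - 1) := by
      rw [e1]
      exact mul_le_mul_of_nonneg_left (Real.rpow_le_rpow_of_nonpos hXp hXN (by linarith)) (by norm_num)
    have e2 : (X ^ (3 * κ * M)) ^ κ₀ = X ^ (3 * κ * M * κ₀) := by
      rw [← Real.rpow_natCast (X ^ (3 * κ * M)) κ₀, ← Real.rpow_mul hXp.le]
    rw [e2]
    have e3 : X ^ (κ - 1) * X ^ (3 * κ * M * κ₀) ≤ X ^ (-(1 / 2) : ℝ) := by
      rw [← Real.rpow_add hXp]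
      exact Real.rpow_le_rpow_of_exponent_le hX0 (by linarith)
    calc |(q : ℝ) * form u v - p| * X ^ (3 * κ * M * κ₀)
        ≤ (20 * X ^ (κ - 1)) * X ^ (3 * κ * M * κ₀) :=
          mul_le_mul_of_nonneg_right (hp.trans hsmall) (by positivity)
      _ = 20 * (X ^ (κ - 1) * X ^ (3 * κ * M * κ₀)) := by ring
      _ ≤ 20 * X ^ (-(1 / 2) : ℝ) := mul_le_mul_of_nonneg_left e3 (by positivity)
      _ ≤ 1 := by linarith

end Pool.Agent.U831.AF
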