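import Pool.Agent.U831.AF.Curve
import Pool.Agent.U831.AF.CurveNear

/-!
# One curve at every scale (distribution)
-/

set_option autoImplicit false

namespace Pool.Agent.U831.AF

open Filter Polynomial Pool.Agent.U831.JE

/-- the polynomial with coefficients `v` -/
noncomputable def polyV {D : ℕ} (v : Fin (D + 1) × Fin (D + 1) → ℤ) : ℚ[X][X] :=
  ∑ ij : Fin (D + 1) × Fin (D + 1), C (C (v ij : ℚ) * X ^ (ij.1 : ℕ)) * X ^ (ij.2 : ℕ)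

lemma polyQ_lift {D : ℕ} (p : ℤ) (q : ℕ) (v : Fin (D + 1) × Fin (D + 1) → ℤ) :
    polyQ (lift p q v) = C (C (q : ℚ)) * polyV v - C (C (p : ℚ)) := by
  have h1 : polyQ (lift p q v) = C (C (-(p : ℚ))) +
      ∑ ij : Fin (D + 1) × Fin (D + 1), C (C ((q : ℚ) * (v ij : ℚ)) * X ^ (ij.1 : ℕ)) * X ^ (ij.2 : ℕ) := by
    have e0 : ((lift p q v none : ℤ) : ℚ) = -(p : ℚ) := by
      change ((-p : ℤ) : ℚ) = _
      push_cast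
      rfl
    have e1 : ∀ ij, ((lift p q v (some ij) : ℤ) : ℚ) = (q : ℚ) * (v ij : ℚ) := by
      intro ij
      change (((q : ℤ) * v ij : ℤ) : ℚ) = _
      push_cast
      rfl
    unfold polyQ polyA
    simp only [e0, e1]
  have h2 : ∀ ij : Fin (D + 1) × Fin (D + 1),
      (C (C ((q : ℚ) * (v ij : ℚ)) * X ^ (ij.1 : ℕ)) * X ^ (ij.2 : ℕ) : ℚ[X][X]) =
        C (C (q : ℚ)) * (C (C (v ij : ℚ) * X ^ (ij.1 : ℕ)) * X ^ (ij.2 : ℕ)) := by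
    intro ij
    have e : (C ((q : ℚ) * (v ij : ℚ)) : ℚ[X]) = C (q : ℚ) * C (v ij : ℚ) := C_mul
    rw [e, mul_assoc (C (q : ℚ)) _ _, C_mul (a := C (q : ℚ)), mul_assoc]
  rw [h1, C_neg, C_neg]
  simp only [h2]
  rw [← Finset.mul_sum, neg_add_eq_sub]
  rfl

/-- **One curve at every scale.** -/
theorem curve (x : ℝ) (hx : Pool.Agent.TH456.TM.MeasT (x : ℂ)) (D : ℕ) (B M : ℝ) (hM : 1 ≤ M) :
    ∃ κ : ℝ, 0 < κ ∧ κ ≤ 1 / 6 ∧ ∃ X₀ : ℝ, 1 ≤ X₀ ∧ ∀ t : ℝ, |t| ≤ B → ∀ X : ℝ, X₀ ≤ X →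
      ∃ F : ℚ[X][X], (F = 0 ∨ (Irreducible F ∧ 1 ≤ F.natDegree)) ∧
        ∀ N : ℕ, X ≤ N → (N : ℝ) ≤ X ^ M → ∀ v : Fin (D + 1) × Fin (D + 1) → ℤ,
          (∀ i, |(v i : ℝ)| ≤ (N : ℝ) ^ κ) →
            DiscLe (form (mon2 D x t) v) N ((N : ℝ) ^ (-κ)) ∨
            ∃ (q : ℕ) (p : ℤ), 1 ≤ q ∧ (q : ℝ) ≤ 20 * (N : ℝ) ^ κ ∧
              |(q : ℝ) * form (mon2 D x t) v - p| ≤ 20 * (N : ℝ) ^ (κ - 1) ∧
              F ∣ C (C (q : ℚ)) * polyV v - C (C (p : ℚ)) := by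
  obtain ⟨κ₀, Y₀, h⟩ := near_curve x (hasMeas_of_measT x hx) D B
  obtain ⟨κ, hκ⟩ : ∃ κ : ℝ, κ = 1 / (6 * (M * κ₀ + 1)) := ⟨_, rfl⟩
  have hk0 : (0 : ℝ) ≤ κ₀ := by positivity
  have hMk : 0 ≤ M * κ₀ := by positivity
  have hκ0 : 0 < κ := by rw [hκ]; positivity
  have hκ6 : κ ≤ 1 / 6 := by
    rw [hκ]
    apply one_div_le_one_div_of_le (by norm_num)
    linarith
  obtain ⟨E, hE⟩ : ∃ E : ℝ, E = ∑ ij : Fin (D + 1) × Fin (D + 1), |x| ^ (ij.1 : ℕ) * |B| ^ (ij.2 : ℕ) := ⟨_, rfl⟩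
  have hE0 : 0 ≤ E := by rw [hE]; exact Finset.sum_nonneg fun _ _ => by positivity
  obtain ⟨X₁, hX₁1, hX₁⟩ := near_at2 E hE0 κ₀ M hM κ hκ
  have hlim : ∀ᶠ X : ℝ in atTop, Y₀ ≤ X ^ (3 * κ * M) :=
    (tendsto_rpow_atTop (show (0 : ℝ) < 3 * κ * M by positivity)).eventually_ge_atTop Y₀
  obtain ⟨X₂, hX₂⟩ := eventually_atTop.1 hlim
  refine ⟨κ, hκ0, hκ6, max X₁ X₂, hX₁1.trans (le_max_left _ _), fun t ht X hX => ?_⟩
  have hXX1 : X₁ ≤ X := (le_max_left _ _).trans hX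
  have hXX2 : X₂ ≤ X := (le_max_right _ _).trans hX
  obtain ⟨F, hF, hdv⟩ := h t ht (X ^ (3 * κ * M)) (hX₂ X hXX2)
  refine ⟨F, hF, fun N hXN hNX v hv => ?_⟩
  by_cases hd : DiscLe (form (mon2 D x t) v) N ((N : ℝ) ^ (-κ))
  · exact Or.inl hd
  · right
    have hu : ∑ i, |mon2 D x t i| ≤ E := by
      rw [hE]
      refine Finset.sum_le_sum fun ij _ => ?_
      unfold mon2
      rw [abs_mul, abs_pow, abs_pow]
      apply mul_le_mul_of_nonneg_left _ (by positivity)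
      exact pow_le_pow_left₀ (abs_nonneg _) (ht.trans (le_abs_self B)) _
    obtain ⟨q, p, hq, hqN, hn, hp⟩ := hX₁ _ (mon2 D x t) hu X hXX1 N hXN hNX v hv hd
    refine ⟨q, p, hq, hqN, hp, ?_⟩
    rw [← polyQ_lift]
    exact hdv _ hn

end Pool.Agent.U831.AF
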