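import Mathlib

set_option autoImplicit false

/-!
# A transcendental element `x` and an element `y` with `1, x, y` linearly independent

The algebra of the starting file `Pool.Agent.W245.HF.TwoThirds`, over an arbitrary field `k` in place
of the rational numbers.
-/

open Polynomial

namespace Pool.Agent.U831.AF

variable {k K : Type} [Field k] [Field K] [Algebra k K]

/-- rank from an injective map on pairs of polynomials of bounded degree -/
theorem rank_of_inj (S : Submodule k K) (f : (k[X] × k[X]) →ₗ[k] K)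
    (hf : ∀ C D : k[X], f (C, D) = 0 → C = 0 ∧ D = 0) (p q : ℕ)
    (h1 : ∀ b < p, f (X ^ b, 0) ∈ S) (h2 : ∀ b < q, f (0, X ^ b) ∈ S) :
    ((p + q : ℕ) : Cardinal) ≤ Module.rank k S := by
  classical
  have hinj : LinearMap.ker f = ⊥ := by
    rw [eq_bot_iff]
    rintro ⟨C, D⟩ h
    obtain ⟨h3, h4⟩ := hf C D h
    rw [h3, h4]
    exact Submodule.zero_mem _
  have hbas : LinearIndependent k (fun i : ℕ => (X : k[X]) ^ i) := by
    have := (Polynomial.basisMonomials k).linearIndependent
    convert this using 1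
    funext i
    rw [Polynomial.coe_basisMonomials]
    exact X_pow_eq_monomial i
  have h3 := linearIndependent_inl_union_inr' (hbas.comp (fun b : Fin p => (b : ℕ)) Fin.val_injective)
    (hbas.comp (fun b : Fin q => (b : ℕ)) Fin.val_injective)
  have h4 := h3.map' f hinj
  let v : (Fin p ⊕ Fin q) → S := Sum.elim (fun b => ⟨f (X ^ (b : ℕ), 0), h1 b b.2⟩)
    (fun b => ⟨f (0, X ^ (b : ℕ)), h2 b b.2⟩)
  have hv : LinearIndependent k v := by
    refine LinearIndependent.of_comp S.subtype ?_
    have e : (S.subtype ∘ v) = (f ∘ Sum.elim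
      ((LinearMap.inl k k[X] k[X]) ∘ ((fun i : ℕ => (X : k[X]) ^ i) ∘ fun b : Fin p => (b : ℕ)))
      ((LinearMap.inr k k[X] k[X]) ∘ ((fun i : ℕ => (X : k[X]) ^ i) ∘ fun b : Fin q => (b : ℕ)))) := by
      funext i
      cases i <;> rfl
    rw [e]
    exact h4
  have h5 := hv.cardinal_le_rank
  simpa using h5

/-- the map `(C, D) ↦ C(a) + b D(c)` -/
noncomputable def pm (a b c : K) : (k[X] × k[X]) →ₗ[k] K :=
  (aeval a).toLinearMap ∘ₗ LinearMap.fst k _ _ +
    (LinearMap.mulLeft k b) ∘ₗ (aeval c).toLinearMap ∘ₗ LinearMap.snd k _ _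

theorem pm_apply (a b c : K) (C D : k[X]) : pm a b c (C, D) = aeval a C + b * aeval c D := by
  simp [pm]

variable (x y : K) (hx : Transcendental k x)

include hx

theorem poly_zero (P : k[X]) (h : aeval x P = 0) : P = 0 := (transcendental_iff.1 hx) P h

theorem case_one (h : ∀ A B : k[X], aeval x A * y = aeval x B → A = 0) (C D : k[X])
    (hCD : pm x y x (C, D) = 0) : C = 0 ∧ D = 0 := by
  rw [pm_apply] at hCD
  have hD : D = 0 := h D (-C) (by rw [map_neg]; linear_combination hCD)
  subst hD
  rw [map_zero, mul_zero, add_zero] at hCD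
  exact ⟨poly_zero x hx C hCD, rfl⟩

theorem case_two (A B : k[X]) (hc : IsCoprime A B) (hA : 0 < A.natDegree)
    (h : aeval x A * y = aeval x B) (C D : k[X]) (hCD : pm x y y (C, D) = 0) : C = 0 ∧ D = 0 := by
  rw [pm_apply] at hCD
  by_cases hD : D = 0
  · subst hD
    rw [map_zero, mul_zero, add_zero] at hCD
    exact ⟨poly_zero x hx C hCD, rfl⟩
  exfalso
  set d := D.natDegree with hd
  have hA0 : A ≠ 0 := by
    rintro rfl
    simp at hA
  -- multiply by `A ^ (d+1)`
  have h1 : aeval x (A ^ (d + 1) * C + ∑ i ∈ Finset.range (d + 1), Polynomial.C (D.coeff i) * B ^ (i + 1) * A ^ (d - i)) = 0 := by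
    rw [map_add, map_mul, map_pow, map_sum]
    have h2 : aeval y D = ∑ i ∈ Finset.range (d + 1), (algebraMap k K (D.coeff i)) * y ^ i := by
      rw [aeval_eq_sum_range]
      refine Finset.sum_congr rfl fun i _ => ?_
      rw [Algebra.smul_def]
    have h3 : (aeval x A) ^ (d + 1) * (y * aeval y D) = ∑ i ∈ Finset.range (d + 1),
        aeval x (Polynomial.C (D.coeff i) * B ^ (i + 1) * A ^ (d - i)) := by
      rw [h2, Finset.mul_sum, Finset.mul_sum]
      refine Finset.sum_congr rfl fun i hi => ?_
      have hi' : i ≤ d := by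
        have := Finset.mem_range.1 hi
        omega
      rw [map_mul, map_mul, map_pow, map_pow, aeval_C, ← h]
      have e : d + 1 = (i + 1) + (d - i) := by omega
      rw [e, pow_add, mul_pow]
      ring
    rw [← h3]
    calc _ = (aeval x A) ^ (d + 1) * (aeval x C + y * aeval y D) := by ring
      _ = 0 := by rw [hCD, mul_zero]
  have h4 := poly_zero x hx _ h1
  rw [Finset.sum_range_succ] at h4
  have h5 : A ∣ Polynomial.C (D.coeff d) * B ^ (d + 1) := by
    have h6 : Polynomial.C (D.coeff d) * B ^ (d + 1) =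
        -(A ^ (d + 1) * C + ∑ i ∈ Finset.range d, Polynomial.C (D.coeff i) * B ^ (i + 1) * A ^ (d - i)) := by
      have : Polynomial.C (D.coeff d) * B ^ (d + 1) * A ^ (d - d) = Polynomial.C (D.coeff d) * B ^ (d + 1) := by
        rw [Nat.sub_self, pow_zero, mul_one]
      rw [← this]
      linear_combination h4
    rw [h6]
    refine (dvd_neg).2 (dvd_add ?_ (Finset.dvd_sum fun i hi => ?_))
    · exact (dvd_pow_self A (by omega)).mul_right C
    · have hi' := Finset.mem_range.1 hi
      exact (dvd_pow_self A (by omega)).mul_left _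
  have h7 : D.coeff d ≠ 0 := by
    rw [hd, coeff_natDegree, Ne, leadingCoeff_eq_zero]
    exact hD
  have hu : IsUnit (Polynomial.C (D.coeff d)) := isUnit_C.2 (isUnit_iff_ne_zero.2 h7)
  have h8 : A ∣ B ^ (d + 1) := (hu.dvd_mul_left).1 h5
  have h9 : IsUnit A := (hc.pow_right (n := d + 1)).isUnit_of_dvd' dvd_rfl h8
  rw [natDegree_eq_zero_of_isUnit h9] at hA
  exact lt_irrefl _ hA

theorem case_three (P : k[X]) (hP : 2 ≤ P.natDegree) (h : y = aeval x P) (C D : k[X])
    (hCD : pm y x y (C, D) = 0) : C = 0 ∧ D = 0 := by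
  rw [pm_apply, h] at hCD
  have h1 : aeval x (C.comp P + X * D.comp P) = 0 := by
    rw [map_add, map_mul, aeval_comp, aeval_comp, aeval_X]
    exact hCD
  have h2 := poly_zero x hx _ h1
  have hPd : P.natDegree ≠ 0 := by omega
  by_cases hD : D = 0
  · subst hD
    rw [zero_comp, mul_zero, add_zero] at h2
    refine ⟨?_, rfl⟩
    rcases (comp_eq_zero_iff).1 h2 with h3 | h3
    · exact h3
    · exfalso
      apply hPd
      rw [h3.2]
      exact natDegree_C _
  · exfalso
    have h3 : D.comp P ≠ 0 := by
      intro h4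
      rcases (comp_eq_zero_iff).1 h4 with h5 | h5
      · exact hD h5
      · apply hPd
        rw [h5.2]
        exact natDegree_C _
    have h4 : C.comp P = -(X * D.comp P) := by linear_combination h2
    have h5 := congrArg natDegree h4
    rw [natDegree_neg, natDegree_comp, natDegree_mul X_ne_zero h3, natDegree_X, natDegree_comp] at h5
    have h6 : P.natDegree ∣ 1 := by
      have h7 : P.natDegree ∣ 1 + D.natDegree * P.natDegree := by
        rw [← h5]
        exact dvd_mul_left _ _
      exact (Nat.dvd_add_left (dvd_mul_left _ _)).1 h7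
    have := Nat.le_of_dvd one_pos h6
    omega

omit hx in
open Classical in
theorem rational_case (hne : ¬ ∀ A B : k[X], aeval x A * y = aeval x B → A = 0) (hx : Transcendental k x) :
    ∃ A B : k[X], IsCoprime A B ∧ A ≠ 0 ∧ aeval x A * y = aeval x B := by
  push Not at hne
  obtain ⟨A, B, h, hA⟩ := hne
  have hg : EuclideanDomain.gcd A B ≠ 0 := by
    rw [Ne, EuclideanDomain.gcd_eq_zero_iff]
    exact fun h => hA h.1
  obtain ⟨A', hA'⟩ := EuclideanDomain.gcd_dvd_left A B
  obtain ⟨B', hB'⟩ := EuclideanDomain.gcd_dvd_right A B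
  refine ⟨A', B', ?_, ?_, ?_⟩
  · have hb := EuclideanDomain.gcd_eq_gcd_ab A B
    refine ⟨EuclideanDomain.gcdA A B, EuclideanDomain.gcdB A B, ?_⟩
    apply mul_left_cancel₀ hg
    rw [mul_one]
    calc EuclideanDomain.gcd A B * (EuclideanDomain.gcdA A B * A' + EuclideanDomain.gcdB A B * B')
        = (EuclideanDomain.gcd A B * A') * EuclideanDomain.gcdA A B +
          (EuclideanDomain.gcd A B * B') * EuclideanDomain.gcdB A B := by ring
      _ = A * EuclideanDomain.gcdA A B + B * EuclideanDomain.gcdB A B := by rw [← hA', ← hB']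
      _ = EuclideanDomain.gcd A B := hb.symm
  · rintro rfl
    rw [mul_zero] at hA'
    exact hA hA'
  · have h1 : aeval x (EuclideanDomain.gcd A B) ≠ 0 := fun h2 => hg (poly_zero x hx _ h2)
    apply mul_left_cancel₀ h1
    rw [← mul_assoc, ← map_mul, ← map_mul, ← hA', ← hB']
    exact h

omit hx in
/-- the rank of a space which contains all monomials `x ^ b * y ^ a` with `2 b + 3 a ≤ w` -/
theorem two_thirds (x y : K) (hx : Transcendental k x)
    (hxy : ∀ a b : k, y ≠ algebraMap k K a + algebraMap k K b * x) (w : ℕ) (S : Submodule k K)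
    (hS : ∀ a b : ℕ, 2 * b + 3 * a ≤ w → x ^ b * y ^ a ∈ S) :
    ((2 * w / 3 + 1 : ℕ) : Cardinal) ≤ Module.rank k S := by
  by_cases hrel : ∀ A B : k[X], aeval x A * y = aeval x B → A = 0
  · -- the first case
    refine le_trans ?_ (rank_of_inj S (pm x y x)
      (case_one _ _ hx hrel) (w / 2 + 1) ((w - 1) / 2) ?_ ?_)
    · exact_mod_cast (by omega : 2 * w / 3 + 1 ≤ w / 2 + 1 + (w - 1) / 2)
    · intro b hb
      have h1 := hS 0 b (by omega)
      rw [pm_apply]
      simpa using h1
    · intro b hb
      have h1 := hS 1 b (by omega)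
      rw [pm_apply]
      simpa [mul_comm] using h1
  · obtain ⟨A, B, hc, hA, h⟩ := rational_case x y hrel hx
    by_cases hdeg : 0 < A.natDegree
    · -- the second case
      refine le_trans ?_ (rank_of_inj S (pm x y y)
        (case_two _ _ hx A B hc hdeg h) (w / 2 + 1) (w / 3) ?_ ?_)
      · exact_mod_cast (by omega : 2 * w / 3 + 1 ≤ w / 2 + 1 + w / 3)
      · intro b hb
        have h1 := hS 0 b (by omega)
        rw [pm_apply]
        simpa using h1
      · intro b hb
        have h1 := hS (b + 1) 0 (by omega)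
        rw [pm_apply]
        simpa [pow_succ, mul_comm] using h1
    · -- the third case
      obtain ⟨c, hcA⟩ : ∃ c : k, A = C c := ⟨A.coeff 0, eq_C_of_natDegree_eq_zero (by omega)⟩
      have hc0 : c ≠ 0 := by
        rintro rfl
        rw [hcA, C_0] at hA
        exact hA rfl
      have hc1 : algebraMap k K c ≠ 0 := by
        rw [Ne, FaithfulSMul.algebraMap_eq_zero_iff]
        exact hc0
      have hy : y = aeval x (C c⁻¹ * B) := by
        rw [map_mul, ← h, hcA, aeval_C, aeval_C, map_inv₀]
        field_simp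
      have hP : 2 ≤ (C c⁻¹ * B).natDegree := by
        by_contra hlt
        rw [not_le] at hlt
        have h2 := eq_X_add_C_of_natDegree_le_one (p := C c⁻¹ * B) (by omega)
        rw [h2, map_add, map_mul, aeval_C, aeval_C, aeval_X] at hy
        refine hxy ((C c⁻¹ * B).coeff 0) ((C c⁻¹ * B).coeff 1) ?_
        rw [add_comm]
        exact hy
      refine le_trans ?_ (rank_of_inj S (pm y x y)
        (case_three _ _ hx _ hP hy) (w / 3 + 1) ((w + 1) / 3) ?_ ?_)
      · exact_mod_cast (by omega : 2 * w / 3 + 1 ≤ w / 3 + 1 + (w + 1) / 3)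
      · intro b hb
        have h1 := hS b 0 (by omega)
        rw [pm_apply]
        simpa using h1
      · intro b hb
        have h1 := hS b 1 (by omega)
        rw [pm_apply]
        simpa using h1

end Pool.Agent.U831.AF
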