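import Pool.Agent.U831.AF.Rank
import Pool.Agent.H447R2.MZ.Dich

/-!
# At every scale: directness of the weight grading, or many independent values in every weight
-/

set_option autoImplicit false

namespace Pool.Agent.U831.AF

open Filter Polynomial Pool.Agent.H447R2.MZ

section algebra

variable {k K : Type} [Field k] [Field K] [Algebra k K]

theorem indep_alg (s : K) (hs : Transcendental k s) (p : ℕ) (c : ℕ → K)
    (hc : ∀ j ≤ p, IsAlgebraic k (c j))
    (h : ∑ j ∈ Finset.range (p + 1), c j * s ^ j = 0) : ∀ j ≤ p, c j = 0 := by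
  classical
  have ht : Transcendental (algebraicClosure k K) s := hs.algebraicClosure
  rw [transcendental_iff] at ht
  let d : ℕ → algebraicClosure k K := fun j =>
    if hj : j ≤ p then ⟨c j, (mem_algebraicClosure_iff).2 (hc j hj)⟩ else 0
  let P : (algebraicClosure k K)[X] := ∑ j ∈ Finset.range (p + 1), Polynomial.monomial j (d j)
  have hP : Polynomial.aeval s P = 0 := by
    simp only [P, map_sum, Polynomial.aeval_monomial]
    rw [← h]
    apply Finset.sum_congr rfl
    intro j hj
    have hj' : j ≤ p := by simpa [Nat.lt_succ_iff] using hj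
    simp only [d, hj', dif_pos]
    rfl
  have h0 := ht P hP
  intro j hj
  have h1 : P.coeff j = d j := by
    simp only [P, Polynomial.finsetSum_coeff, Polynomial.coeff_monomial]
    rw [Finset.sum_ite_eq']
    simp [hj]
  rw [h0, Polynomial.coeff_zero] at h1
  have h2 : ((d j : algebraicClosure k K) : K) = 0 := by rw [← h1]; rfl
  simpa [d, hj] using h2

theorem rank_pow (V : Submodule k K) (c x : K) (hc : c ≠ 0) (hx : Transcendental k x) (M : ℕ)
    (hm : ∀ i < M, c * x ^ i ∈ V) : (M : Cardinal) ≤ Module.rank k V := by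
  have hinj := transcendental_iff_injective.1 hx
  have h1 := (Polynomial.basisMonomials k).linearIndependent.map' (Polynomial.aeval x).toLinearMap
    (LinearMap.ker_eq_bot.2 hinj)
  have e : (fun i : ℕ => x ^ i) =
      ⇑(Polynomial.aeval x).toLinearMap ∘ ⇑(Polynomial.basisMonomials k) := by
    funext i
    simp [Polynomial.aeval_monomial]
  rw [← e] at h1
  have h2 := (h1.comp (fun i : Fin M => (i : ℕ)) Fin.val_injective).map' (LinearMap.mulLeft k c)
    (LinearMap.ker_eq_bot.2 (mul_right_injective₀ hc))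
  let v : Fin M → V := fun i => ⟨c * x ^ (i : ℕ), hm i i.2⟩
  have hv : LinearIndependent k v := LinearIndependent.of_comp V.subtype h2
  have h3 := hv.cardinal_le_rank
  simpa using h3

end algebra

/-- the monomials of the growth argument -/
theorem growth_mem (k : ℕ) (z : ℝ) (hz : z ∈ Zs k) (n : ℕ) (hn : 2 ≤ n) :
    ∃ c : ℝ, c ≠ 0 ∧ ∀ i < (n - 3 * (n % 2)) / (2 * k) + 1, c * ((z / Real.pi ^ k) ^ 2) ^ i ∈ Zs n := by
  have hpi : Real.pi ≠ 0 := Real.pi_ne_zero
  have hz2 : z ^ 2 ∈ Zs (2 * k) := by
    have := pow_mem k z hz 2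
    rwa [mul_comm k 2] at this
  rcases Nat.even_or_odd' n with ⟨m, rfl | rfl⟩
  · have hmod : 2 * m % 2 = 0 := by omega
    rw [hmod]
    simp only [mul_zero, Nat.sub_zero]
    refine ⟨Real.pi ^ (2 * m), pow_ne_zero _ hpi, ?_⟩
    intro i hi
    have hi2 : 2 * k * i ≤ 2 * m := by
      have h1 : i ≤ 2 * m / (2 * k) := by omega
      calc 2 * k * i ≤ 2 * k * (2 * m / (2 * k)) := Nat.mul_le_mul_left _ h1
        _ ≤ 2 * m := Nat.mul_div_le _ _
    have hki : k * i ≤ m := by nlinarith
    have h1 := mul_mem _ _ _ _ (pow_mem (2 * k) _ hz2 i) (pi_pow_mem (m - k * i))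
    have e1 : 2 * k * i + 2 * (m - k * i) = 2 * m := by
      rw [Nat.mul_assoc, ← Nat.mul_add]
      congr 1
      omega
    rw [e1] at h1
    have e2 : Real.pi ^ (2 * m) = Real.pi ^ (2 * (k * i)) * Real.pi ^ (2 * (m - k * i)) := by
      rw [← pow_add]; congr 1; rw [← e1]; ring
    have e3 : Real.pi ^ (2 * m) * ((z / Real.pi ^ k) ^ 2) ^ i =
        (z ^ 2) ^ i * Real.pi ^ (2 * (m - k * i)) := by
      rw [e2, div_pow, div_pow]
      have : ((Real.pi ^ k) ^ 2) ^ i = Real.pi ^ (2 * (k * i)) := by
        rw [← pow_mul, ← pow_mul]; congr 1; ring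
      rw [this]
      field_simp
    rw [e3]
    exact h1
  · have hmod : (2 * m + 1) % 2 = 1 := by omega
    rw [hmod]
    simp only [mul_one]
    have hm1 : 1 ≤ m := by omega
    have e0 : 2 * m + 1 - 3 = 2 * (m - 1) := by omega
    rw [e0]
    refine ⟨z3 * Real.pi ^ (2 * (m - 1)), mul_ne_zero z3_pos.ne' (pow_ne_zero _ hpi), ?_⟩
    intro i hi
    have hi2 : 2 * k * i ≤ 2 * (m - 1) := by
      have h1 : i ≤ 2 * (m - 1) / (2 * k) := by omega
      calc 2 * k * i ≤ 2 * k * (2 * (m - 1) / (2 * k)) := Nat.mul_le_mul_left _ h1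
        _ ≤ _ := Nat.mul_div_le _ _
    have hki : k * i ≤ m - 1 := by nlinarith
    have h1 := mul_mem _ _ _ _ z3_mem
      (mul_mem _ _ _ _ (pow_mem (2 * k) _ hz2 i) (pi_pow_mem (m - 1 - k * i)))
    have e1 : 3 + (2 * k * i + 2 * (m - 1 - k * i)) = 2 * m + 1 := by
      rw [Nat.mul_assoc, ← Nat.mul_add]
      omega
    rw [e1] at h1
    have e2 : Real.pi ^ (2 * (m - 1)) =
        Real.pi ^ (2 * (k * i)) * Real.pi ^ (2 * (m - 1 - k * i)) := by
      rw [← pow_add]; congr 1; omega
    have e3 : z3 * Real.pi ^ (2 * (m - 1)) * ((z / Real.pi ^ k) ^ 2) ^ i =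
        z3 * ((z ^ 2) ^ i * Real.pi ^ (2 * (m - 1 - k * i))) := by
      rw [e2, div_pow, div_pow]
      have : ((Real.pi ^ k) ^ 2) ^ i = Real.pi ^ (2 * (k * i)) := by
        rw [← pow_mul, ← pow_mul]; congr 1; ring
      rw [this]
      field_simp
    rw [e3]
    exact h1

section

variable {S : Scale} {K : Type} [Field K] (cl : S.A →+* K)
  (hcl : ∀ f : S.A, cl f = 0 ↔ ∀ m : ℕ, ∀ᶠ n in (S.F : Filter ℕ), |f.1 n| * S.T n ^ m ≤ 1)

include hcl

lemma transc_pi :
    letI := FractionRing.liftAlgebra (Scale.D cl) K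
    Transcendental (FractionRing (Scale.D cl)) (cl (S.const Real.pi)) := by
  letI := FractionRing.liftAlgebra (Scale.D cl) K
  intro h
  have h1 := transc_pi_sq cl hcl
  apply h1
  have h3 : cl (S.const (Real.pi ^ 2)) = cl (S.const Real.pi) ^ 2 := by
    rw [map_pow, map_pow]
  rw [h3]
  exact h.pow 2

/-- if a combination of multiple zeta values is not homogeneous, some value is transcendental over
the powers of `π` -/
lemma exists_transc (w : ℕ) (v : ℕ → K)
    (hv : letI := FractionRing.liftAlgebra (Scale.D cl) K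
      ∀ p ≤ w, v p ∈ Submodule.span (FractionRing (Scale.D cl)) ((fun t => cl (S.const t)) '' (Zs p : Set ℝ)))
    (h0 : ∑ p ∈ Finset.range (w + 1), v p = 0) (p₀ : ℕ) (hp₀ : p₀ ≤ w) (hne : v p₀ ≠ 0) :
    letI := FractionRing.liftAlgebra (Scale.D cl) K
    ∃ p ≤ w, ∃ t ∈ Zs p, Transcendental (FractionRing (Scale.D cl))
      (cl (S.const t) / cl (S.const Real.pi) ^ p) := by
  letI := FractionRing.liftAlgebra (Scale.D cl) K
  by_contra hcon
  push Not at hcon
  have hs : cl (S.const Real.pi) ≠ 0 := by
    intro h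
    have := (map_ne_zero (cl.comp S.const)).2 Real.pi_ne_zero
    exact this h
  have halg : ∀ p ≤ w, IsAlgebraic (FractionRing (Scale.D cl)) (v p / cl (S.const Real.pi) ^ p) := by
    intro p hp
    have key : ∀ y ∈ Submodule.span (FractionRing (Scale.D cl)) ((fun t => cl (S.const t)) '' (Zs p : Set ℝ)),
        IsAlgebraic (FractionRing (Scale.D cl)) (y / cl (S.const Real.pi) ^ p) := by
      intro y hy
      induction hy using Submodule.span_induction with
      | mem x hx =>
        obtain ⟨t, ht, rfl⟩ := hx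
        have h2 := hcon p hp t ht
        rw [Transcendental, not_not] at h2
        exact h2
      | zero => rw [zero_div]; exact isAlgebraic_zero
      | add x y _ _ hx hy => rw [add_div]; exact hx.add hy
      | smul q x _ hx =>
        rw [smul_div_assoc]
        exact hx.smul q
    exact key _ (hv p hp)
  have h1 := indep_alg (cl (S.const Real.pi)) (transc_pi cl hcl) w
    (fun p => v p / cl (S.const Real.pi) ^ p) halg (by
      rw [← h0]
      refine Finset.sum_congr rfl fun p _ => ?_
      rw [div_mul_cancel₀]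
      exact pow_ne_zero _ hs) p₀ hp₀
  rw [div_eq_zero_iff] at h1
  rcases h1 with h1 | h1
  · exact hne h1
  · exact pow_ne_zero _ hs h1

omit hcl in
lemma growth_cl (p : ℕ) (t : ℝ) (ht : t ∈ Zs p)
    (htr : letI := FractionRing.liftAlgebra (Scale.D cl) K
      Transcendental (FractionRing (Scale.D cl)) (cl (S.const t) / cl (S.const Real.pi) ^ p))
    (n : ℕ) (hn : 2 ≤ n) :
    letI := FractionRing.liftAlgebra (Scale.D cl) K
    ∀ V : Submodule (FractionRing (Scale.D cl)) K, (∀ r ∈ Zs n, cl (S.const r) ∈ V) →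
      (((n - 3 * (n % 2)) / (2 * p) + 1 : ℕ) : Cardinal) ≤ Module.rank (FractionRing (Scale.D cl)) V := by
  letI := FractionRing.liftAlgebra (Scale.D cl) K
  intro V hV
  obtain ⟨c, hc, h⟩ := growth_mem p t ht n hn
  have hx : Transcendental (FractionRing (Scale.D cl))
      ((cl (S.const t) / cl (S.const Real.pi) ^ p) ^ 2) := htr.pow (by norm_num)
  refine rank_pow V (cl (S.const c)) _ ?_ hx _ ?_
  · intro h1
    exact (map_ne_zero (cl.comp S.const)).2 hc h1
  · intro i hi
    have h1 := hV _ (h i hi)
    have e : cl (S.const (c * ((t / Real.pi ^ p) ^ 2) ^ i)) =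
        cl (S.const c) * ((cl (S.const t) / cl (S.const Real.pi) ^ p) ^ 2) ^ i := by
      have e1 : ∀ r : ℝ, cl (S.const r) = (cl.comp S.const) r := fun r => rfl
      simp only [e1]
      rw [map_mul, map_pow, map_pow, map_div₀, map_pow]
    rw [e] at h1
    exact h1

/-- independent near relations bound the rank -/
theorem rank_add_le {ι : Type} [Fintype ι] (u : ι → ℝ) (m : ℕ) (v : ℕ → Fin m → ι → ℤ)
    (hvA : ∀ j i, (fun n => ((v n j i : ℤ) : ℝ)) ∈ S.A)
    (hvi : ∀ᶠ n in (S.F : Filter ℕ), LinearIndependent ℚ (fun j => toQ (v n j)))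
    (hval : ∀ j, ∀ m' : ℕ, ∀ᶠ n in (S.F : Filter ℕ), |∑ i, (v n j i : ℝ) * u i| * S.T n ^ m' ≤ 1) :
    letI := FractionRing.liftAlgebra (Scale.D cl) K
    Module.finrank (FractionRing (Scale.D cl)) (Submodule.span (FractionRing (Scale.D cl))
      (Set.range fun i => cl (S.const (u i)))) + m ≤ Fintype.card ι := by
  letI := FractionRing.liftAlgebra (Scale.D cl) K
  haveI := FractionRing.isScalarTower_liftAlgebra (Scale.D cl) K
  set k := FractionRing (Scale.D cl) with hk
  set U : ι → K := fun i => cl (S.const (u i)) with hU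
  set V : Fin m → ι → Scale.D cl := fun j i => clD cl (fun n => v n j i) (hvA j i) with hV
  have hVD : LinearIndependent (Scale.D cl) (fun j => (fun i => algebraMap (Scale.D cl) k (V j i))) := by
    rw [Fintype.linearIndependent_iff]
    intro g hg
    choose s hs hsg using fun j => Scale.D_rep cl (g j)
    have h1 : ∀ i, ∀ᶠ n in (S.F : Filter ℕ), ∑ j, s j n * v n j i = 0 := by
      intro i
      have e1 : ∑ j, g j * V j i = 0 := by
        have e2 := congrFun hg i
        rw [Finset.sum_apply] at e2
        have e3 : algebraMap (Scale.D cl) k (∑ j, g j * V j i) = 0 := by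
          rw [map_sum]
          have e4 : ∀ j, algebraMap (Scale.D cl) k (g j * V j i) =
              (g j • (fun i => algebraMap (Scale.D cl) k (V j i)) : ι → k) i := by
            intro j
            rw [Pi.smul_apply, Algebra.smul_def, map_mul]
          simp only [e4]
          exact e2
        exact (FaithfulSMul.algebraMap_eq_zero_iff (Scale.D cl) k).1 e3
      have hsA : (fun n => ((∑ j, s j n * v n j i : ℤ) : ℝ)) ∈ S.A := by
        have : (fun n => ((∑ j, s j n * v n j i : ℤ) : ℝ)) =
            ∑ j, (fun n => (s j n : ℝ)) * (fun n => (v n j i : ℝ)) := by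
          funext n
          rw [Finset.sum_apply]
          push_cast
          rfl
        rw [this]
        exact S.A.sum_mem fun j _ => S.A.mul_mem (hs j) (hvA j i)
      rw [← Scale.int_zero cl hcl _ hsA]
      have e5 : (⟨_, hsA⟩ : S.A) = ∑ j, (⟨_, hs j⟩ : S.A) * ⟨_, hvA j i⟩ := by
        apply Subtype.ext
        rw [AddSubmonoidClass.coe_finsetSum]
        funext n
        rw [Finset.sum_apply]
        push_cast
        rfl
      rw [e5, map_sum]
      have e6 := congrArg Subtype.val e1
      rw [AddSubmonoidClass.coe_finsetSum] at e6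
      refine Eq.trans ?_ e6
      refine Finset.sum_congr rfl fun j _ => ?_
      rw [map_mul, hsg]
      rfl
    have h2 : ∀ᶠ n in (S.F : Filter ℕ), ∀ i, ∑ j, s j n * v n j i = 0 := eventually_all.2 h1
    intro j
    have h3 : ∀ᶠ n in (S.F : Filter ℕ), s j n = 0 := by
      filter_upwards [h2, hvi] with n hn hn2
      exact int_indep (v n) hn2 (fun j => s j n) hn j
    rw [← Scale.int_zero cl hcl _ (hs j), hsg] at h3
    exact Subtype.ext h3
  have hVk : LinearIndependent k (fun j => (fun i => algebraMap (Scale.D cl) k (V j i))) :=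
    (LinearIndependent.iff_fractionRing (Scale.D cl) k).1 hVD
  let φ : (ι → k) →ₗ[k] K := Fintype.linearCombination k U
  have hker : ∀ j, (fun i => algebraMap (Scale.D cl) k (V j i)) ∈ LinearMap.ker φ := by
    intro j
    rw [LinearMap.mem_ker]
    change Fintype.linearCombination k U _ = 0
    rw [Fintype.linearCombination_apply]
    have e1 : ∀ i, algebraMap (Scale.D cl) k (V j i) • U i =
        cl ((⟨_, hvA j i⟩ : S.A) * S.const (u i)) := by
      intro i
      rw [algebraMap_smul, map_mul]
      rfl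
    simp only [e1]
    rw [← map_sum, hcl]
    intro m'
    filter_upwards [hval j m'] with n hn
    have e2 : (∑ i, (⟨_, hvA j i⟩ : S.A) * S.const (u i)).1 n = ∑ i, (v n j i : ℝ) * u i := by
      have : ((∑ i, (⟨_, hvA j i⟩ : S.A) * S.const (u i) : S.A) : ℕ → ℝ) =
          ∑ i, (fun n => (v n j i : ℝ)) * (fun _ => u i) := by
        rw [AddSubmonoidClass.coe_finsetSum]
        rfl
      rw [this, Finset.sum_apply]
      rfl
    rw [e2]
    exact hn
  have hkerm : m ≤ Module.finrank k (LinearMap.ker φ) := by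
    have h1 : LinearIndependent k (fun j => (⟨_, hker j⟩ : LinearMap.ker φ)) :=
      LinearIndependent.of_comp (LinearMap.ker φ).subtype hVk
    simpa using h1.fintype_card_le_finrank
  have hrn := LinearMap.finrank_range_add_finrank_ker φ
  rw [Module.finrank_pi] at hrn
  have hrange : LinearMap.range φ = Submodule.span k (Set.range U) := by
    exact Fintype.range_linearCombination k U
  rw [hrange] at hrn
  change Module.finrank k (Submodule.span k (Set.range U)) + m ≤ _
  omega

end

end Pool.Agent.U831.AF
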