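import Pool.Agent.U831.AF.CurveAlg
import Pool.Agent.U831.AF.Dich
import Pool.Agent.U831.AF.Dist

/-!
# One curve at every scale (near relations)
-/

set_option autoImplicit false

namespace Pool.Agent.U831.AF

open Filter Polynomial

section

variable {S : Scale}

/-- integer sequences as real sequences -/
noncomputable def cZ : (ℕ → ℤ) →+* (ℕ → ℝ) := (Int.castRingHom ℝ).compLeft ℕ

variable (S) in
/-- the integer sequences of polynomial growth -/
noncomputable def Zq : Subring (ℕ → ℤ) := S.A.comap cZ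

variable (S) in
/-- integer sequences as elements of `S.A` -/
noncomputable def toA : Zq S →+* S.A := (cZ.comp (Zq S).subtype).codRestrict S.A (fun s => s.2)

variable (S) in
/-- evaluation -/
noncomputable def ev (n : ℕ) : Zq S →+* ℤ := (Pi.evalRingHom (fun _ : ℕ => ℤ) n).comp (Zq S).subtype

variable {K : Type} [Field K] (cl : S.A →+* K)

/-- the class of an integer sequence -/
noncomputable def piD : Zq S →+* Scale.D cl :=
  (cl.comp (toA S)).codRestrict (Scale.D cl) (fun s => ⟨toA S s, ⟨s.1, fun _ => rfl⟩, rfl⟩)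

lemma piD_surj : Function.Surjective (piD cl) := by
  intro d
  obtain ⟨s, h, hs⟩ := Scale.D_rep cl d
  exact ⟨⟨s, h⟩, Subtype.ext hs⟩

variable (hcl : ∀ f : S.A, cl f = 0 ↔ ∀ m : ℕ, ∀ᶠ n in (S.F : Filter ℕ), |f.1 n| * S.T n ^ m ≤ 1)

include hcl

lemma piD_zero (s : Zq S) : piD cl s = 0 ↔ ∀ᶠ n in (S.F : Filter ℕ), s.1 n = 0 := by
  rw [← Scale.int_zero cl hcl s.1 s.2]
  constructor
  · intro h
    exact congrArg Subtype.val h
  · intro h
    exact Subtype.ext h

lemma piD_ne (s : Zq S) (h : piD cl s ≠ 0) : ∀ᶠ n in (S.F : Filter ℕ), s.1 n ≠ 0 := by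
  have h1 : ¬ ∀ᶠ n in (S.F : Filter ℕ), s.1 n = 0 := fun h2 => h ((piD_zero cl hcl s).2 h2)
  exact (Ultrafilter.eventually_not (f := S.F)).2 h1

lemma map_zero_of (P : (Zq S)[X][X]) (h : P.map (mapRingHom (piD cl)) = 0) :
    ∀ᶠ n in (S.F : Filter ℕ), P.map (mapRingHom (ev S n)) = 0 := by
  have h1 : ∀ j ∈ P.support, ∀ᶠ n in (S.F : Filter ℕ), ∀ i ∈ (P.coeff j).support,
      ((P.coeff j).coeff i).1 n = 0 := by
    intro j _
    rw [Finset.eventually_all]
    intro i _
    rw [← piD_zero cl hcl]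
    have h2 := congrArg (fun Q => (Q.coeff j).coeff i) h
    simpa using h2
  rw [← Finset.eventually_all] at h1
  filter_upwards [h1] with n hn
  ext j i
  rw [coeff_map, coe_mapRingHom, coeff_map, coeff_zero, coeff_zero]
  by_cases hj : j ∈ P.support
  · by_cases hi : i ∈ (P.coeff j).support
    · exact hn j hj i hi
    · rw [notMem_support_iff] at hi
      rw [hi, map_zero]
  · rw [notMem_support_iff] at hj
    rw [hj, coeff_zero, map_zero]

lemma transc_gen (x : ℝ) (hx : ∀ d : ℕ, ∃ c : ℝ, 0 < c ∧ ∃ κ : ℕ, ∀ (H : ℝ) (a : Fin (d + 1) → ℤ),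
    1 ≤ H → a ≠ 0 → (∀ i, |(a i : ℝ)| ≤ H) → c ≤ H ^ κ * |∑ i, (a i : ℝ) * x ^ (i : ℕ)|) :
    Transcendental (Scale.D cl) (cl (S.const x)) := by
  rintro ⟨p, hp, hp0⟩
  obtain ⟨c, hc, κ, h⟩ := hx p.natDegree
  have hli := Scale.linearIndependent_D cl hcl (fun i : Fin (p.natDegree + 1) => x ^ (i : ℕ)) c hc κ h
  rw [Fintype.linearIndependent_iff] at hli
  have h2 := hli (fun i => p.coeff i) (by
    rw [aeval_eq_sum_range, Finset.sum_range] at hp0
    rw [← hp0]
    refine Finset.sum_congr rfl fun i _ => ?_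
    rw [map_pow, map_pow])
  apply hp
  ext j
  by_cases hj : j < p.natDegree + 1
  · rw [h2 ⟨j, hj⟩, coeff_zero]
  · rw [coeff_eq_zero_of_natDegree_lt (by omega), coeff_zero]

end

/-- the monomials `x ^ i t ^ j` -/
noncomputable def mon2 (D : ℕ) (x t : ℝ) (ij : Fin (D + 1) × Fin (D + 1)) : ℝ := x ^ (ij.1 : ℕ) * t ^ (ij.2 : ℕ)

/-- the polynomial over `ℚ` -/
noncomputable def polyQ {D : ℕ} (b : Option (Fin (D + 1) × Fin (D + 1)) → ℤ) : ℚ[X][X] :=
  polyA (fun i => (b i : ℚ))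

/-- **One curve (near relations).** -/
theorem near_curve (x : ℝ) (hx : ∀ d : ℕ, ∃ c : ℝ, 0 < c ∧ ∃ κ : ℕ, ∀ (H : ℝ) (a : Fin (d + 1) → ℤ),
    1 ≤ H → a ≠ 0 → (∀ i, |(a i : ℝ)| ≤ H) → c ≤ H ^ κ * |∑ i, (a i : ℝ) * x ^ (i : ℕ)|)
    (D : ℕ) (B : ℝ) :
    ∃ (κ₀ : ℕ) (Y₀ : ℝ), ∀ t : ℝ, |t| ≤ B → ∀ Y : ℝ, Y₀ ≤ Y →
      ∃ F : ℚ[X][X], (F = 0 ∨ (Irreducible F ∧ 1 ≤ F.natDegree)) ∧
        ∀ b ∈ nearSet (one_u (mon2 D x t)) κ₀ Y, F ∣ polyQ b := by
  classical
  by_contra hcon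
  push Not at hcon
  choose t ht Y hY hF using fun n : ℕ => hcon n (n + 2)
  have hY2 : ∀ n, 2 ≤ Y n := fun n => by
    have := hY n
    have h0 : (0 : ℝ) ≤ n := by positivity
    linarith
  have hY1 : ∀ n, 1 ≤ Y n := fun n => by have := hY2 n; linarith
  have htend : Tendsto Y ((hyperfilter ℕ : Ultrafilter ℕ) : Filter ℕ) atTop := by
    have h1 : Tendsto Y atTop atTop := by
      refine tendsto_atTop_mono (fun n => ?_) (tendsto_natCast_atTop_atTop (R := ℝ))
      have := hY n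
      linarith
    exact h1.mono_left (by
      rw [← Nat.cofinite_eq_atTop]
      exact hyperfilter_le_cofinite)
  let S : Scale := ⟨hyperfilter ℕ, Y, hY2, htend⟩
  have hlarge : ∀ m' : ℕ, ∀ᶠ n in (S.F : Filter ℕ), m' ≤ n := by
    intro m'
    have h1 : ∀ᶠ n in (atTop : Filter ℕ), m' ≤ n := eventually_ge_atTop m'
    rw [← Nat.cofinite_eq_atTop] at h1
    exact hyperfilter_le_cofinite h1
  obtain ⟨K, hK, cl, hcl⟩ := S.exists_cl
  have htA : t ∈ S.A := by
    refine ⟨1, ?_⟩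
    filter_upwards [S.tend.eventually_ge_atTop B] with n hn
    rw [pow_one]
    exact (ht n).trans hn
  obtain ⟨τ, hτ⟩ : ∃ τ : K, τ = cl ⟨t, htA⟩ := ⟨_, rfl⟩
  obtain ⟨θ, hθ⟩ : ∃ θ : (Scale.D cl)[X] →+* K, θ = (aeval (cl (S.const x)) : (Scale.D cl)[X] →ₐ[Scale.D cl] K).toRingHom :=
    ⟨_, rfl⟩
  have hθinj : Function.Injective θ := by
    rw [hθ]
    exact transcendental_iff_injective.1 (transc_gen cl hcl x hx)
  have hθC : ∀ d : Scale.D cl, θ (C d) = (d : K) := by
    intro d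
    rw [hθ]
    exact aeval_C _ _
  have hθX : θ X = cl (S.const x) := by
    rw [hθ]
    exact aeval_X _
  -- the relation of a near sequence
  have hrel : ∀ b : ℕ → Option (Fin (D + 1) × Fin (D + 1)) → ℤ,
      (∀ n, b n ∈ nearSet (one_u (mon2 D x (t n))) n (Y n)) →
      ∃ R : (Zq S)[X][X], (∀ n, (R.map (mapRingHom (ev S n))).map (mapRingHom (Int.castRingHom ℚ)) = polyQ (b n)) ∧
        eval₂ θ τ (R.map (mapRingHom (piD cl))) = 0 := by
    intro b hb
    have hbA : ∀ i, (fun n => b n i) ∈ Zq S := by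
      intro i
      refine ⟨1, Eventually.of_forall fun n => ?_⟩
      rw [pow_one]
      exact (hb n).1 i
    refine ⟨polyA fun i => ⟨fun n => b n i, hbA i⟩, fun n => ?_, ?_⟩
    · rw [polyA_map, polyA_map]
      rfl
    · rw [polyA_map, polyA_eval]
      simp only [hθC, hθX]
      have e1 : ∀ i, ((piD cl ⟨fun n => b n i, hbA i⟩ : Scale.D cl) : K) = cl (toA S ⟨fun n => b n i, hbA i⟩) :=
        fun i => rfl
      simp only [e1, hτ]
      have e2 : cl (toA S ⟨fun n => b n none, hbA none⟩) +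
          ∑ ij : Fin (D + 1) × Fin (D + 1), cl (toA S ⟨fun n => b n (some ij), hbA (some ij)⟩) *
            cl (S.const x) ^ (ij.1 : ℕ) * cl ⟨t, htA⟩ ^ (ij.2 : ℕ) =
          cl (toA S ⟨fun n => b n none, hbA none⟩ +
            ∑ ij : Fin (D + 1) × Fin (D + 1), toA S ⟨fun n => b n (some ij), hbA (some ij)⟩ *
              S.const x ^ (ij.1 : ℕ) * ⟨t, htA⟩ ^ (ij.2 : ℕ)) := by
        rw [map_add, map_sum]
        congr 1
        refine Finset.sum_congr rfl fun ij _ => ?_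
        rw [map_mul, map_mul, map_pow, map_pow]
      rw [e2, hcl]
      intro m'
      filter_upwards [hlarge m'] with n hn
      have e3 : (toA S ⟨fun n => b n none, hbA none⟩ +
            ∑ ij : Fin (D + 1) × Fin (D + 1), toA S ⟨fun n => b n (some ij), hbA (some ij)⟩ *
              S.const x ^ (ij.1 : ℕ) * ⟨t, htA⟩ ^ (ij.2 : ℕ)).1 n =
          ∑ i, (b n i : ℝ) * one_u (mon2 D x (t n)) i := by
        rw [Fintype.sum_option]
        have e4 : ((∑ ij : Fin (D + 1) × Fin (D + 1), toA S ⟨fun n => b n (some ij), hbA (some ij)⟩ *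
              S.const x ^ (ij.1 : ℕ) * ⟨t, htA⟩ ^ (ij.2 : ℕ) : S.A) : ℕ → ℝ) =
            ∑ ij : Fin (D + 1) × Fin (D + 1), (fun n => (b n (some ij) : ℝ)) * (fun _ => x) ^ (ij.1 : ℕ) * t ^ (ij.2 : ℕ) := by
          rw [AddSubmonoidClass.coe_finsetSum]
          rfl
        have e5 : (toA S ⟨fun n => b n none, hbA none⟩ +
            ∑ ij : Fin (D + 1) × Fin (D + 1), toA S ⟨fun n => b n (some ij), hbA (some ij)⟩ *
              S.const x ^ (ij.1 : ℕ) * ⟨t, htA⟩ ^ (ij.2 : ℕ)).1 n =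
            (b n none : ℝ) + ((∑ ij : Fin (D + 1) × Fin (D + 1), toA S ⟨fun n => b n (some ij), hbA (some ij)⟩ *
              S.const x ^ (ij.1 : ℕ) * ⟨t, htA⟩ ^ (ij.2 : ℕ) : S.A) : ℕ → ℝ) n := rfl
        rw [e5, e4, Finset.sum_apply]
        congr 1
        · exact (mul_one _).symm
        · refine Finset.sum_congr rfl fun ij _ => ?_
          change (b n (some ij) : ℝ) * x ^ (ij.1 : ℕ) * t n ^ (ij.2 : ℕ) =
            (b n (some ij) : ℝ) * (x ^ (ij.1 : ℕ) * t n ^ (ij.2 : ℕ))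
          ring
      rw [e3]
      refine le_trans ?_ (hb n).2
      apply mul_le_mul_of_nonneg_left _ (abs_nonneg _)
      exact pow_le_pow_right₀ (hY1 n) hn
  rcases principal θ hθinj τ with h0 | ⟨F, hFdeg, hFR⟩
  · -- no relation
    choose b hb hbd using fun n => hF n 0 (Or.inl rfl)
    obtain ⟨R, hR1, hR2⟩ := hrel b hb
    have h1 := map_zero_of cl hcl R (h0 _ hR2)
    obtain ⟨n, hn⟩ := h1.exists
    apply hbd n
    rw [← hR1 n, hn]
    simp
  · obtain ⟨Fz, hFz⟩ := map_surjective (mapRingHom (piD cl)) (map_surjective (piD cl) (piD_surj cl)) F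
    obtain ⟨Fn, hFn⟩ : ∃ Fn : ℕ → ℚ[X][X],
        Fn = fun n => (Fz.map (mapRingHom (ev S n))).map (mapRingHom (Int.castRingHom ℚ)) := ⟨_, rfl⟩
    have hFndeg : ∀ᶠ n in (S.F : Filter ℕ), 1 ≤ (Fn n).natDegree := by
      have h1 : F.coeff F.natDegree ≠ 0 := by
        rw [coeff_natDegree]
        intro h
        rw [leadingCoeff_eq_zero] at h
        rw [h] at hFdeg
        simp at hFdeg
      obtain ⟨i, hi⟩ : ∃ i, (F.coeff F.natDegree).coeff i ≠ 0 := by
        by_contra hcon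
        push Not at hcon
        exact h1 (Polynomial.ext (by simpa using hcon))
      have h2 : piD cl ((Fz.coeff F.natDegree).coeff i) ≠ 0 := by
        have h3 := congrArg (fun Q => (Q.coeff F.natDegree).coeff i) hFz
        simp only [coeff_map, coe_mapRingHom] at h3
        rw [h3]
        exact hi
      filter_upwards [piD_ne cl hcl _ h2] with n hn
      refine hFdeg.trans (le_natDegree_of_ne_zero ?_)
      intro h3
      apply hn
      have h4 := congrArg (fun Q => Q.coeff i) h3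
      rw [hFn] at h4
      simp only [coeff_map, coe_mapRingHom, coeff_zero] at h4
      have h5 : (((Fz.coeff F.natDegree).coeff i).1 n : ℚ) = 0 := h4
      exact_mod_cast h5
    have hex : ∀ n, ∃ F' : ℚ[X][X], (F' = 0 ∨ (Irreducible F' ∧ 1 ≤ F'.natDegree)) ∧
        (1 ≤ (Fn n).natDegree → Irreducible F' ∧ F' ∣ Fn n ∧ 1 ≤ F'.natDegree) := by
      intro n
      by_cases h : 1 ≤ (Fn n).natDegree
      · obtain ⟨F', h1, h2, h3⟩ := exists_irr _ h
        exact ⟨F', Or.inr ⟨h1, h3⟩, fun _ => ⟨h1, h2, h3⟩⟩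
      · exact ⟨0, Or.inl rfl, fun h1 => absurd h1 h⟩
    choose F' hF'1 hF'2 using hex
    choose b hb hbd using fun n => hF n (F' n) (hF'1 n)
    obtain ⟨R, hR1, hR2⟩ := hrel b hb
    obtain ⟨d, G, hd, hdG⟩ := hFR _ hR2
    obtain ⟨dz, hdz⟩ := map_surjective (piD cl) (piD_surj cl) d
    obtain ⟨Gz, hGz⟩ := map_surjective (mapRingHom (piD cl)) (map_surjective (piD cl) (piD_surj cl)) G
    have h1 := map_zero_of cl hcl (C dz * R - Fz * Gz) (by
      have e : C ((mapRingHom (piD cl)) dz) = C d := congrArg C hdz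
      rw [Polynomial.map_sub, Polynomial.map_mul, Polynomial.map_mul, map_C, hFz, hGz, e, hdG]
      exact sub_self (F * G))
    have h2 : ∀ᶠ n in (S.F : Filter ℕ), (dz.map (ev S n)).map (Int.castRingHom ℚ) ≠ 0 := by
      obtain ⟨i, hi⟩ : ∃ i, d.coeff i ≠ 0 := by
        by_contra hcon
        push Not at hcon
        exact hd (Polynomial.ext (by simpa using hcon))
      have h3 : piD cl (dz.coeff i) ≠ 0 := by
        rw [← coeff_map, hdz]
        exact hi
      filter_upwards [piD_ne cl hcl _ h3] with n hn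
      intro h4
      apply hn
      have h5 := congrArg (fun Q => Q.coeff i) h4
      simp only [coeff_map, coeff_zero] at h5
      have h6 : ((dz.coeff i).1 n : ℚ) = 0 := h5
      exact_mod_cast h6
    obtain ⟨n, hn1, hn2, hn3⟩ := (h1.and (h2.and hFndeg)).exists
    obtain ⟨hi, hdv, hdg⟩ := hF'2 n hn3
    apply hbd n
    rw [← hR1 n]
    refine irr_dvd (F := Fn n) (G := (Gz.map (mapRingHom (ev S n))).map (mapRingHom (Int.castRingHom ℚ))) hn2 ?_ hi hdv hdg
    rw [Polynomial.map_sub, Polynomial.map_mul, Polynomial.map_mul, sub_eq_zero, map_C] at hn1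
    have h7 := congrArg (fun Q => Q.map (mapRingHom (Int.castRingHom ℚ))) hn1
    simp only [Polynomial.map_mul, map_C] at h7
    rw [hFn]
    exact h7

end Pool.Agent.U831.AF
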