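import Mathlib

/-!
# Relations between two numbers: one polynomial up to denominators
-/

set_option autoImplicit false

namespace Pool.Agent.U831.AF

open Polynomial

lemma irr_dvd {F F' G R : ℚ[X][X]} {d : ℚ[X]} (hd : d ≠ 0) (h : C d * R = F * G)
    (hF' : Irreducible F') (hdvd : F' ∣ F) (hdeg : 1 ≤ F'.natDegree) : F' ∣ R := by
  have hp : Prime F' := hF'.prime
  have h1 : F' ∣ C d * R := h ▸ hdvd.mul_right G
  rcases hp.dvd_or_dvd h1 with h2 | h2
  · exfalso
    have := natDegree_le_of_dvd h2 (by simpa using hd)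
    rw [natDegree_C] at this
    omega
  · exact h2

lemma exists_irr (F : ℚ[X][X]) (hF : 1 ≤ F.natDegree) :
    ∃ F' : ℚ[X][X], Irreducible F' ∧ F' ∣ F ∧ 1 ≤ F'.natDegree := by
  have hF0 : F ≠ 0 := by
    rintro rfl
    simp at hF
  obtain ⟨f, hf, hass⟩ := UniqueFactorizationMonoid.exists_prime_factors F hF0
  by_contra hcon
  push Not at hcon
  have h1 : ∀ b ∈ f, b.natDegree = 0 := by
    intro b hb
    have h2 := hcon b (hf b hb).irreducible ((Multiset.dvd_prod hb).trans hass.dvd)
    omega
  have h3 : f.prod.natDegree = 0 := by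
    rw [natDegree_multiset_prod f (fun h => (hf 0 h).ne_zero rfl), Multiset.sum_eq_zero]
    intro x hx
    rw [Multiset.mem_map] at hx
    obtain ⟨b, hb, rfl⟩ := hx
    exact h1 b hb
  have h4 : f.prod ≠ 0 := by
    intro h0
    rw [h0] at hass
    exact hF0 ((Associated.eq_zero_iff hass).1 rfl)
  have h5 := natDegree_le_of_dvd hass.symm.dvd h4
  omega

theorem principal {A K : Type} [CommRing A] [IsDomain A] [Field K] (θ : A →+* K)
    (hθ : Function.Injective θ) (τ : K) :
    (∀ R : A[X], eval₂ θ τ R = 0 → R = 0) ∨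
      ∃ F : A[X], 1 ≤ F.natDegree ∧ ∀ R : A[X], eval₂ θ τ R = 0 →
        ∃ (d : A) (G : A[X]), d ≠ 0 ∧ C d * R = F * G := by
  let L := FractionRing A
  let lam : L →+* K := IsFractionRing.lift hθ
  letI : Algebra L K := lam.toAlgebra
  have hinj : Function.Injective (algebraMap A L) := IsFractionRing.injective A L
  have hev : ∀ R : A[X], aeval τ (R.map (algebraMap A L)) = eval₂ θ τ R := by
    intro R
    rw [aeval_def, eval₂_map]
    congr 1
    ext a
    exact IsFractionRing.lift_algebraMap hθ a
  by_cases halg : IsAlgebraic L τ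
  · right
    have hint : IsIntegral L τ := halg.isIntegral
    obtain ⟨b, hb, hbm⟩ := IsLocalization.integerNormalization_spec (nonZeroDivisors A) (minpoly L τ)
    have hb0 : b ≠ 0 := nonZeroDivisors.ne_zero hb
    have hbm' : (IsLocalization.integerNormalization (nonZeroDivisors A) (minpoly L τ)).map (algebraMap A L) =
        C (algebraMap A L b) * minpoly L τ := by
      rw [hbm, Algebra.smul_def]
      rfl
    have hbL : algebraMap A L b ≠ 0 := by
      rw [Ne, map_eq_zero_iff _ hinj]
      exact hb0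
    refine ⟨IsLocalization.integerNormalization (nonZeroDivisors A) (minpoly L τ), ?_, ?_⟩
    · rw [← natDegree_map_eq_of_injective hinj, hbm', natDegree_C_mul hbL]
      exact minpoly.natDegree_pos hint
    · intro R hR
      obtain ⟨Q, hQ⟩ := minpoly.dvd L τ ((hev R).trans hR)
      obtain ⟨b', hb', hbm2⟩ := IsLocalization.integerNormalization_spec (nonZeroDivisors A) Q
      have hb0' : b' ≠ 0 := nonZeroDivisors.ne_zero hb'
      have hbm2' : (IsLocalization.integerNormalization (nonZeroDivisors A) Q).map (algebraMap A L) =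
          C (algebraMap A L b') * Q := by
        rw [hbm2, Algebra.smul_def]
        rfl
      refine ⟨b * b', IsLocalization.integerNormalization (nonZeroDivisors A) Q, mul_ne_zero hb0 hb0', ?_⟩
      apply map_injective _ hinj
      rw [Polynomial.map_mul, Polynomial.map_mul, hbm', hbm2', map_C, hQ, map_mul, C_mul]
      ring
  · left
    intro R hR
    rw [← hev] at hR
    have h1 : R.map (algebraMap A L) = 0 := by
      by_contra h0
      exact halg ⟨_, h0, hR⟩
    exact (Polynomial.map_eq_zero_iff hinj).1 h1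

/-- a polynomial in two variables from its coefficients -/
noncomputable def polyA {D : ℕ} {A : Type} [CommRing A] (b : Option (Fin (D + 1) × Fin (D + 1)) → A) : A[X][X] :=
  C (C (b none)) + ∑ ij : Fin (D + 1) × Fin (D + 1), C (C (b (some ij)) * X ^ (ij.1 : ℕ)) * X ^ (ij.2 : ℕ)

lemma polyA_map {D : ℕ} {A B : Type} [CommRing A] [CommRing B] (f : A →+* B)
    (b : Option (Fin (D + 1) × Fin (D + 1)) → A) :
    (polyA b).map (mapRingHom f) = polyA (fun i => f (b i)) := by
  unfold polyA
  rw [Polynomial.map_add, Polynomial.map_sum]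
  congr 1
  · simp
  · refine Finset.sum_congr rfl fun ij _ => ?_
    simp

lemma polyA_eval {D : ℕ} {A K : Type} [CommRing A] [CommRing K] (θ : A[X] →+* K) (τ : K)
    (b : Option (Fin (D + 1) × Fin (D + 1)) → A) :
    eval₂ θ τ (polyA b) = θ (C (b none)) +
      ∑ ij : Fin (D + 1) × Fin (D + 1), θ (C (b (some ij))) * θ X ^ (ij.1 : ℕ) * τ ^ (ij.2 : ℕ) := by
  unfold polyA
  rw [eval₂_add, eval₂_finsetSum, eval₂_C]
  congr 1
  refine Finset.sum_congr rfl fun ij _ => ?_
  rw [eval₂_mul, eval₂_C, eval₂_X_pow, map_mul, map_pow]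

end Pool.Agent.U831.AF
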