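import Mathlib

/-!
# The asymptotic field of a sequence of scales

Let `T n ≥ 2` tend to infinity along an ultrafilter. The sequences of real numbers bounded by a power
of `T` modulo the sequences smaller than every negative power of `T` form a field `K`. Sequences of
integers bounded by a power of `T` give a subring `D` of `K`. Real numbers which satisfy a measure of
linear independence over `ℤ` (polynomial in the height) are linearly independent over `D`.
-/

set_option autoImplicit false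

namespace Pool.Agent.U831.AF

open Filter

/-- a sequence of scales and an ultrafilter -/
structure Scale where
  F : Ultrafilter ℕ
  T : ℕ → ℝ
  two_le : ∀ n, 2 ≤ T n
  tend : Tendsto T (F : Filter ℕ) atTop

namespace Scale

variable (S : Scale)

lemma T_pos (n : ℕ) : 0 < S.T n := by have := S.two_le n; linarith

lemma one_le_pow (n C : ℕ) : 1 ≤ S.T n ^ C := one_le_pow₀ (by have := S.two_le n; linarith)

/-- sequences bounded by a power of the scale -/
def A : Subring (ℕ → ℝ) where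
  carrier := {f | ∃ C : ℕ, ∀ᶠ n in (S.F : Filter ℕ), |f n| ≤ S.T n ^ C}
  mul_mem' := by
    rintro f g ⟨C, hC⟩ ⟨C', hC'⟩
    refine ⟨C + C', ?_⟩
    filter_upwards [hC, hC'] with n h1 h2
    rw [Pi.mul_apply, abs_mul, pow_add]
    exact mul_le_mul h1 h2 (abs_nonneg _) (by have := S.one_le_pow n C; linarith)
  one_mem' := ⟨0, Eventually.of_forall fun n => by simp⟩
  add_mem' := by
    rintro f g ⟨C, hC⟩ ⟨C', hC'⟩
    refine ⟨C + C' + 1, ?_⟩
    filter_upwards [hC, hC'] with n h1 h2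
    have e1 : S.T n ^ C ≤ S.T n ^ (C + C') :=
      pow_le_pow_right₀ (by have := S.two_le n; linarith) (by omega)
    have e2 : S.T n ^ C' ≤ S.T n ^ (C + C') :=
      pow_le_pow_right₀ (by have := S.two_le n; linarith) (by omega)
    have e3 := S.one_le_pow n (C + C')
    have e4 := S.two_le n
    rw [Pi.add_apply, pow_succ]
    calc |f n + g n| ≤ |f n| + |g n| := abs_add_le _ _
      _ ≤ S.T n ^ (C + C') * 2 := by linarith
      _ ≤ S.T n ^ (C + C') * S.T n := mul_le_mul_of_nonneg_left e4 (by linarith)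
  zero_mem' := ⟨0, Eventually.of_forall fun n => by simp⟩
  neg_mem' := by
    rintro f ⟨C, hC⟩
    refine ⟨C, ?_⟩
    filter_upwards [hC] with n h1
    rw [Pi.neg_apply, abs_neg]
    exact h1

/-- sequences smaller than every negative power of the scale -/
def J : Ideal S.A where
  carrier := {f | ∀ m : ℕ, ∀ᶠ n in (S.F : Filter ℕ), |f.1 n| * S.T n ^ m ≤ 1}
  zero_mem' := fun m => Eventually.of_forall fun n => by simp
  add_mem' := by
    rintro f g hf hg m
    filter_upwards [hf (m + 1), hg (m + 1)] with n h1 h2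
    have e4 := S.two_le n
    have e5 : (f + g).1 n = f.1 n + g.1 n := rfl
    rw [e5]
    have hp := S.one_le_pow n m
    rw [pow_succ] at h1 h2
    have a1 : |f.1 n| * S.T n ^ m * 2 ≤ 1 := by
      have : 0 ≤ |f.1 n| * S.T n ^ m := by positivity
      nlinarith
    have a2 : |g.1 n| * S.T n ^ m * 2 ≤ 1 := by
      have : 0 ≤ |g.1 n| * S.T n ^ m := by positivity
      nlinarith
    have a3 : |f.1 n + g.1 n| ≤ |f.1 n| + |g.1 n| := abs_add_le _ _
    calc |f.1 n + g.1 n| * S.T n ^ m ≤ (|f.1 n| + |g.1 n|) * S.T n ^ m :=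
          mul_le_mul_of_nonneg_right a3 (by linarith)
      _ ≤ 1 := by linarith
  smul_mem' := by
    rintro ⟨f, C, hC⟩ g hg m
    filter_upwards [hC, hg (C + m)] with n h1 h2
    have e5 : ((⟨f, C, hC⟩ : S.A) • g).1 n = f n * g.1 n := rfl
    rw [e5, abs_mul]
    rw [pow_add] at h2
    calc |f n| * |g.1 n| * S.T n ^ m ≤ S.T n ^ C * |g.1 n| * S.T n ^ m := by
          apply mul_le_mul_of_nonneg_right _ (by have := S.one_le_pow n m; linarith)
          exact mul_le_mul_of_nonneg_right h1 (abs_nonneg _)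
      _ = |g.1 n| * (S.T n ^ C * S.T n ^ m) := by ring
      _ ≤ 1 := h2

lemma mem_J (f : S.A) : f ∈ S.J ↔ ∀ m : ℕ, ∀ᶠ n in (S.F : Filter ℕ), |f.1 n| * S.T n ^ m ≤ 1 := Iff.rfl

lemma one_notMem : (1 : S.A) ∉ S.J := by
  intro h
  have h1 := (S.mem_J 1).1 h 1
  obtain ⟨n, hn⟩ := h1.exists
  have e : (1 : S.A).1 n = 1 := rfl
  rw [e, abs_one, one_mul, pow_one] at hn
  have := S.two_le n
  linarith

instance : S.J.IsMaximal := by
  rw [Ideal.isMaximal_iff]
  refine ⟨S.one_notMem, ?_⟩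
  intro I x hJI hx hxI
  rw [mem_J] at hx
  push Not at hx
  obtain ⟨m, hm⟩ := hx
  have hm' : ∀ᶠ n in (S.F : Filter ℕ), 1 < |x.1 n| * S.T n ^ m := hm
  -- the inverse
  have hg : (fun n => (x.1 n)⁻¹) ∈ S.A := by
    refine ⟨m, ?_⟩
    filter_upwards [hm'] with n hn
    have hp := S.one_le_pow n m
    have hx0 : 0 < |x.1 n| := by
      by_contra h
      push Not at h
      have := abs_nonneg (x.1 n)
      have e : |x.1 n| = 0 := le_antisymm h this
      rw [e, zero_mul] at hn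
      linarith
    rw [abs_inv, inv_le_iff_one_le_mul₀ hx0, mul_comm]
    linarith
  have h1 : (⟨_, hg⟩ : S.A) * x ∈ I := I.mul_mem_left _ hxI
  have h2 : 1 - (⟨_, hg⟩ : S.A) * x ∈ I := by
    apply hJI
    rw [mem_J]
    intro m'
    filter_upwards [hm'] with n hn
    have hx0 : x.1 n ≠ 0 := by
      intro h
      rw [h, abs_zero, zero_mul] at hn
      linarith
    have e : (1 - (⟨_, hg⟩ : S.A) * x).1 n = 1 - (x.1 n)⁻¹ * x.1 n := rfl
    rw [e, inv_mul_cancel₀ hx0, sub_self, abs_zero, zero_mul]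
    exact zero_le_one
  have h3 := I.add_mem h2 h1
  rwa [sub_add_cancel] at h3

/-- the asymptotic field and the class map -/
theorem exists_cl : ∃ (K : Type) (_ : Field K) (cl : S.A →+* K), ∀ f : S.A,
    cl f = 0 ↔ ∀ m : ℕ, ∀ᶠ n in (S.F : Filter ℕ), |f.1 n| * S.T n ^ m ≤ 1 :=
  ⟨S.A ⧸ S.J, Ideal.Quotient.field S.J, Ideal.Quotient.mk S.J, fun _ => Ideal.Quotient.eq_zero_iff_mem⟩

lemma const_mem (r : ℝ) : (fun _ : ℕ => r) ∈ S.A := by
  refine ⟨1, ?_⟩
  filter_upwards [S.tend.eventually_ge_atTop |r|] with n hn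
  rw [pow_one]
  exact hn

/-- real numbers -/
noncomputable def const : ℝ →+* S.A where
  toFun r := ⟨fun _ => r, S.const_mem r⟩
  map_one' := rfl
  map_mul' _ _ := rfl
  map_zero' := rfl
  map_add' _ _ := rfl

/-- sequences of integers -/
def AZ : Subring S.A where
  carrier := {f | ∃ s : ℕ → ℤ, ∀ n, f.1 n = s n}
  mul_mem' := by
    rintro f g ⟨s, hs⟩ ⟨t, ht⟩
    refine ⟨s * t, fun n => ?_⟩
    have : (f * g).1 n = f.1 n * g.1 n := rfl
    rw [this, hs, ht, Pi.mul_apply, Int.cast_mul]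
  one_mem' := ⟨1, fun n => by simp⟩
  add_mem' := by
    rintro f g ⟨s, hs⟩ ⟨t, ht⟩
    refine ⟨s + t, fun n => ?_⟩
    have : (f + g).1 n = f.1 n + g.1 n := rfl
    rw [this, hs, ht, Pi.add_apply, Int.cast_add]
  zero_mem' := ⟨0, fun n => by simp⟩
  neg_mem' := by
    rintro f ⟨s, hs⟩
    refine ⟨-s, fun n => ?_⟩
    have : (-f).1 n = -f.1 n := rfl
    rw [this, hs, Pi.neg_apply, Int.cast_neg]

variable {S} {K : Type} [Field K] (cl : S.A →+* K)

/-- the classes of the sequences of integers -/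
def D : Subring K := S.AZ.map cl

lemma D_rep (d : D cl) : ∃ (s : ℕ → ℤ) (h : (fun n => (s n : ℝ)) ∈ S.A), cl ⟨_, h⟩ = d := by
  obtain ⟨d, f, ⟨s, hs⟩, hf⟩ := d
  have e : f.1 = fun n => (s n : ℝ) := funext hs
  refine ⟨s, e ▸ f.2, ?_⟩
  have : (⟨fun n => (s n : ℝ), e ▸ f.2⟩ : S.A) = f := Subtype.ext e.symm
  rw [this]
  exact hf

variable (hcl : ∀ f : S.A, cl f = 0 ↔ ∀ m : ℕ, ∀ᶠ n in (S.F : Filter ℕ), |f.1 n| * S.T n ^ m ≤ 1)

include hcl

/-- a sequence of integers whose class is zero is zero almost everywhere -/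
lemma int_zero (s : ℕ → ℤ) (h : (fun n => (s n : ℝ)) ∈ S.A) :
    cl ⟨_, h⟩ = 0 ↔ ∀ᶠ n in (S.F : Filter ℕ), s n = 0 := by
  rw [hcl]
  constructor
  · intro h1
    filter_upwards [h1 1] with n hn
    by_contra h0
    have h2 : (1 : ℝ) ≤ |((s n : ℤ) : ℝ)| := by
      rw [← Int.cast_abs]
      exact_mod_cast Int.one_le_abs h0
    have h3 : |((s n : ℤ) : ℝ)| * S.T n ^ 1 ≤ 1 := hn
    rw [pow_one] at h3
    have h4 := S.two_le n
    nlinarith
  · intro h1 m
    filter_upwards [h1] with n hn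
    have : |((s n : ℤ) : ℝ)| * S.T n ^ m ≤ 1 := by
      rw [hn]; simp
    exact this

/-- measures give linear independence over `D` -/
theorem linearIndependent_D {ι : Type} [Fintype ι] (r : ι → ℝ) (c : ℝ) (hc : 0 < c) (κ : ℕ)
    (h : ∀ (H : ℝ) (a : ι → ℤ), 1 ≤ H → a ≠ 0 → (∀ i, |(a i : ℝ)| ≤ H) → c ≤ H ^ κ * |∑ i, (a i : ℝ) * r i|) :
    LinearIndependent (D cl) (fun i => cl (S.const (r i))) := by
  classical
  rw [Fintype.linearIndependent_iff]
  intro g hg i₀
  by_contra hne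
  choose s hs hsg using fun i => D_rep cl (g i)
  -- the sum
  have hsum : cl (∑ i, (⟨_, hs i⟩ : S.A) * S.const (r i)) = 0 := by
    rw [map_sum, ← hg]
    refine Finset.sum_congr rfl fun i _ => ?_
    rw [map_mul, hsg]
    rfl
  rw [hcl] at hsum
  have hval : ∀ n, (∑ i, (⟨_, hs i⟩ : S.A) * S.const (r i)).1 n = ∑ i, (s i n : ℝ) * r i := by
    intro n
    have : ((∑ i, (⟨_, hs i⟩ : S.A) * S.const (r i) : S.A) : ℕ → ℝ) =
        ∑ i, (fun n => (s i n : ℝ)) * (fun _ => r i) := by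
      rw [AddSubmonoidClass.coe_finsetSum]
      rfl
    rw [this, Finset.sum_apply]
    rfl
  -- bounds
  have hbd : ∃ C : ℕ, ∀ᶠ n in (S.F : Filter ℕ), ∀ i, |(s i n : ℝ)| ≤ S.T n ^ C := by
    choose C hC using fun i => (hs i)
    refine ⟨∑ i, C i, ?_⟩
    rw [eventually_all]
    intro i
    filter_upwards [hC i] with n hn
    refine hn.trans (pow_le_pow_right₀ (by have := S.two_le n; linarith) ?_)
    exact Finset.single_le_sum (fun j _ => Nat.zero_le _) (Finset.mem_univ i)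
  obtain ⟨C, hC⟩ := hbd
  have hne' : ∀ᶠ n in (S.F : Filter ℕ), s i₀ n ≠ 0 := by
    have h1 : ¬ ∀ᶠ n in (S.F : Filter ℕ), s i₀ n = 0 := by
      intro h2
      have h3 := (int_zero cl hcl (s i₀) (hs i₀)).2 h2
      rw [hsg] at h3
      exact hne (Subtype.ext h3)
    exact (Ultrafilter.eventually_not (f := S.F)).2 h1
  have hlarge := S.tend.eventually_gt_atTop (1 / c)
  obtain ⟨n, h1, h2, h3, h4⟩ := (hC.and (hne'.and ((hsum (C * κ + 1)).and hlarge))).exists
  rw [hval] at h3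
  have h5 := h (S.T n ^ C) (fun i => s i n) (S.one_le_pow n C) (fun h0 => h2 (congrFun h0 i₀)) h1
  have hT := S.T_pos n
  rw [pow_succ, pow_mul] at h3
  have h6 : c * S.T n ≤ 1 := by
    calc c * S.T n ≤ ((S.T n ^ C) ^ κ * |∑ i, (s i n : ℝ) * r i|) * S.T n :=
          mul_le_mul_of_nonneg_right h5 hT.le
      _ = |∑ i, (s i n : ℝ) * r i| * ((S.T n ^ C) ^ κ * S.T n) := by ring
      _ ≤ 1 := h3
  rw [div_lt_iff₀ hc] at h4
  linarith

end Scale

end Pool.Agent.U831.AF
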