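import Pool.Agent.U831.AF.Field

/-!
# The transfer theorem: ranks over the asymptotic field bound the near relations at every scale
-/

set_option autoImplicit false

namespace Pool.Agent.U831.AF

open Filter

/-- the near relations of height at most `X` with value at most `X ^ (-κ)` between the numbers `u i` -/
def nearSet {ι : Type} [Fintype ι] (u : ι → ℝ) (κ : ℕ) (X : ℝ) : Set (ι → ℤ) :=
  {v | (∀ i, |(v i : ℝ)| ≤ X) ∧ |∑ i, (v i : ℝ) * u i| * X ^ κ ≤ 1}

/-- integer vectors as rational vectors -/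
def toQ {ι : Type} (v : ι → ℤ) : ι → ℚ := fun i => v i

lemma exists_indep {ι : Type} [Fintype ι] (s : Set (ι → ℤ)) (m : ℕ)
    (h : m ≤ Module.finrank ℚ (Submodule.span ℚ (toQ '' s))) :
    ∃ v : Fin m → ι → ℤ, (∀ j, v j ∈ s) ∧ LinearIndependent ℚ (fun j => toQ (v j)) := by
  obtain ⟨f, hf, -, hli⟩ := Submodule.exists_fun_fin_finrank_span_eq ℚ (toQ '' s)
  choose g hg hgf using hf
  refine ⟨fun j => g (Fin.castLE h j), fun j => hg _, ?_⟩
  have := hli.comp _ (Fin.castLE_injective h)
  have e : (fun j : Fin m => toQ (g (Fin.castLE h j))) = f ∘ Fin.castLE h := by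
    funext j
    exact hgf _
  rw [e]
  exact this

lemma int_indep {ι : Type} {m : ℕ} (v : Fin m → ι → ℤ) (hv : LinearIndependent ℚ (fun j => toQ (v j)))
    (s : Fin m → ℤ) (h : ∀ i, ∑ j, s j * v j i = 0) : ∀ j, s j = 0 := by
  rw [Fintype.linearIndependent_iff] at hv
  intro j
  have h1 := hv (fun j => (s j : ℚ)) (by
    funext i
    rw [Finset.sum_apply]
    have : ∀ j, ((s j : ℚ) • toQ (v j)) i = ((s j * v j i : ℤ) : ℚ) := by
      intro j
      simp [toQ]
    simp only [this]
    rw [← Int.cast_sum, h i]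
    simp) j
  exact_mod_cast h1

section

variable {S : Scale} {K : Type} [Field K] (cl : S.A →+* K)

/-- the class of a bounded sequence of integers as an element of `D` -/
def clD (s : ℕ → ℤ) (h : (fun n => (s n : ℝ)) ∈ S.A) : Scale.D cl :=
  ⟨cl ⟨_, h⟩, ⟨⟨_, h⟩, ⟨s, fun _ => rfl⟩, rfl⟩⟩

end

/-- the rank condition over all asymptotic fields -/
def RankGe {ι : Type} [Fintype ι] (𝒰 : Set (ι → ℝ)) (R : ℕ) : Prop :=
  ∀ (S : Scale) (K : Type) (_ : Field K) (cl : S.A →+* K),
    (∀ f : S.A, cl f = 0 ↔ ∀ m : ℕ, ∀ᶠ n in (S.F : Filter ℕ), |f.1 n| * S.T n ^ m ≤ 1) →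
    ∀ (u : ℕ → ι → ℝ) (_ : ∀ n, u n ∈ 𝒰) (hA : ∀ i, (fun n => u n i) ∈ S.A),
      letI := FractionRing.liftAlgebra (Scale.D cl) K
      (R : Cardinal) ≤ Module.rank (FractionRing (Scale.D cl))
        (Submodule.span (FractionRing (Scale.D cl)) (Set.range fun i => cl ⟨fun n => u n i, hA i⟩))

/-- **The transfer theorem.** -/
theorem transfer {ι : Type} [Fintype ι] (𝒰 : Set (ι → ℝ)) (B : ℝ) (hB : ∀ u ∈ 𝒰, ∀ i, |u i| ≤ B)
    (R : ℕ) (hR : RankGe 𝒰 R) :
    ∃ (κ : ℕ) (X₀ : ℝ), ∀ u ∈ 𝒰, ∀ X : ℝ, X₀ ≤ X →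
      Module.finrank ℚ (Submodule.span ℚ (toQ '' nearSet u κ X)) + R ≤ Fintype.card ι := by
  classical
  by_contra hcon
  push Not at hcon
  choose u hu X hX hlt using fun n : ℕ => hcon n (n + 2)
  set m : ℕ := Fintype.card ι + 1 - R with hm
  have hmle : ∀ n, m ≤ Module.finrank ℚ (Submodule.span ℚ (toQ '' nearSet (u n) n (X n))) := by
    intro n
    have := hlt n
    omega
  choose v hv hvi using fun n => exists_indep _ m (hmle n)
  -- the scale
  have hX2 : ∀ n, 2 ≤ X n := fun n => by
    have := hX n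
    have h0 : (0 : ℝ) ≤ n := by positivity
    linarith
  have htend : Tendsto X ((hyperfilter ℕ : Ultrafilter ℕ) : Filter ℕ) atTop := by
    have h1 : Tendsto X atTop atTop := by
      refine tendsto_atTop_mono (fun n => ?_) (tendsto_natCast_atTop_atTop (R := ℝ))
      have := hX n
      linarith
    exact h1.mono_left (by
      rw [← Nat.cofinite_eq_atTop]
      exact hyperfilter_le_cofinite)
  let S : Scale := ⟨hyperfilter ℕ, X, hX2, htend⟩
  have hlarge : ∀ m' : ℕ, ∀ᶠ n in (S.F : Filter ℕ), m' ≤ n := by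
    intro m'
    have h1 : ∀ᶠ n in (atTop : Filter ℕ), m' ≤ n := eventually_ge_atTop m'
    rw [← Nat.cofinite_eq_atTop] at h1
    exact hyperfilter_le_cofinite h1
  obtain ⟨K, hK, cl, hcl⟩ := S.exists_cl
  have huA : ∀ i, (fun n => u n i) ∈ S.A := by
    intro i
    refine ⟨1, ?_⟩
    filter_upwards [S.tend.eventually_ge_atTop B] with n hn
    rw [pow_one]
    exact (hB _ (hu n) i).trans hn
  have hvA : ∀ j i, (fun n => ((v n j i : ℤ) : ℝ)) ∈ S.A := by
    intro j i
    refine ⟨1, Eventually.of_forall fun n => ?_⟩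
    rw [pow_one]
    exact (hv n j).1 i
  have hrank := hR S K hK cl hcl u hu huA
  letI := FractionRing.liftAlgebra (Scale.D cl) K
  haveI := FractionRing.isScalarTower_liftAlgebra (Scale.D cl) K
  set k := FractionRing (Scale.D cl) with hk
  set U : ι → K := fun i => cl ⟨fun n => u n i, huA i⟩ with hU
  set V : Fin m → ι → Scale.D cl := fun j i => clD cl (fun n => v n j i) (hvA j i) with hV
  -- linear independence over `D`
  have hVD : LinearIndependent (Scale.D cl) (fun j => (fun i => algebraMap (Scale.D cl) k (V j i))) := by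
    rw [Fintype.linearIndependent_iff]
    intro g hg
    choose s hs hsg using fun j => Scale.D_rep cl (g j)
    have h1 : ∀ i, ∀ᶠ n in (S.F : Filter ℕ), ∑ j, s j n * v n j i = 0 := by
      intro i
      have e1 : ∑ j, g j * V j i = 0 := by
        have e2 := congrFun hg i
        rw [Finset.sum_apply] at e2
        have e3 : algebraMap (Scale.D cl) k (∑ j, g j * V j i) = 0 := by
          rw [map_sum]
          have e4 : ∀ j, algebraMap (Scale.D cl) k (g j * V j i) =
              (g j • (fun i => algebraMap (Scale.D cl) k (V j i)) : ι → k) i := by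
            intro j
            rw [Pi.smul_apply, Algebra.smul_def, map_mul]
          simp only [e4]
          exact e2
        exact (FaithfulSMul.algebraMap_eq_zero_iff (Scale.D cl) k).1 e3
      have hsA : (fun n => ((∑ j, s j n * v n j i : ℤ) : ℝ)) ∈ S.A := by
        have : (fun n => ((∑ j, s j n * v n j i : ℤ) : ℝ)) =
            ∑ j, (fun n => (s j n : ℝ)) * (fun n => (v n j i : ℝ)) := by
          funext n
          rw [Finset.sum_apply]
          push_cast
          rfl
        rw [this]
        exact S.A.sum_mem fun j _ => S.A.mul_mem (hs j) (hvA j i)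
      rw [← Scale.int_zero cl hcl _ hsA]
      have e5 : (⟨_, hsA⟩ : S.A) = ∑ j, (⟨_, hs j⟩ : S.A) * ⟨_, hvA j i⟩ := by
        apply Subtype.ext
        rw [AddSubmonoidClass.coe_finsetSum]
        funext n
        rw [Finset.sum_apply]
        push_cast
        rfl
      rw [e5, map_sum]
      have e6 := congrArg Subtype.val e1
      rw [AddSubmonoidClass.coe_finsetSum] at e6
      refine Eq.trans ?_ e6
      refine Finset.sum_congr rfl fun j _ => ?_
      rw [map_mul, hsg]
      rfl
    have h2 : ∀ᶠ n in (S.F : Filter ℕ), ∀ i, ∑ j, s j n * v n j i = 0 := eventually_all.2 h1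
    intro j
    have h3 : ∀ᶠ n in (S.F : Filter ℕ), s j n = 0 := by
      filter_upwards [h2] with n hn
      exact int_indep (v n) (hvi n) (fun j => s j n) hn j
    rw [← Scale.int_zero cl hcl _ (hs j), hsg] at h3
    exact Subtype.ext h3
  have hVk : LinearIndependent k (fun j => (fun i => algebraMap (Scale.D cl) k (V j i))) :=
    (LinearIndependent.iff_fractionRing (Scale.D cl) k).1 hVD
  -- the kernel
  let φ : (ι → k) →ₗ[k] K := Fintype.linearCombination k U
  have hker : ∀ j, (fun i => algebraMap (Scale.D cl) k (V j i)) ∈ LinearMap.ker φ := by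
    intro j
    rw [LinearMap.mem_ker]
    change Fintype.linearCombination k U _ = 0
    rw [Fintype.linearCombination_apply]
    have e1 : ∀ i, algebraMap (Scale.D cl) k (V j i) • U i =
        cl ((⟨_, hvA j i⟩ : S.A) * ⟨_, huA i⟩) := by
      intro i
      rw [algebraMap_smul, map_mul]
      rfl
    simp only [e1]
    rw [← map_sum, hcl]
    intro m'
    filter_upwards [hlarge m'] with n hn
    have e2 : (∑ i, (⟨_, hvA j i⟩ : S.A) * ⟨_, huA i⟩).1 n = ∑ i, (v n j i : ℝ) * u n i := by
      have : ((∑ i, (⟨_, hvA j i⟩ : S.A) * ⟨_, huA i⟩ : S.A) : ℕ → ℝ) =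
          ∑ i, (fun n => (v n j i : ℝ)) * (fun n => u n i) := by
        rw [AddSubmonoidClass.coe_finsetSum]
        rfl
      rw [this, Finset.sum_apply]
      rfl
    rw [e2]
    have e3 : |∑ i, (v n j i : ℝ) * u n i| * X n ^ n ≤ 1 := (hv n j).2
    refine le_trans ?_ e3
    apply mul_le_mul_of_nonneg_left _ (abs_nonneg _)
    exact pow_le_pow_right₀ (by have := hX2 n; linarith) hn
  have hkerm : m ≤ Module.finrank k (LinearMap.ker φ) := by
    have h1 : LinearIndependent k (fun j => (⟨_, hker j⟩ : LinearMap.ker φ)) :=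
      LinearIndependent.of_comp (LinearMap.ker φ).subtype hVk
    simpa using h1.fintype_card_le_finrank
  have hrn := LinearMap.finrank_range_add_finrank_ker φ
  rw [Module.finrank_pi] at hrn
  have hrange : LinearMap.range φ = Submodule.span k (Set.range U) := by
    exact Fintype.range_linearCombination k U
  have hfin : (R : Cardinal) ≤ Module.rank k (LinearMap.range φ) := by
    rw [hrange]
    exact hrank
  rw [← Module.finrank_eq_rank] at hfin
  have hfin' : R ≤ Module.finrank k (LinearMap.range φ) := by exact_mod_cast hfin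
  omega

end Pool.Agent.U831.AF
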