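import Pool.Agent.U831.AF.Alg
import Pool.Agent.U831.AF.Transfer
import Pool.Agent.V11210.ZZ.Meas

/-!
# `π²` and `ζ(3)` over the asymptotic field of fractions of integers
-/

set_option autoImplicit false

namespace Pool.Agent.U831.AF

open Filter Polynomial Pool.Agent.V11210.ZZ

lemma pi_measure (d : ℕ) : ∃ c : ℝ, 0 < c ∧ ∃ κ : ℕ, ∀ (H : ℝ) (a : Fin (d + 1) → ℤ), 1 ≤ H → a ≠ 0 →
    (∀ i, |(a i : ℝ)| ≤ H) → c ≤ H ^ κ * |∑ i, (a i : ℝ) * Real.pi ^ (i : ℕ)| := by
  obtain ⟨κ, c, hκ, hc, h⟩ := Pool.Agent.TH456.TM.measT_pi d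
  refine ⟨c, hc, ⌈κ⌉₊, fun H a hH ha hb => ?_⟩
  obtain ⟨P, hP⟩ : ∃ P : ℤ[X], P = ∑ i : Fin (d + 1), C (a i) * X ^ (i : ℕ) := ⟨_, rfl⟩
  have hcoef : ∀ j, P.coeff j = if h : j < d + 1 then a ⟨j, h⟩ else 0 := by
    intro j
    rw [hP, finsetSum_coeff]
    simp only [coeff_C_mul, coeff_X_pow]
    split_ifs with h
    · rw [Finset.sum_eq_single ⟨j, h⟩]
      · simp
      · intro b _ hb
        have : j ≠ (b : ℕ) := fun e => hb (Fin.ext e.symm)
        simp [this]
      · simp
    · apply Finset.sum_eq_zero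
      intro b _
      have : j ≠ (b : ℕ) := fun e => h (e ▸ b.2)
      simp [this]
  have hP0 : P ≠ 0 := by
    intro h0
    apply ha
    funext i
    have h1 := hcoef i
    rw [h0, dif_pos i.2] at h1
    simpa using h1.symm
  have hdeg : P.natDegree ≤ d := by
    rw [natDegree_le_iff_coeff_eq_zero]
    intro j hj
    rw [hcoef, dif_neg (by omega)]
  have hbd : ∀ j, |(P.coeff j : ℝ)| ≤ H := by
    intro j
    rw [hcoef]
    split_ifs with hj
    · exact hb _
    · simp
      linarith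
  have h1 := h P hP0 hdeg H hH hbd
  have h2 : ‖aeval (Real.pi : ℂ) P‖ = |∑ i, (a i : ℝ) * Real.pi ^ (i : ℕ)| := by
    have e1 : aeval (Real.pi : ℂ) P = ((∑ i, (a i : ℝ) * Real.pi ^ (i : ℕ) : ℝ) : ℂ) := by
      rw [hP, map_sum]
      push_cast
      refine Finset.sum_congr rfl fun i _ => ?_
      rw [map_mul, aeval_C, map_pow, aeval_X]
      simp only [algebraMap_int_eq, eq_intCast]
    rw [e1, Complex.norm_real, Real.norm_eq_abs]
  rw [h2] at h1
  refine h1.trans (mul_le_mul_of_nonneg_right (rpow_le_npow hH (Nat.le_ceil κ)) (abs_nonneg _))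

lemma zeta_measure : ∃ c : ℝ, 0 < c ∧ ∃ κ : ℕ, ∀ (H : ℝ) (a : Fin 3 → ℤ), 1 ≤ H → a ≠ 0 →
    (∀ i, |(a i : ℝ)| ≤ H) →
      c ≤ H ^ κ * |∑ i, (a i : ℝ) * (![1, Real.pi ^ 2, zeta 3] : Fin 3 → ℝ) i| := by
  obtain ⟨c, hc, -, k, m1, m2⟩ := meas
  refine ⟨c / 6 ^ k, by positivity, k, fun H a hH ha hb => ?_⟩
  have hval : ∑ i, (a i : ℝ) * (![1, Real.pi ^ 2, zeta 3] : Fin 3 → ℝ) i =
      (a 0 : ℝ) + ((6 * a 1 : ℤ) : ℝ) * zeta 2 + a 2 * zeta 3 := by
    rw [Fin.sum_univ_three, zeta_two]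
    simp only [Matrix.cons_val_zero, Matrix.cons_val_one, Matrix.cons_val]
    push_cast
    ring
  rw [hval]
  have h6 : (1 : ℝ) ≤ 6 * H := by linarith
  have hb1 : |((6 * a 1 : ℤ) : ℝ)| ≤ 6 * H := by
    push_cast
    rw [abs_mul, abs_of_pos (by norm_num : (0 : ℝ) < 6)]
    have := hb 1
    linarith
  rw [div_le_iff₀ (by positivity)]
  have hmul : ∀ t : ℝ, H ^ k * t * 6 ^ k = (6 * H) ^ k * t := by
    intro t
    rw [mul_pow]
    ring
  rw [hmul]
  by_cases h2 : a 2 = 0
  · have h3 := m2 0 (6 * a 1) (a 0) (6 * H) h6 (by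
      rintro ⟨-, h4, h5⟩
      apply ha
      funext i
      fin_cases i
      · exact h5
      · have : a 1 = 0 := by omega
        exact this
      · exact h2) (by simp; linarith) hb1 (by have := hb 0; linarith)
    rw [h2]
    have e : ((0 : ℤ) : ℝ) * zeta 2 ^ 2 + ((6 * a 1 : ℤ) : ℝ) * zeta 2 + (a 0 : ℝ) =
        (a 0 : ℝ) + ((6 * a 1 : ℤ) : ℝ) * zeta 2 + ((0 : ℤ) : ℝ) * zeta 3 := by
      push_cast
      ring
    rw [e] at h3
    exact h3
  · exact m1 (a 0) (6 * a 1) (a 2) (6 * H) h6 h2 hb1 (by have := hb 2; linarith)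

section

variable {S : Scale} {K : Type} [Field K] (cl : S.A →+* K)
  (hcl : ∀ f : S.A, cl f = 0 ↔ ∀ m : ℕ, ∀ᶠ n in (S.F : Filter ℕ), |f.1 n| * S.T n ^ m ≤ 1)

include hcl

/-- the class of `π²` is transcendental over the fractions of integers -/
lemma transc_pi_sq :
    letI := FractionRing.liftAlgebra (Scale.D cl) K
    Transcendental (FractionRing (Scale.D cl)) (cl (S.const (Real.pi ^ 2))) := by
  letI := FractionRing.liftAlgebra (Scale.D cl) K
  haveI := FractionRing.isScalarTower_liftAlgebra (Scale.D cl) K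
  have h1 : Transcendental (FractionRing (Scale.D cl)) (cl (S.const Real.pi)) := by
    intro halg
    rw [← IsFractionRing.isAlgebraic_iff (Scale.D cl) (FractionRing (Scale.D cl)) K] at halg
    obtain ⟨p, hp, hp0⟩ := halg
    obtain ⟨c, hc, κ, h⟩ := pi_measure p.natDegree
    have hli := Scale.linearIndependent_D cl hcl (fun i : Fin (p.natDegree + 1) => Real.pi ^ (i : ℕ)) c hc κ h
    rw [Fintype.linearIndependent_iff] at hli
    have h2 := hli (fun i => p.coeff i) (by
      rw [aeval_eq_sum_range, Finset.sum_range] at hp0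
      rw [← hp0]
      refine Finset.sum_congr rfl fun i _ => ?_
      rw [map_pow, map_pow])
    apply hp
    ext j
    by_cases hj : j < p.natDegree + 1
    · rw [h2 ⟨j, hj⟩, coeff_zero]
    · rw [coeff_eq_zero_of_natDegree_lt (by omega), coeff_zero]
  have h3 : cl (S.const (Real.pi ^ 2)) = cl (S.const Real.pi) ^ 2 := by
    rw [map_pow, map_pow]
  rw [h3]
  exact h1.pow (by norm_num)

/-- `1`, `π²`, `ζ(3)` are independent over the fractions of integers -/
lemma zeta_not_linear :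
    letI := FractionRing.liftAlgebra (Scale.D cl) K
    ∀ a b : FractionRing (Scale.D cl), cl (S.const (zeta 3)) ≠
      algebraMap (FractionRing (Scale.D cl)) K a +
        algebraMap (FractionRing (Scale.D cl)) K b * cl (S.const (Real.pi ^ 2)) := by
  letI := FractionRing.liftAlgebra (Scale.D cl) K
  haveI := FractionRing.isScalarTower_liftAlgebra (Scale.D cl) K
  intro a b hab
  obtain ⟨c, hc, κ, h⟩ := zeta_measure
  have hli := Scale.linearIndependent_D cl hcl (![1, Real.pi ^ 2, zeta 3] : Fin 3 → ℝ) c hc κ h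
  rw [LinearIndependent.iff_fractionRing (Scale.D cl) (FractionRing (Scale.D cl)),
    Fintype.linearIndependent_iff] at hli
  have h2 := hli ![a, b, -1] (by
    rw [Fin.sum_univ_three]
    simp only [Matrix.cons_val_zero, Matrix.cons_val_one, Matrix.cons_val, Algebra.smul_def]
    rw [hab, map_one, map_one, map_neg, map_one]
    ring) 2
  simp at h2

end

/-- the class of a rational combination -/
lemma span_class {S : Scale} {K : Type} [Field K] (cl : S.A →+* K) {k : Type} [Field k] [Algebra k K]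
    (B : Set ℝ) (V : Submodule k K) (hB : ∀ s ∈ B, cl (S.const s) ∈ V) (t : ℝ)
    (ht : t ∈ Submodule.span ℚ B) : cl (S.const t) ∈ V := by
  induction ht using Submodule.span_induction with
  | mem x hx => exact hB x hx
  | zero => rw [map_zero, map_zero]; exact V.zero_mem
  | add x y _ _ hx hy => rw [map_add, map_add]; exact V.add_mem hx hy
  | smul q x _ hx =>
    rw [Rat.smul_def, map_mul, map_mul]
    have e1 : cl (S.const ((q : ℚ) : ℝ)) = algebraMap k K (q : k) := by
      have h1 : (cl.comp S.const) ((q : ℚ) : ℝ) = (q : K) := map_ratCast _ q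
      rw [map_ratCast (algebraMap k K) q]
      exact h1
    rw [e1, ← Algebra.smul_def]
    exact V.smul_mem _ hx

/-- the vectors `(1; t; z)`, `z` between `0` and `1` -/
def fam {f r : ℕ} (t : Fin f → ℝ) : Set (Option (Fin f ⊕ Fin r) → ℝ) :=
  {u | u none = 1 ∧ (∀ i, u (some (Sum.inl i)) = t i) ∧
    ∀ j, 0 ≤ u (some (Sum.inr j)) ∧ u (some (Sum.inr j)) ≤ 1}

/-- **The rank.** If the monomials in `π²` and `ζ(3)` of weight at most `w` are rational combinations
of `1` and the `t i`, the rank is at least `⌊2w/3⌋ + 1`. -/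
theorem rank_fam {f r : ℕ} (w : ℕ) (t : Fin f → ℝ)
    (ht : ∀ a b : ℕ, 2 * b + 3 * a ≤ w →
      (Real.pi ^ 2) ^ b * zeta 3 ^ a ∈ Submodule.span ℚ (insert 1 (Set.range t))) :
    RankGe (fam (r := r) t) (2 * w / 3 + 1) := by
  intro S K hK cl hcl u hu hA
  letI := FractionRing.liftAlgebra (Scale.D cl) K
  haveI := FractionRing.isScalarTower_liftAlgebra (Scale.D cl) K
  refine two_thirds (k := FractionRing (Scale.D cl)) (K := K) (cl (S.const (Real.pi ^ 2)))
    (cl (S.const (zeta 3))) (transc_pi_sq cl hcl) (zeta_not_linear cl hcl) w _ ?_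
  intro a b hab
  have h1 : cl (S.const ((Real.pi ^ 2) ^ b * zeta 3 ^ a)) =
      cl (S.const (Real.pi ^ 2)) ^ b * cl (S.const (zeta 3)) ^ a := by
    rw [map_mul, map_mul, map_pow, map_pow S.const (zeta 3), map_pow, map_pow cl (S.const (zeta 3))]
  rw [← h1]
  refine span_class cl (insert 1 (Set.range t)) _ ?_ _ (ht a b hab)
  rintro s (rfl | ⟨i, rfl⟩)
  · refine Submodule.subset_span ⟨none, ?_⟩
    exact congrArg cl (Subtype.ext (funext fun n => (hu n).1))
  · refine Submodule.subset_span ⟨some (Sum.inl i), ?_⟩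
    exact congrArg cl (Subtype.ext (funext fun n => (hu n).2.1 i))

/-- **Near relations at every scale.** -/
theorem near_fam {f : ℕ} (r w : ℕ) (t : Fin f → ℝ)
    (ht : ∀ a b : ℕ, 2 * b + 3 * a ≤ w →
      (Real.pi ^ 2) ^ b * zeta 3 ^ a ∈ Submodule.span ℚ (insert 1 (Set.range t))) :
    ∃ (κ : ℕ) (X₀ : ℝ), ∀ u ∈ fam (r := r) t, ∀ X : ℝ, X₀ ≤ X →
      Module.finrank ℚ (Submodule.span ℚ (toQ '' nearSet u κ X)) + 2 * w / 3 ≤ f + r := by
  have hB : ∀ u ∈ fam (r := r) t, ∀ i, |u i| ≤ 1 + ∑ i, |t i| := by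
    intro u hu i
    have hs : 0 ≤ ∑ i, |t i| := Finset.sum_nonneg fun i _ => abs_nonneg _
    rcases i with _ | i | i
    · rw [hu.1, abs_one]
      linarith
    · rw [hu.2.1 i]
      have := Finset.single_le_sum (f := fun i => |t i|) (fun j _ => abs_nonneg _) (Finset.mem_univ i)
      have h2 : |t i| ≤ ∑ i, |t i| := this
      linarith
    · have := hu.2.2 i
      rw [abs_of_nonneg this.1]
      linarith
  obtain ⟨κ, X₀, h⟩ := transfer (fam (r := r) t) (1 + ∑ i, |t i|) hB (2 * w / 3 + 1) (rank_fam w t ht)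
  refine ⟨κ, X₀, fun u hu X hX => ?_⟩
  have := h u hu X hX
  simp only [Fintype.card_option, Fintype.card_sum, Fintype.card_fin] at this
  omega

end Pool.Agent.U831.AF
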