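import Pool.Agent.U831.AF.Dich
import Pool.Agent.U831.AF.Dist

/-!
# At every scale: transcendence of all values up to weight `w`, or growth of the dimensions (near form)
-/

set_option autoImplicit false

namespace Pool.Agent.U831.AF

open Filter Polynomial Pool.Agent.H447R2.MZ

lemma isAlg_sum {k K ι : Type} [Field k] [Field K] [Algebra k K] (B : Finset ι) (f : ι → K)
    (h : ∀ i ∈ B, IsAlgebraic k (f i)) : IsAlgebraic k (∑ i ∈ B, f i) := by
  rw [← mem_algebraicClosure_iff]
  exact sum_mem fun i hi => mem_algebraicClosure_iff.2 (h i hi)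

lemma isAlg_prod {k K ι : Type} [Field k] [Field K] [Algebra k K] (B : Finset ι) (f : ι → K)
    (h : ∀ i ∈ B, IsAlgebraic k (f i)) : IsAlgebraic k (∏ i ∈ B, f i) := by
  rw [← mem_algebraicClosure_iff]
  exact prod_mem fun i hi => mem_algebraicClosure_iff.2 (h i hi)

/-- the divisors: `π ^ n` for even `n`, `ζ(3) π ^ (n - 3)` for odd `n` -/
noncomputable def den (n : ℕ) : ℝ := if n % 2 = 0 then Real.pi ^ n else z3 * Real.pi ^ (n - 3)

lemma den_ne (n : ℕ) : den n ≠ 0 := by
  unfold den
  split_ifs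
  · exact pow_ne_zero _ Real.pi_ne_zero
  · exact mul_ne_zero z3_pos.ne' (pow_ne_zero _ Real.pi_ne_zero)

theorem den_mem (k : ℕ) (z : ℝ) (hz : z ∈ Zs k) (n : ℕ) (hn : 2 ≤ n) :
    ∀ i < (n - 3 * (n % 2)) / (2 * k) + 1, den n * ((z / Real.pi ^ k) ^ 2) ^ i ∈ Zs n := by
  have hz2 : z ^ 2 ∈ Zs (2 * k) := by
    have := pow_mem k z hz 2
    rwa [mul_comm k 2] at this
  rcases Nat.even_or_odd' n with ⟨m, rfl | rfl⟩
  · have hmod : 2 * m % 2 = 0 := by omega
    have hden : den (2 * m) = Real.pi ^ (2 * m) := by unfold den; rw [if_pos hmod]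
    rw [hmod, hden]
    simp only [mul_zero, Nat.sub_zero]
    intro i hi
    have hi2 : 2 * k * i ≤ 2 * m := by
      have h1 : i ≤ 2 * m / (2 * k) := by omega
      calc 2 * k * i ≤ 2 * k * (2 * m / (2 * k)) := Nat.mul_le_mul_left _ h1
        _ ≤ 2 * m := Nat.mul_div_le _ _
    have hki : k * i ≤ m := by nlinarith
    have h1 := mul_mem _ _ _ _ (pow_mem (2 * k) _ hz2 i) (pi_pow_mem (m - k * i))
    have e1 : 2 * k * i + 2 * (m - k * i) = 2 * m := by
      rw [Nat.mul_assoc, ← Nat.mul_add]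
      congr 1
      omega
    rw [e1] at h1
    have e2 : Real.pi ^ (2 * m) = Real.pi ^ (2 * (k * i)) * Real.pi ^ (2 * (m - k * i)) := by
      rw [← pow_add]; congr 1; rw [← e1]; ring
    have e3 : Real.pi ^ (2 * m) * ((z / Real.pi ^ k) ^ 2) ^ i =
        (z ^ 2) ^ i * Real.pi ^ (2 * (m - k * i)) := by
      rw [e2, div_pow, div_pow]
      have : ((Real.pi ^ k) ^ 2) ^ i = Real.pi ^ (2 * (k * i)) := by
        rw [← pow_mul, ← pow_mul]; congr 1; ring
      rw [this]
      field_simp
    rw [e3]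
    exact h1
  · have hmod : (2 * m + 1) % 2 = 1 := by omega
    have hden : den (2 * m + 1) = z3 * Real.pi ^ (2 * m + 1 - 3) := by
      unfold den; rw [if_neg (by omega)]
    rw [hmod, hden]
    simp only [mul_one]
    have hm1 : 1 ≤ m := by omega
    have e0 : 2 * m + 1 - 3 = 2 * (m - 1) := by omega
    rw [e0]
    intro i hi
    have hi2 : 2 * k * i ≤ 2 * (m - 1) := by
      have h1 : i ≤ 2 * (m - 1) / (2 * k) := by omega
      calc 2 * k * i ≤ 2 * k * (2 * (m - 1) / (2 * k)) := Nat.mul_le_mul_left _ h1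
        _ ≤ _ := Nat.mul_div_le _ _
    have hki : k * i ≤ m - 1 := by nlinarith
    have h1 := mul_mem _ _ _ _ z3_mem
      (mul_mem _ _ _ _ (pow_mem (2 * k) _ hz2 i) (pi_pow_mem (m - 1 - k * i)))
    have e1 : 3 + (2 * k * i + 2 * (m - 1 - k * i)) = 2 * m + 1 := by
      rw [Nat.mul_assoc, ← Nat.mul_add]
      omega
    rw [e1] at h1
    have e2 : Real.pi ^ (2 * (m - 1)) =
        Real.pi ^ (2 * (k * i)) * Real.pi ^ (2 * (m - 1 - k * i)) := by
      rw [← pow_add]; congr 1; omega
    have e3 : z3 * Real.pi ^ (2 * (m - 1)) * ((z / Real.pi ^ k) ^ 2) ^ i =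
        z3 * ((z ^ 2) ^ i * Real.pi ^ (2 * (m - 1 - k * i))) := by
      rw [e2, div_pow, div_pow]
      have : ((Real.pi ^ k) ^ 2) ^ i = Real.pi ^ (2 * (k * i)) := by
        rw [← pow_mul, ← pow_mul]; congr 1; ring
      rw [this]
      field_simp
    rw [e3]
    exact h1

/-- monomials in the `t j`, of degree at most `D` in each -/
noncomputable def mon {f D : ℕ} (t : Fin f → ℝ) (α : Fin f → Fin (D + 1)) : ℝ := ∏ j, t j ^ (α j : ℕ)

/-- their weights -/
def wmon {f D : ℕ} (wt : Fin f → ℕ) (α : Fin f → Fin (D + 1)) : ℕ := ∑ j, (α j : ℕ) * wt j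

/-- weights of `1` and the monomials -/
def omega {f D : ℕ} (wt : Fin f → ℕ) : Option (Fin f → Fin (D + 1)) → ℕ
  | none => 0
  | some α => wmon wt α

section

variable {S : Scale} {K : Type} [Field K] (cl : S.A →+* K)
  (hcl : ∀ f : S.A, cl f = 0 ↔ ∀ m : ℕ, ∀ᶠ n in (S.F : Filter ℕ), |f.1 n| * S.T n ^ m ≤ 1)

include hcl

/-- homogeneity when all ratios are algebraic -/
lemma parts_zero {ι : Type} [Fintype ι] (s : ι → ℝ) (ω : ι → ℕ)
    (halg : letI := FractionRing.liftAlgebra (Scale.D cl) K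
      ∀ i, IsAlgebraic (FractionRing (Scale.D cl)) (cl (S.const (s i)) / cl (S.const Real.pi) ^ ω i))
    (β : ι → Scale.D cl) (h0 : ∑ i, (β i : K) * cl (S.const (s i)) = 0) (q : ℕ) :
    ∑ i with ω i = q, (β i : K) * cl (S.const (s i)) = 0 := by
  classical
  letI := FractionRing.liftAlgebra (Scale.D cl) K
  haveI := FractionRing.isScalarTower_liftAlgebra (Scale.D cl) K
  have hs : cl (S.const Real.pi) ≠ 0 := by
    intro h
    have := (map_ne_zero (cl.comp S.const)).2 Real.pi_ne_zero
    exact this h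
  obtain ⟨P, hP⟩ : ∃ P : ℕ, ∀ i, ω i ≤ P :=
    ⟨∑ i, ω i, fun i => Finset.single_le_sum (fun j _ => Nat.zero_le _) (Finset.mem_univ i)⟩
  by_cases hq : q ≤ P
  · have h1 := indep_alg (cl (S.const Real.pi)) (transc_pi cl hcl) P
      (fun p => (∑ i with ω i = p, (β i : K) * cl (S.const (s i))) / cl (S.const Real.pi) ^ p) (by
        intro p _
        rw [Finset.sum_div]
        refine isAlg_sum _ _ fun i hi => ?_
        rw [Finset.mem_filter] at hi
        have e : (β i : K) * cl (S.const (s i)) / cl (S.const Real.pi) ^ p =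
            algebraMap (Scale.D cl) (FractionRing (Scale.D cl)) (β i) •
              (cl (S.const (s i)) / cl (S.const Real.pi) ^ ω i) := by
          rw [algebraMap_smul, hi.2, mul_div_assoc]
          rfl
        rw [e]
        exact (halg i).smul _) (by
        have e : ∀ p, (∑ i with ω i = p, (β i : K) * cl (S.const (s i))) / cl (S.const Real.pi) ^ p *
            cl (S.const Real.pi) ^ p = ∑ i with ω i = p, (β i : K) * cl (S.const (s i)) := by
          intro p
          rw [div_mul_cancel₀]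
          exact pow_ne_zero _ hs
        simp only [e]
        rw [Finset.sum_fiberwise_of_maps_to (s := Finset.univ) (t := Finset.range (P + 1)) (g := ω)
          (fun i _ => Finset.mem_range.2 (by have := hP i; omega))]
        exact h0) q hq
    rw [div_eq_zero_iff] at h1
    rcases h1 with h1 | h1
    · exact h1
    · exact absurd h1 (pow_ne_zero _ hs)
  · have h5 : (Finset.univ.filter fun i => ω i = q) = ∅ := by
      rw [Finset.filter_eq_empty_iff]
      intro i _ h
      have := hP i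
      omega
    rw [h5, Finset.sum_empty]

omit hcl in
/-- monomials -/
lemma mon_alg {f D : ℕ} (t : Fin f → ℝ) (wt : Fin f → ℕ)
    (h : letI := FractionRing.liftAlgebra (Scale.D cl) K
      ∀ j, IsAlgebraic (FractionRing (Scale.D cl)) (cl (S.const (t j)) / cl (S.const Real.pi) ^ wt j)) :
    letI := FractionRing.liftAlgebra (Scale.D cl) K
    ∀ i : Option (Fin f → Fin (D + 1)), IsAlgebraic (FractionRing (Scale.D cl))
      (cl (S.const (one_u (mon t) i)) / cl (S.const Real.pi) ^ omega wt i) := by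
  letI := FractionRing.liftAlgebra (Scale.D cl) K
  rintro (_ | α)
  · change IsAlgebraic (FractionRing (Scale.D cl)) (cl (S.const 1) / cl (S.const Real.pi) ^ 0)
    rw [map_one, map_one, pow_zero, div_one]
    exact isAlgebraic_one
  · change IsAlgebraic (FractionRing (Scale.D cl)) (cl (S.const (mon t α)) / cl (S.const Real.pi) ^ wmon wt α)
    have e : cl (S.const (mon t α)) / cl (S.const Real.pi) ^ wmon wt α =
        ∏ j, (cl (S.const (t j)) / cl (S.const Real.pi) ^ wt j) ^ (α j : ℕ) := by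
      unfold mon wmon
      rw [map_prod, map_prod, ← Finset.prod_pow_eq_pow_sum, ← Finset.prod_div_distrib]
      refine Finset.prod_congr rfl fun j _ => ?_
      rw [map_pow, map_pow, div_pow, ← pow_mul, mul_comm (wt j)]
    rw [e]
    exact isAlg_prod _ _ fun j _ => (h j).pow _

omit hcl in
lemma growth_den (p : ℕ) (t : ℝ) (ht : t ∈ Zs p)
    (htr : letI := FractionRing.liftAlgebra (Scale.D cl) K
      Transcendental (FractionRing (Scale.D cl)) (cl (S.const t) / cl (S.const Real.pi) ^ p))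
    (n : ℕ) (hn : 2 ≤ n) :
    letI := FractionRing.liftAlgebra (Scale.D cl) K
    ∀ V : Submodule (FractionRing (Scale.D cl)) K, (∀ r ∈ Zs n, cl (S.const (r / den n)) ∈ V) →
      (((n - 3 * (n % 2)) / (2 * p) + 1 : ℕ) : Cardinal) ≤ Module.rank (FractionRing (Scale.D cl)) V := by
  letI := FractionRing.liftAlgebra (Scale.D cl) K
  intro V hV
  have h := den_mem p t ht n hn
  have hx : Transcendental (FractionRing (Scale.D cl))
      ((cl (S.const t) / cl (S.const Real.pi) ^ p) ^ 2) := htr.pow (by norm_num)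
  refine rank_pow V 1 _ one_ne_zero hx _ ?_
  intro i hi
  have h1 := hV _ (h i hi)
  rw [mul_div_cancel_left₀ _ (den_ne n)] at h1
  have e : cl (S.const (((t / Real.pi ^ p) ^ 2) ^ i)) =
      1 * ((cl (S.const t) / cl (S.const Real.pi) ^ p) ^ 2) ^ i := by
    have e1 : ∀ r : ℝ, cl (S.const r) = (cl.comp S.const) r := fun r => rfl
    simp only [e1]
    rw [map_pow, map_pow, map_div₀, map_pow, one_mul]
  rw [e] at h1
  exact h1

end

/-- small relations between `1` and the monomials split -/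
def TNear {f : ℕ} (D : ℕ) (t : Fin f → ℝ) (wt : Fin f → ℕ) (κ₀ κ' : ℕ) (Y : ℝ) : Prop :=
  ∀ b ∈ nearSet (one_u (mon (D := D) t)) κ₀ Y, ∀ p,
    |∑ i with omega wt i = p, (b i : ℝ) * one_u (mon t) i| * Y ^ κ' ≤ 1

theorem near_dichotomy (w w' : ℕ) {f : ℕ} (t : Fin f → ℝ) (wt : Fin f → ℕ) (ht : ∀ j, t j ∈ Zs (wt j))
    (hwt : ∀ j, wt j ≤ w) (D : ℕ) (g : ℕ → ℕ) (u : ∀ n, Fin (g n) → ℝ)
    (hu : ∀ n ≤ w', Zs n ≤ Submodule.span ℚ (Set.range (u n))) (κ' : ℕ) :
    ∃ (κ : ℕ) (X₀ : ℝ), ∀ X : ℝ, X₀ ≤ X →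
      TNear D t wt κ κ' X ∨
      (∀ n, 2 ≤ n → n ≤ w' →
        Module.finrank ℚ (Submodule.span ℚ (toQ '' nearSet (one_u fun i => u n i / den n) κ X)) +
          (n - 3 * (n % 2)) / (2 * w) ≤ g n) := by
  classical
  by_contra hcon
  push Not at hcon
  choose X hX hD hG using fun n : ℕ => hcon n (n + 2)
  unfold TNear at hD
  push Not at hD
  choose a ha p hp using hD
  choose n' h2 hw' hlt using hG
  have hX2 : ∀ n, 2 ≤ X n := fun n => by
    have := hX n
    have h0 : (0 : ℝ) ≤ n := by positivity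
    linarith
  have hX1 : ∀ n, 1 ≤ X n := fun n => by have := hX2 n; linarith
  have htend : Tendsto X ((hyperfilter ℕ : Ultrafilter ℕ) : Filter ℕ) atTop := by
    have h1 : Tendsto X atTop atTop := by
      refine tendsto_atTop_mono (fun n => ?_) (tendsto_natCast_atTop_atTop (R := ℝ))
      have := hX n
      linarith
    exact h1.mono_left (by
      rw [← Nat.cofinite_eq_atTop]
      exact hyperfilter_le_cofinite)
  let S : Scale := ⟨hyperfilter ℕ, X, hX2, htend⟩
  have hlarge : ∀ m' : ℕ, ∀ᶠ n in (S.F : Filter ℕ), m' ≤ n := by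
    intro m'
    have h1 : ∀ᶠ n in (atTop : Filter ℕ), m' ≤ n := eventually_ge_atTop m'
    rw [← Nat.cofinite_eq_atTop] at h1
    exact hyperfilter_le_cofinite h1
  obtain ⟨K, hK, cl, hcl⟩ := S.exists_cl
  have haA : ∀ j, (fun n => ((a n j : ℤ) : ℝ)) ∈ S.A := by
    intro j
    refine ⟨1, Eventually.of_forall fun n => ?_⟩
    rw [pow_one]
    exact (ha n).1 j
  letI := FractionRing.liftAlgebra (Scale.D cl) K
  haveI := FractionRing.isScalarTower_liftAlgebra (Scale.D cl) K
  set s : Option (Fin f → Fin (D + 1)) → ℝ := one_u (mon t) with hs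
  have hval : ∀ (B : Finset (Option (Fin f → Fin (D + 1)))) (n : ℕ),
      (∑ j ∈ B, (⟨_, haA j⟩ : S.A) * S.const (s j)).1 n = ∑ j ∈ B, (a n j : ℝ) * s j := by
    intro B n
    have : ((∑ j ∈ B, (⟨_, haA j⟩ : S.A) * S.const (s j) : S.A) : ℕ → ℝ) =
        ∑ j ∈ B, (fun n => (a n j : ℝ)) * (fun _ => s j) := by
      rw [AddSubmonoidClass.coe_finsetSum]
      rfl
    rw [this, Finset.sum_apply]
    rfl
  have hclsum : ∀ B : Finset (Option (Fin f → Fin (D + 1))),
      ∑ j ∈ B, ((clD cl (fun n => a n j) (haA j) : Scale.D cl) : K) * cl (S.const (s j)) =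
        cl (∑ j ∈ B, (⟨_, haA j⟩ : S.A) * S.const (s j)) := by
    intro B
    rw [map_sum]
    refine Finset.sum_congr rfl fun j _ => ?_
    rw [map_mul]
    rfl
  have hsm : ∑ j, ((clD cl (fun n => a n j) (haA j) : Scale.D cl) : K) * cl (S.const (s j)) = 0 := by
    rw [hclsum, hcl]
    intro m'
    filter_upwards [hlarge m'] with n hn
    rw [hval]
    refine le_trans ?_ (ha n).2
    apply mul_le_mul_of_nonneg_left _ (abs_nonneg _)
    exact pow_le_pow_right₀ (hX1 n) hn
  obtain ⟨j, htr⟩ : ∃ j, Transcendental (FractionRing (Scale.D cl))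
      (cl (S.const (t j)) / cl (S.const Real.pi) ^ wt j) := by
    by_contra hall
    push Not at hall
    have halg : ∀ j, IsAlgebraic (FractionRing (Scale.D cl))
        (cl (S.const (t j)) / cl (S.const Real.pi) ^ wt j) := by
      intro j
      have := hall j
      rw [Transcendental, not_not] at this
      exact this
    have hz := parts_zero cl hcl s (omega wt) (mon_alg (D := D) cl t wt halg) _ hsm
    obtain ⟨P, hP⟩ : ∃ P : ℕ, ∀ i : Option (Fin f → Fin (D + 1)), omega wt i ≤ P :=
      ⟨∑ i, omega wt i, fun i => Finset.single_le_sum (f := fun i => omega wt i)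
        (fun j _ => Nat.zero_le _) (Finset.mem_univ i)⟩
    have h1 : ∀ q ∈ Finset.range (P + 1), ∀ᶠ n in (S.F : Filter ℕ),
        |∑ i with omega wt i = q, (a n i : ℝ) * s i| * X n ^ (κ' + 1) ≤ 1 := by
      intro q _
      have h3 := hz q
      rw [hclsum, hcl] at h3
      filter_upwards [h3 (κ' + 1)] with n hn
      rw [hval] at hn
      exact hn
    rw [← Finset.eventually_all] at h1
    obtain ⟨n, hn⟩ := h1.exists
    have h4 := hp n
    by_cases hpw : p n ≤ P
    · have h3 := hn (p n) (Finset.mem_range.2 (by omega))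
      rw [pow_succ, ← mul_assoc] at h3
      have h7 := hX2 n
      nlinarith
    · have h5 : (Finset.univ.filter fun i => omega (D := D) wt i = p n) = ∅ := by
        rw [Finset.filter_eq_empty_iff]
        intro i _ h
        have := hP i
        omega
      rw [h5] at h4
      simp at h4
      linarith
  have hq1 : 1 ≤ wt j := by
    by_contra h
    have hq0 : wt j = 0 := by omega
    have h3 := ht j
    rw [hq0] at h3
    obtain ⟨r, hr⟩ := Zs_zero h3
    apply htr
    have e1 : cl (S.const ((r : ℚ) : ℝ)) = algebraMap (FractionRing (Scale.D cl)) K (r : FractionRing (Scale.D cl)) := by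
      have h1 : (cl.comp S.const) ((r : ℚ) : ℝ) = (r : K) := map_ratCast _ r
      rw [map_ratCast (algebraMap (FractionRing (Scale.D cl)) K) r]
      exact h1
    rw [hq0, hr, pow_zero, div_one, e1]
    exact isAlgebraic_algebraMap _
  obtain ⟨N, hN, hNe⟩ : ∃ N, N ≤ w' ∧ ∀ᶠ n in (S.F : Filter ℕ), n' n = N := by
    have h1 : (⋃ N ∈ Set.Iic w', {n | n' n = N}) ∈ S.F := by
      have : (⋃ N ∈ Set.Iic w', {n | n' n = N}) = Set.univ := by
        ext n
        simp [hw' n]
      rw [this]
      exact Filter.univ_mem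
    rw [Ultrafilter.finite_biUnion_mem_iff (Set.finite_Iic w')] at h1
    obtain ⟨N, hN, h⟩ := h1
    exact ⟨N, hN, h⟩
  have hN2 : 2 ≤ N := by
    obtain ⟨n, hn⟩ := hNe.exists
    rw [← hn]
    exact h2 n
  obtain ⟨R, hR⟩ : ∃ R : ℕ, R = (N - 3 * (N % 2)) / (2 * w) := ⟨_, rfl⟩
  obtain ⟨m, hm⟩ : ∃ m : ℕ, m = g N + 1 - R := ⟨_, rfl⟩
  obtain ⟨U, hU⟩ : ∃ U : Option (Fin (g N)) → ℝ, U = one_u fun i => u N i / den N := ⟨_, rfl⟩
  have hex : ∀ n, ∃ vv : Fin m → Option (Fin (g N)) → ℤ, n' n = N →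
      (∀ j, vv j ∈ nearSet U n (X n)) ∧ LinearIndependent ℚ (fun j => toQ (vv j)) := by
    intro n
    by_cases h : n' n = N
    · have h1 := hlt n
      rw [h, ← hU, ← hR] at h1
      obtain ⟨vv, h3, h4⟩ := exists_indep (nearSet U n (X n)) m (by omega)
      exact ⟨vv, fun _ => ⟨h3, h4⟩⟩
    · exact ⟨0, fun h1 => absurd h1 h⟩
  choose vv hvv using hex
  have h5 := rank_add_le cl hcl U m vv
    (fun j i => by
      refine ⟨1, ?_⟩
      filter_upwards [hNe] with n hn
      rw [pow_one]
      exact ((hvv n hn).1 j).1 i)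
    (by
      filter_upwards [hNe] with n hn
      exact (hvv n hn).2)
    (fun j m' => by
      filter_upwards [hNe, hlarge m'] with n hn hnm
      refine le_trans ?_ ((hvv n hn).1 j).2
      apply mul_le_mul_of_nonneg_left _ (abs_nonneg _)
      exact pow_le_pow_right₀ (hX1 n) hnm)
  rw [Fintype.card_option, Fintype.card_fin] at h5
  have hUspan : ∀ r ∈ Submodule.span ℚ (Set.range (u N)), r / den N ∈ Submodule.span ℚ (Set.range U) := by
    intro r hr
    induction hr using Submodule.span_induction with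
    | mem x hx =>
      obtain ⟨i, rfl⟩ := hx
      refine Submodule.subset_span ⟨some i, ?_⟩
      rw [hU]
      rfl
    | zero => rw [zero_div]; exact Submodule.zero_mem _
    | add x y _ _ hx hy => rw [add_div]; exact Submodule.add_mem _ hx hy
    | smul q x _ hx =>
      rw [smul_div_assoc]
      exact Submodule.smul_mem _ _ hx
  have h6 := growth_den cl (wt j) (t j) (ht j) htr N hN2 (Submodule.span (FractionRing (Scale.D cl))
      (Set.range fun i => cl (S.const (U i)))) (fun r hr => by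
    refine span_class cl (Set.range U) _ ?_ _ (hUspan r (hu N hN hr))
    rintro s ⟨i, rfl⟩
    exact Submodule.subset_span ⟨i, rfl⟩)
  haveI : FiniteDimensional (FractionRing (Scale.D cl)) (Submodule.span (FractionRing (Scale.D cl))
      (Set.range fun i => cl (S.const (U i)))) :=
    FiniteDimensional.span_of_finite _ (Set.finite_range _)
  rw [← Module.finrank_eq_rank] at h6
  have h7 : (N - 3 * (N % 2)) / (2 * wt j) + 1 ≤ Module.finrank (FractionRing (Scale.D cl))
      (Submodule.span (FractionRing (Scale.D cl)) (Set.range fun i => cl (S.const (U i)))) := by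
    exact_mod_cast h6
  have h8 : (N - 3 * (N % 2)) / (2 * w) ≤ (N - 3 * (N % 2)) / (2 * wt j) :=
    Nat.div_le_div_left (by have := hwt j; omega) (by omega)
  omega

end Pool.Agent.U831.AF
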