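import Pool.Agent.U831.AF.TD

/-!
# At every scale: transcendence of all values up to weight `w`, or growth of the dimensions (distribution)
-/

set_option autoImplicit false

namespace Pool.Agent.U831.AF

open Filter Pool.Agent.U831.JE Pool.Agent.H447R2.MZ

/-- bad vectors give near relations at one explicit scale -/
lemma near_at (C : ℝ) (hC : 0 ≤ C) (κ₀ : ℕ) (M : ℝ) (hM : 1 ≤ M) (κ : ℝ)
    (hκdef : κ = 1 / (6 * (M * κ₀ + 1))) :
    ∃ X₁ : ℝ, ∀ (ι : Type) [Fintype ι] (u : ι → ℝ), ∑ i, |u i| ≤ C → ∀ X : ℝ, X₁ ≤ X →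
      ∀ v ∈ bad κ M u X, ∃ (q : ℕ) (p : ℤ), 1 ≤ q ∧
        lift p q v ∈ nearSet (one_u u) κ₀ (X ^ (3 * κ * M)) := by
  have hk0 : (0 : ℝ) ≤ κ₀ := by positivity
  have hMk : 0 ≤ M * κ₀ := by positivity
  have hκ : 0 < κ := by rw [hκdef]; positivity
  have hκ4 : κ ≤ 1 / 6 := by
    rw [hκdef]
    apply one_div_le_one_div_of_le (by norm_num)
    linarith
  have hexp : κ + 3 * κ * M * κ₀ ≤ 1 / 2 := by
    have h1 : κ * (6 * (M * κ₀ + 1)) = 1 := by
      rw [hκdef]; field_simp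
    nlinarith
  obtain ⟨L, hL⟩ : ∃ L : ℝ, L = 20 * (C + 3) := ⟨_, rfl⟩
  have hL60 : 60 ≤ L := by rw [hL]; linarith
  have hlim : ∀ᶠ X : ℝ in atTop, X ^ (-(1 / 2) : ℝ) < 1 / 20 := by
    have := tendsto_rpow_neg_atTop (show (0 : ℝ) < 1 / 2 by norm_num)
    exact this.eventually_lt_const (by norm_num)
  have hlim2 : ∀ᶠ X : ℝ in atTop, L ≤ X ^ (κ * M) :=
    (tendsto_rpow_atTop (show (0 : ℝ) < κ * M by positivity)).eventually_ge_atTop L
  obtain ⟨X₁, hX₁⟩ := eventually_atTop.1 (hlim.and hlim2)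
  refine ⟨max X₁ (42 ^ 4), ?_⟩
  intro ι _ u hu X hX v hv
  have hX1 : X₁ ≤ X := (le_max_left _ _).trans hX
  have hX4 : (42 : ℝ) ^ 4 ≤ X := (le_max_right _ _).trans hX
  have hX0 : 1 ≤ X := le_trans (by norm_num) hX4
  have hXp : 0 < X := by linarith
  obtain ⟨hsm, hbig⟩ := hX₁ X hX1
  obtain ⟨N, hXN, hNX, h1, hbad⟩ := hv
  have hN1 : 1 ≤ (N : ℝ) := hX0.trans hXN
  have hN1' : 1 ≤ N := by exact_mod_cast hN1
  have hNp : 0 < (N : ℝ) := by linarith
  have h42 : 42 * Real.sqrt N ≤ (N : ℝ) ^ (1 - κ) := by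
    have e1 : (42 : ℝ) ≤ (N : ℝ) ^ ((1 : ℝ) / 4) := by
      have e2 : (42 : ℝ) = ((42 : ℝ) ^ 4) ^ ((1 : ℝ) / 4) := by
        rw [← Real.rpow_natCast (42 : ℝ) 4, ← Real.rpow_mul (by norm_num)]
        norm_num
      rw [e2]
      exact Real.rpow_le_rpow (by norm_num) (hX4.trans hXN) (by norm_num)
    calc 42 * Real.sqrt N ≤ (N : ℝ) ^ ((1 : ℝ) / 4) * (N : ℝ) ^ ((1 : ℝ) / 2) := by
          rw [Real.sqrt_eq_rpow]
          exact mul_le_mul_of_nonneg_right e1 (by positivity)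
      _ = (N : ℝ) ^ ((3 : ℝ) / 4) := by
          rw [← Real.rpow_add hNp]; norm_num
      _ ≤ (N : ℝ) ^ (1 - κ) := Real.rpow_le_rpow_of_exponent_le hN1 (by linarith)
  obtain ⟨q, p, hq1, hqN, hp⟩ := Pool.Agent.U831.HY.near (form u v) N κ hN1' h42 hbad
  have hq0 : (0 : ℝ) < q := by exact_mod_cast hq1
  have hsize : (N : ℝ) ^ (2 * κ) ≤ X ^ (2 * κ * M) := by
    calc (N : ℝ) ^ (2 * κ) ≤ (X ^ M) ^ (2 * κ) := Real.rpow_le_rpow hNp.le hNX (by positivity)
      _ = X ^ (2 * κ * M) := by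
          rw [← Real.rpow_mul hXp.le]; ring_nf
  set T := (N : ℝ) ^ κ with hT
  have hT1 : 1 ≤ T := Real.one_le_rpow hN1 hκ.le
  have hTT : (N : ℝ) ^ (2 * κ) = T * T := by
    rw [two_mul, Real.rpow_add hNp]
  rw [hTT] at hsize
  have hY : L * (T * T) ≤ X ^ (3 * κ * M) := by
    have e : X ^ (3 * κ * M) = X ^ (κ * M) * X ^ (2 * κ * M) := by
      rw [← Real.rpow_add hXp]; ring_nf
    rw [e]
    exact mul_le_mul hbig hsize (by positivity) (by positivity)
  have hform : |form u v| ≤ C * T := by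
    unfold form
    calc |∑ i, (v i : ℝ) * u i| ≤ ∑ i, |(v i : ℝ) * u i| := Finset.abs_sum_le_sum_abs _ _
      _ ≤ ∑ i, T * |u i| := by
          refine Finset.sum_le_sum fun i _ => ?_
          rw [abs_mul]
          exact mul_le_mul_of_nonneg_right (h1 i) (abs_nonneg _)
      _ = T * ∑ i, |u i| := by rw [Finset.mul_sum]
      _ ≤ T * C := mul_le_mul_of_nonneg_left hu (by linarith)
      _ = C * T := mul_comm _ _
  have hTN : 20 * T / N ≤ 20 * (T * T) := by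
    rw [div_le_iff₀ hNp]
    have h3 : 20 * T ≤ 20 * T * T := by nlinarith
    have h4 : 20 * (T * T) ≤ 20 * (T * T) * N := by
      have : 0 ≤ 20 * (T * T) := by positivity
      nlinarith
    linarith
  refine ⟨q, p, hq1, ?_, ?_⟩
  · intro i
    rcases i with _ | i
    · change |((-p : ℤ) : ℝ)| ≤ X ^ (3 * κ * M)
      push_cast
      rw [abs_neg]
      have h3 : |(p : ℝ)| ≤ |(q : ℝ) * form u v| + |(q : ℝ) * form u v - p| := by
        have := abs_sub_abs_le_abs_sub (p : ℝ) ((q : ℝ) * form u v)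
        rw [abs_sub_comm (p : ℝ)] at this
        linarith
      have h4 : |(q : ℝ) * form u v| ≤ 20 * T * (C * T) := by
        rw [abs_mul, abs_of_pos hq0]
        exact mul_le_mul hqN hform (abs_nonneg _) (by positivity)
      have h5 : |(p : ℝ)| ≤ L * (T * T) := by
        rw [hL]
        have : 0 ≤ T * T := by positivity
        nlinarith
      exact h5.trans hY
    · change |(((q : ℤ) * v i : ℤ) : ℝ)| ≤ X ^ (3 * κ * M)
      push_cast
      rw [abs_mul, abs_of_pos hq0]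
      have h4 : (q : ℝ) * |(v i : ℝ)| ≤ 20 * T * T :=
        mul_le_mul hqN (h1 i) (abs_nonneg _) (by positivity)
      have h5 : (q : ℝ) * |(v i : ℝ)| ≤ L * (T * T) := by
        have : 0 ≤ T * T := by positivity
        nlinarith
      exact h5.trans hY
  · have hval : ∑ i, (lift p q v i : ℝ) * one_u u i = (q : ℝ) * form u v - p := by
      rw [Fintype.sum_option]
      change ((-p : ℤ) : ℝ) * 1 + ∑ i, (((q : ℤ) * v i : ℤ) : ℝ) * u i = _
      unfold form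
      rw [Finset.mul_sum]
      have e : ∀ i, (((q : ℤ) * v i : ℤ) : ℝ) * u i = (q : ℝ) * ((v i : ℝ) * u i) := by
        intro i
        push_cast
        ring
      simp only [e]
      push_cast
      ring
    rw [hval]
    have hsmall : 20 * T / N ≤ 20 * X ^ (κ - 1) := by
      have e1 : 20 * T / N = 20 * (N : ℝ) ^ (κ - 1) := by
        rw [Real.rpow_sub hNp, Real.rpow_one, hT]
        ring
      rw [e1]
      exact mul_le_mul_of_nonneg_left (Real.rpow_le_rpow_of_nonpos hXp hXN (by linarith)) (by norm_num)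
    have e2 : (X ^ (3 * κ * M)) ^ κ₀ = X ^ (3 * κ * M * κ₀) := by
      rw [← Real.rpow_natCast (X ^ (3 * κ * M)) κ₀, ← Real.rpow_mul hXp.le]
    rw [e2]
    have e3 : X ^ (κ - 1) * X ^ (3 * κ * M * κ₀) ≤ X ^ (-(1 / 2) : ℝ) := by
      rw [← Real.rpow_add hXp]
      exact Real.rpow_le_rpow_of_exponent_le hX0 (by linarith)
    calc |(q : ℝ) * form u v - p| * X ^ (3 * κ * M * κ₀)
        ≤ (20 * X ^ (κ - 1)) * X ^ (3 * κ * M * κ₀) :=
          mul_le_mul_of_nonneg_right (hp.trans hsmall) (by positivity)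
      _ = 20 * (X ^ (κ - 1) * X ^ (3 * κ * M * κ₀)) := by ring
      _ ≤ 20 * X ^ (-(1 / 2) : ℝ) := mul_le_mul_of_nonneg_left e3 (by positivity)
      _ ≤ 1 := by linarith

/-- **The dichotomy, distribution.** -/
theorem td (w w' : ℕ) {f : ℕ} (t : Fin f → ℝ) (wt : Fin f → ℕ) (ht : ∀ j, t j ∈ Zs (wt j))
    (hwt : ∀ j, wt j ≤ w) (D : ℕ) (g : ℕ → ℕ) (u : ∀ n, Fin (g n) → ℝ)
    (hu : ∀ n ≤ w', Zs n ≤ Submodule.span ℚ (Set.range (u n))) (κ' : ℕ) (M : ℝ) (hM : 1 ≤ M) :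
    ∃ κ : ℝ, 0 < κ ∧ ∃ X₀ : ℝ, 1 ≤ X₀ ∧ ∀ X : ℝ, X₀ ≤ X →
      (∀ N : ℕ, X ≤ N → (N : ℝ) ≤ X ^ M → ∀ v : (Fin f → Fin (D + 1)) → ℤ,
        (∀ α, |(v α : ℝ)| ≤ (N : ℝ) ^ κ) →
          DiscLe (form (mon t) v) N ((N : ℝ) ^ (-κ)) ∨
          ∀ P, 1 ≤ P → |∑ α with wmon wt α = P, (v α : ℝ) * mon t α| * ((N : ℝ) ^ κ) ^ κ' ≤ 1) ∨
      (∀ n, 2 ≤ n → n ≤ w' →
        Module.finrank ℚ (Submodule.span ℚ (toQ '' bad κ M (fun i => u n i / den n) X)) +
          (n - 3 * (n % 2)) / (2 * w) ≤ g n) := by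
  classical
  obtain ⟨κ₀, Y₀, h⟩ := near_dichotomy w w' t wt ht hwt D g u hu κ'
  obtain ⟨κ, hκ⟩ : ∃ κ : ℝ, κ = 1 / (6 * (M * κ₀ + 1)) := ⟨_, rfl⟩
  have hk0 : (0 : ℝ) ≤ κ₀ := by positivity
  have hMk : 0 ≤ M * κ₀ := by positivity
  have hκ0 : 0 < κ := by rw [hκ]; positivity
  obtain ⟨C, hC⟩ : ∃ C : ℝ, C = ∑ α, |mon (D := D) t α| +
      ∑ n ∈ Finset.range (w' + 1), ∑ i, |u n i / den n| := ⟨_, rfl⟩
  have hA0 : 0 ≤ ∑ α, |mon (D := D) t α| := Finset.sum_nonneg fun _ _ => abs_nonneg _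
  have hB0 : 0 ≤ ∑ n ∈ Finset.range (w' + 1), ∑ i, |u n i / den n| :=
    Finset.sum_nonneg fun _ _ => Finset.sum_nonneg fun _ _ => abs_nonneg _
  obtain ⟨X₁, hX₁⟩ := near_at C (by rw [hC]; linarith) κ₀ M hM κ hκ
  have hlim : ∀ᶠ X : ℝ in atTop, Y₀ ≤ X ^ (3 * κ * M) :=
    (tendsto_rpow_atTop (show (0 : ℝ) < 3 * κ * M by positivity)).eventually_ge_atTop Y₀
  obtain ⟨X₂, hX₂⟩ := eventually_atTop.1 hlim
  refine ⟨κ, hκ0, max 1 (max X₁ X₂), le_max_left _ _, fun X hX => ?_⟩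
  have hX1 : 1 ≤ X := (le_max_left _ _).trans hX
  have hXX1 : X₁ ≤ X := ((le_max_left _ _).trans (le_max_right _ _)).trans hX
  have hXX2 : X₂ ≤ X := ((le_max_right _ _).trans (le_max_right _ _)).trans hX
  rcases h (X ^ (3 * κ * M)) (hX₂ X hXX2) with hT | hG
  · refine Or.inl fun N hXN hNX v hv => ?_
    by_cases hd : DiscLe (form (mon t) v) N ((N : ℝ) ^ (-κ))
    · exact Or.inl hd
    · refine Or.inr fun P hP => ?_
      obtain ⟨q, p, hq, hn⟩ := hX₁ _ (mon t) (by rw [hC]; linarith) X hXX1 v ⟨N, hXN, hNX, hv, hd⟩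
      have h1 := hT _ hn P
      have hq1 : (1 : ℝ) ≤ q := by exact_mod_cast hq
      have e : ∑ i with omega wt i = P, (lift p q v i : ℝ) * one_u (mon t) i =
          q * ∑ α with wmon wt α = P, (v α : ℝ) * mon t α := by
        rw [Finset.sum_filter, Fintype.sum_option, if_neg (by change ¬ (0 = P); omega), zero_add,
          Finset.sum_filter, Finset.mul_sum]
        refine Finset.sum_congr rfl fun α _ => ?_
        change (if wmon wt α = P then (((q : ℤ) * v α : ℤ) : ℝ) * mon t α else 0) = _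
        split_ifs
        · push_cast
          ring
        · rw [mul_zero]
      rw [e, abs_mul, abs_of_pos (by linarith : (0 : ℝ) < q)] at h1
      have hNp : 0 ≤ (N : ℝ) := by positivity
      have hNY : (N : ℝ) ^ κ ≤ X ^ (3 * κ * M) := by
        calc (N : ℝ) ^ κ ≤ (X ^ M) ^ κ := Real.rpow_le_rpow hNp hNX hκ0.le
          _ = X ^ (M * κ) := by rw [← Real.rpow_mul (by linarith)]
          _ ≤ X ^ (3 * κ * M) := by
              apply Real.rpow_le_rpow_of_exponent_le hX1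
              have : 0 ≤ κ * M := by positivity
              nlinarith
      have h2 : ((N : ℝ) ^ κ) ^ κ' ≤ (X ^ (3 * κ * M)) ^ κ' :=
        pow_le_pow_left₀ (by positivity) hNY _
      have h3 := abs_nonneg (∑ α with wmon wt α = P, (v α : ℝ) * mon t α)
      have h4 : 0 ≤ (X ^ (3 * κ * M)) ^ κ' := by positivity
      calc |∑ α with wmon wt α = P, (v α : ℝ) * mon t α| * ((N : ℝ) ^ κ) ^ κ'
          ≤ |∑ α with wmon wt α = P, (v α : ℝ) * mon t α| * (X ^ (3 * κ * M)) ^ κ' :=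
            mul_le_mul_of_nonneg_left h2 h3
        _ = 1 * |∑ α with wmon wt α = P, (v α : ℝ) * mon t α| * (X ^ (3 * κ * M)) ^ κ' := by
            rw [one_mul]
        _ ≤ q * |∑ α with wmon wt α = P, (v α : ℝ) * mon t α| * (X ^ (3 * κ * M)) ^ κ' :=
            mul_le_mul_of_nonneg_right (mul_le_mul_of_nonneg_right hq1 h3) h4
        _ ≤ 1 := h1
  · refine Or.inr fun n hn2 hnw => ?_
    have h1 := hG n hn2 hnw
    have h2 := finrank_bad (bad κ M (fun i => u n i / den n) X)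
      (nearSet (one_u fun i => u n i / den n) κ₀ (X ^ (3 * κ * M)))
      (hX₁ _ (fun i => u n i / den n) (by
        have := Finset.single_le_sum (f := fun n => ∑ i, |u n i / den n|)
          (fun n _ => Finset.sum_nonneg fun _ _ => abs_nonneg _) (Finset.mem_range.2 (by omega : n < w' + 1))
        have h3 : ∑ i, |u n i / den n| ≤ ∑ n ∈ Finset.range (w' + 1), ∑ i, |u n i / den n| := this
        rw [hC]
        linarith) X hXX1)
    omega

end Pool.Agent.U831.AF
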